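import Mathlib

/-!
For a function `w` tending to infinity, Lehmer's bound for the irreducible polynomials of degree `n`
with at most `w n` coefficients prime to `p`, with one constant, is equivalent to Lehmer's conjecture.
(Replace `f` by `f(X ^ q)`, `q` a large prime number.)
-/

set_option autoImplicit false

open Polynomial IntermediateField

namespace Pool.Agent.Lib.MP_7ab245_nt.SQ

/-- the Mahler measure of `X ^ m - a` -/
lemma iff_mahler_X_pow_sub_C (a : ℂ) {m : ℕ} (hm : 0 < m) :
    ((X : ℂ[X]) ^ m - C a).mahlerMeasure = max 1 ‖a‖ := by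
  have hmon : ((X : ℂ[X]) ^ m - C a).Monic := monic_X_pow_sub_C a hm.ne'
  have hcard : Multiset.card ((X : ℂ[X]) ^ m - C a).roots = m := by
    rw [(IsAlgClosed.splits _).natDegree_eq_card_roots.symm, natDegree_X_pow_sub_C]
  have hroot : ∀ b ∈ ((X : ℂ[X]) ^ m - C a).roots, ‖b‖ ^ m = ‖a‖ := by
    intro b hb
    have h1 := (mem_roots'.mp hb).2
    rw [IsRoot, eval_sub, eval_pow, eval_X, eval_C, sub_eq_zero] at h1
    rw [← norm_pow, h1]
  obtain ⟨r, hr0, hr⟩ : ∃ r : ℝ, 0 ≤ r ∧ r ^ m = ‖a‖ :=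
    ⟨‖a‖ ^ ((m : ℝ)⁻¹), by positivity, Real.rpow_inv_natCast_pow (norm_nonneg a) hm.ne'⟩
  have hroot' : ∀ b ∈ ((X : ℂ[X]) ^ m - C a).roots, max 1 ‖b‖ = max 1 r := by
    intro b hb
    rw [(pow_left_inj₀ (norm_nonneg b) hr0 hm.ne').mp ((hroot b hb).trans hr.symm)]
  rw [mahlerMeasure_eq_leadingCoeff_mul_prod_roots, hmon.leadingCoeff, norm_one, one_mul,
    Multiset.map_congr rfl hroot', Multiset.map_const', Multiset.prod_replicate, hcard, ← hr]
  rcases le_total 1 r with h | h
  · rw [max_eq_right h, max_eq_right (one_le_pow₀ h)]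
  · rw [max_eq_left h, one_pow, max_eq_left (pow_le_one₀ hr0 h)]

lemma iff_mahler_multiset (s : Multiset ℂ) {m : ℕ} (hm : 0 < m) :
    (s.map fun a => (X : ℂ[X]) ^ m - C a).prod.mahlerMeasure = (s.map fun a => max 1 ‖a‖).prod := by
  induction s using Multiset.induction_on with
  | empty => simp
  | cons a s ih =>
    rw [Multiset.map_cons, Multiset.prod_cons, mahlerMeasure_mul, ih, Multiset.map_cons,
      Multiset.prod_cons, iff_mahler_X_pow_sub_C a hm]

/-- `M(f(X^m)) = M(f)` -/
lemma iff_mahler_expand (f : ℂ[X]) {m : ℕ} (hm : 0 < m) :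
    (expand ℂ m f).mahlerMeasure = f.mahlerMeasure := by
  have h1 : f = C f.leadingCoeff * (f.roots.map fun a => X - C a).prod :=
    (IsAlgClosed.splits f).eq_prod_roots
  have h2 : expand ℂ m f = C f.leadingCoeff * (f.roots.map fun a => (X : ℂ[X]) ^ m - C a).prod := by
    conv_lhs => rw [h1]
    rw [map_mul, expand_C, map_multiset_prod, Multiset.map_map]
    congr 2
    apply Multiset.map_congr rfl
    intro a _
    simp
  rw [h2, mahlerMeasure_mul, iff_mahler_multiset _ hm, mahlerMeasure_const,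
    mahlerMeasure_eq_leadingCoeff_mul_prod_roots]

/-- Northcott: the Mahler measures greater than one of the integer polynomials of bounded degree are
bounded away from one. -/
lemma iff_gap (d : ℕ) : ∃ δ : ℝ, 1 < δ ∧ ∀ g : ℤ[X], g.natDegree ≤ d →
    1 < (g.map (Int.castRingHom ℂ)).mahlerMeasure → δ ≤ (g.map (Int.castRingHom ℂ)).mahlerMeasure := by
  have hfin := finite_mahlerMeasure_le d 2
  set S : Set ℤ[X] := {p : ℤ[X] | p.natDegree ≤ d ∧
    (p.map (Int.castRingHom ℂ)).mahlerMeasure ≤ ((2 : NNReal) : ℝ)} with hS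
  set T : Set ℤ[X] := S ∩ {p | 1 < (p.map (Int.castRingHom ℂ)).mahlerMeasure} with hT
  have hTfin : T.Finite := hfin.subset Set.inter_subset_left
  by_cases hne : T.Nonempty
  · obtain ⟨a, ha, hmin⟩ := Set.exists_min_image T
      (fun p : ℤ[X] => (p.map (Int.castRingHom ℂ)).mahlerMeasure) hTfin hne
    refine ⟨(a.map (Int.castRingHom ℂ)).mahlerMeasure, ha.2, fun g hg hM => ?_⟩
    by_cases h2 : (g.map (Int.castRingHom ℂ)).mahlerMeasure ≤ ((2 : NNReal) : ℝ)
    · exact hmin g ⟨⟨hg, h2⟩, hM⟩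
    · exact (ha.1.2.trans (not_le.mp h2).le)
  · refine ⟨2, one_lt_two, fun g hg hM => ?_⟩
    by_contra h2
    apply hne
    exact ⟨g, ⟨hg, by push_cast; exact (not_le.mp h2).le⟩, hM⟩

/-- If a root `α` of `f` is a `q`-th power in `ℚ(α)`, then `M(f)` is a `q`-th power of the Mahler
measure of an integer polynomial of no larger degree. -/
lemma iff_pow_root {f : ℤ[X]} (hmon : f.Monic) (hirr : Irreducible f) {α : ℂ}
    (hα : aeval α f = 0) {q : ℕ} (hq : 0 < q) (b : ℚ⟮α⟯) (hb : (b : ℂ) ^ q = α) :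
    ∃ g : ℤ[X], g.natDegree ≤ f.natDegree ∧
      (g.map (Int.castRingHom ℂ)).mahlerMeasure ^ q = (f.map (Int.castRingHom ℂ)).mahlerMeasure := by
  -- `f` over `ℚ` is the minimal polynomial of `α`
  have hfQirr : Irreducible (f.map (algebraMap ℤ ℚ)) :=
    (hmon.irreducible_iff_irreducible_map_fraction_map (K := ℚ)).mp hirr
  have hαint : IsIntegral ℤ α := ⟨f, hmon, by rwa [aeval_def] at hα⟩
  have hαQ : aeval α (f.map (algebraMap ℤ ℚ)) = 0 := by rwa [aeval_map_algebraMap]
  have hmin : f.map (algebraMap ℤ ℚ) = minpoly ℚ α :=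
    minpoly.eq_of_irreducible_of_monic hfQirr hαQ (hmon.map _)
  have hαintQ : IsIntegral ℚ α := hαint.tower_top
  -- `b` is a polynomial in `α`
  obtain ⟨h, hh⟩ : ∃ h : ℚ[X], aeval α h = (b : ℂ) := by
    have h1 : (b : ℂ) ∈ ℚ⟮α⟯.toSubalgebra := b.2
    rw [adjoin_simple_toSubalgebra_of_isAlgebraic hαintQ.isAlgebraic,
      Algebra.adjoin_singleton_eq_range_aeval] at h1
    obtain ⟨h, hh⟩ := h1
    exact ⟨h, hh⟩
  have hbint : IsIntegral ℤ (b : ℂ) := IsIntegral.of_pow hq (by rw [hb]; exact hαint)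
  set g : ℤ[X] := minpoly ℤ (b : ℂ) with hg
  have hgmon : g.Monic := minpoly.monic hbint
  have hgQ : minpoly ℚ (b : ℂ) = g.map (algebraMap ℤ ℚ) :=
    minpoly.isIntegrallyClosed_eq_field_fractions' ℚ hbint
  have : FiniteDimensional ℚ ℚ⟮α⟯ := adjoin.finiteDimensional hαintQ
  have hdeg : g.natDegree ≤ f.natDegree := by
    have h1 : (minpoly ℚ b).natDegree ≤ Module.finrank ℚ ℚ⟮α⟯ := minpoly.natDegree_le b
    have h2 : minpoly ℚ (b : ℂ) = minpoly ℚ b :=
      minpoly.algebraMap_eq (algebraMap ℚ⟮α⟯ ℂ).injective b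
    rw [adjoin.finrank hαintQ, ← hmin, hmon.natDegree_map, ← h2, hgQ, hgmon.natDegree_map] at h1
    exact h1
  -- all roots
  set fC : ℂ[X] := f.map (Int.castRingHom ℂ) with hfC
  set gC : ℂ[X] := g.map (Int.castRingHom ℂ) with hgC
  have hfCmon : fC.Monic := hmon.map _
  have hgCmon : gC.Monic := hgmon.map _
  have hfCQ : fC = (f.map (algebraMap ℤ ℚ)).map (algebraMap ℚ ℂ) := by
    rw [Polynomial.map_map]; rfl
  have hroot : ∀ a ∈ fC.roots, (aeval a h) ^ q = a ∧ aeval (aeval a h) g = 0 := by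
    intro a ha
    have ha0 : aeval a (minpoly ℚ α) = 0 := by
      rw [← hmin, aeval_map_algebraMap]
      have := (mem_roots'.mp ha).2
      rw [IsRoot, hfC, eval_map] at this
      rw [aeval_def]
      exact this
    constructor
    · have h1 : minpoly ℚ α ∣ h ^ q - X := by
        apply minpoly.dvd
        rw [map_sub, map_pow, aeval_X, hh, hb, sub_self]
      obtain ⟨c, hc⟩ := h1
      have h2 := congrArg (aeval a) hc
      rw [map_mul, ha0, zero_mul, map_sub, map_pow, aeval_X, sub_eq_zero] at h2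
      exact h2
    · have h1 : minpoly ℚ α ∣ (g.map (algebraMap ℤ ℚ)).comp h := by
        apply minpoly.dvd
        rw [aeval_comp, hh, ← hgQ]
        exact minpoly.aeval ℚ (b : ℂ)
      obtain ⟨c, hc⟩ := h1
      have h2 := congrArg (aeval a) hc
      rw [map_mul, ha0, zero_mul, aeval_comp, aeval_map_algebraMap] at h2
      exact h2
  have hnodup : fC.roots.Nodup := by
    rw [hfCQ]
    exact nodup_roots (hfQirr.separable.map)
  set s : Multiset ℂ := fC.roots.map (fun a => aeval a h) with hs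
  have hsnodup : s.Nodup := by
    apply Multiset.Nodup.map_on _ hnodup
    intro x hx y hy hxy
    rw [← (hroot x hx).1, ← (hroot y hy).1, hxy]
  have hsle : s ≤ gC.roots := by
    rw [Multiset.le_iff_subset hsnodup]
    intro c hc
    obtain ⟨a, ha, rfl⟩ := Multiset.mem_map.mp hc
    rw [mem_roots']
    refine ⟨hgCmon.ne_zero, ?_⟩
    have h1 := (hroot a ha).2
    rw [aeval_def] at h1
    rw [IsRoot, hgC, eval_map]
    exact h1
  have hseq : s = gC.roots := by
    apply Multiset.eq_of_le_of_card_le hsle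
    have h1 : Multiset.card s = f.natDegree := by
      rw [hs, Multiset.card_map, ← (IsAlgClosed.splits fC).natDegree_eq_card_roots, hfC,
        hmon.natDegree_map]
    have h2 : Multiset.card gC.roots ≤ g.natDegree := by
      rw [← (IsAlgClosed.splits gC).natDegree_eq_card_roots, hgC, hgmon.natDegree_map]
    omega
  refine ⟨g, hdeg, ?_⟩
  change gC.mahlerMeasure ^ q = fC.mahlerMeasure
  rw [mahlerMeasure_eq_leadingCoeff_mul_prod_roots, mahlerMeasure_eq_leadingCoeff_mul_prod_roots,
    hgCmon.leadingCoeff, hfCmon.leadingCoeff, norm_one, one_mul, one_mul, ← hseq, hs,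
    Multiset.map_map, ← Multiset.prod_map_pow]
  congr 1
  apply Multiset.map_congr rfl
  intro a ha
  simp only [Function.comp]
  have h1 : ‖a‖ = ‖aeval a h‖ ^ q := by rw [← norm_pow, (hroot a ha).1]
  rw [h1]
  rcases le_total 1 ‖aeval a h‖ with h2 | h2
  · rw [max_eq_right h2, max_eq_right (one_le_pow₀ h2)]
  · rw [max_eq_left h2, one_pow, max_eq_left (pow_le_one₀ (norm_nonneg _) h2)]

/-- `f(X^q)` is irreducible if `f` is and no root `α` of `f` is a `q`-th power in `ℚ(α)`. -/
lemma iff_irreducible_expand {f : ℤ[X]} (hmon : f.Monic) (hirr : Irreducible f)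
    {q : ℕ} (hq : q.Prime)
    (hpow : ∀ α : ℂ, aeval α f = 0 → ∀ b : ℚ⟮α⟯, (b : ℂ) ^ q ≠ α) :
    Irreducible (expand ℤ q f) := by
  have hfQirr : Irreducible (f.map (algebraMap ℤ ℚ)) :=
    (hmon.irreducible_iff_irreducible_map_fraction_map (K := ℚ)).mp hirr
  have hFmon : (expand ℤ q f).Monic := hmon.expand hq.pos
  rw [hFmon.irreducible_iff_irreducible_map_fraction_map (K := ℚ)]
  set F : ℚ[X] := (expand ℤ q f).map (algebraMap ℤ ℚ) with hF
  have hFmonQ : F.Monic := hFmon.map _
  have hFdeg : F.natDegree = f.natDegree * q := by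
    rw [hF, hFmon.natDegree_map, natDegree_expand]
  have hd0 : 0 < f.natDegree := by
    have := hfQirr.natDegree_pos
    rwa [hmon.natDegree_map] at this
  have hnu : ¬ IsUnit F := by
    intro hu
    have := natDegree_eq_zero_of_isUnit hu
    rw [hFdeg] at this
    have := Nat.mul_pos hd0 hq.pos
    omega
  obtain ⟨r, hr, hrF⟩ := WfDvdMonoid.exists_irreducible_factor hnu hFmonQ.ne_zero
  -- a root of `r`
  obtain ⟨γ, hγ⟩ : ∃ γ : ℂ, aeval γ r = 0 := by
    have h1 : (r.map (algebraMap ℚ ℂ)).degree ≠ 0 := by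
      rw [degree_map]
      exact (degree_pos_of_irreducible hr).ne'
    obtain ⟨γ, hγ⟩ := IsAlgClosed.exists_root _ h1
    refine ⟨γ, ?_⟩
    rw [IsRoot, eval_map] at hγ
    rwa [aeval_def]
  have hγF : aeval γ F = 0 := by
    obtain ⟨c, hc⟩ := hrF
    rw [hc, map_mul, hγ, zero_mul]
  set α : ℂ := γ ^ q with hαdef
  have hα : aeval α f = 0 := by
    rw [hF, aeval_map_algebraMap, expand_aeval] at hγF
    exact hγF
  have hαint : IsIntegral ℤ α := ⟨f, hmon, by rwa [aeval_def] at hα⟩
  have hαQ : aeval α (f.map (algebraMap ℤ ℚ)) = 0 := by rwa [aeval_map_algebraMap]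
  have hmin : f.map (algebraMap ℤ ℚ) = minpoly ℚ α :=
    minpoly.eq_of_irreducible_of_monic hfQirr hαQ (hmon.map _)
  have hαintQ : IsIntegral ℚ α := hαint.tower_top
  have hγint : IsIntegral ℚ γ := IsIntegral.of_pow hq.pos hαintQ
  -- degree of `γ` over `ℚ(α)`
  have hK : Irreducible ((X : ℚ⟮α⟯[X]) ^ q - C (AdjoinSimple.gen ℚ α)) := by
    apply X_pow_sub_C_irreducible_of_prime hq
    intro b hb
    apply hpow α hα b
    have := congrArg (fun x : ℚ⟮α⟯ => (x : ℂ)) hb
    simpa using this
  have hγK : IsIntegral ℚ⟮α⟯ γ := hγint.tower_top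
  have hminK : (X : ℚ⟮α⟯[X]) ^ q - C (AdjoinSimple.gen ℚ α) = minpoly ℚ⟮α⟯ γ := by
    apply minpoly.eq_of_irreducible_of_monic hK
    · rw [map_sub, map_pow, aeval_X, aeval_C]
      have : algebraMap ℚ⟮α⟯ ℂ (AdjoinSimple.gen ℚ α) = α := AdjoinSimple.algebraMap_gen ℚ α
      rw [this, hαdef, sub_self]
    · exact monic_X_pow_sub_C _ hq.ne_zero
  have : FiniteDimensional ℚ ℚ⟮α⟯ := adjoin.finiteDimensional hαintQ
  have : FiniteDimensional ℚ⟮α⟯ ℚ⟮α⟯⟮γ⟯ := adjoin.finiteDimensional hγK
  have : FiniteDimensional ℚ ℚ⟮γ⟯ := adjoin.finiteDimensional hγint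
  have hfin1 : Module.finrank ℚ⟮α⟯ ℚ⟮α⟯⟮γ⟯ = q := by
    rw [adjoin.finrank hγK, ← hminK, natDegree_X_pow_sub_C]
  have hfin2 : Module.finrank ℚ ℚ⟮α⟯ = f.natDegree := by
    rw [adjoin.finrank hαintQ, ← hmin, hmon.natDegree_map]
  have hfin3 : Module.finrank ℚ (ℚ⟮α⟯⟮γ⟯.restrictScalars ℚ) = f.natDegree * q := by
    rw [← hfin2, ← hfin1]
    exact (Module.finrank_mul_finrank ℚ ℚ⟮α⟯ ℚ⟮α⟯⟮γ⟯).symm
  have hle : ℚ⟮α⟯⟮γ⟯.restrictScalars ℚ ≤ ℚ⟮γ⟯ := by
    refine (IntermediateField.adjoin_simple_adjoin_simple ℚ α γ).le.trans ?_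
    rw [adjoin_le_iff]
    intro x hx
    rcases hx with rfl | rfl
    · exact pow_mem (mem_adjoin_simple_self ℚ γ) q
    · exact mem_adjoin_simple_self ℚ _
  have hfin4 : f.natDegree * q ≤ Module.finrank ℚ ℚ⟮γ⟯ := by
    rw [← hfin3]
    exact LinearMap.finrank_le_finrank_of_injective (f := (IntermediateField.inclusion hle).toLinearMap)
      (IntermediateField.inclusion hle).injective
  rw [adjoin.finrank hγint] at hfin4
  -- hence `r` has full degree
  have hrdeg : (minpoly ℚ γ).natDegree ≤ r.natDegree :=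
    natDegree_le_of_dvd (minpoly.dvd ℚ γ hγ) hr.ne_zero
  have hle2 : F.natDegree ≤ r.natDegree := by rw [hFdeg]; omega
  exact (associated_of_dvd_of_natDegree_le hrF hFmonQ.ne_zero hle2).irreducible hr

/-- the number of coefficients not divisible by `p` does not change -/
lemma iff_card_support {R : Type*} [CommSemiring R] (f : R[X]) {m : ℕ} (hm : 0 < m) :
    (expand R m f).support.card ≤ f.support.card := by
  classical
  have h1 : (expand R m f).support ⊆ f.support.image (fun i => i * m) := by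
    intro i hi
    rw [mem_support_iff, coeff_expand hm] at hi
    split_ifs at hi with h2
    · refine Finset.mem_image.mpr ⟨i / m, mem_support_iff.mpr hi, Nat.div_mul_cancel h2⟩
    · exact absurd rfl hi
  exact (Finset.card_le_card h1).trans Finset.card_image_le

/-- a lower bound for all irreducible polynomials gives one for all polynomials -/
lemma iff_reduce {μ : ℝ}
    (h : ∀ f : ℤ[X], Irreducible f → 1 < (f.map (Int.castRingHom ℂ)).mahlerMeasure →
      μ ≤ (f.map (Int.castRingHom ℂ)).mahlerMeasure) (f : ℤ[X])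
    (hf : 1 < (f.map (Int.castRingHom ℂ)).mahlerMeasure) :
    μ ≤ (f.map (Int.castRingHom ℂ)).mahlerMeasure := by
  have hf0 : f ≠ 0 := by
    rintro rfl
    simp at hf
    linarith
  revert hf
  induction f using WfDvdMonoid.induction_on_irreducible with
  | zero => exact absurd rfl hf0
  | unit u hu =>
    intro hf
    exfalso
    obtain ⟨c, hc, rfl⟩ := Polynomial.isUnit_iff.mp hu
    rw [map_C, mahlerMeasure_const] at hf
    rcases Int.isUnit_iff.mp hc with rfl | rfl <;> simp at hf
  | mul a i ha hi ih =>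
    intro hf
    rw [Polynomial.map_mul, mahlerMeasure_mul] at hf ⊢
    have h1 : 1 ≤ (a.map (Int.castRingHom ℂ)).mahlerMeasure := one_le_mahlerMeasure_of_ne_zero ha
    have h2 : 1 ≤ (i.map (Int.castRingHom ℂ)).mahlerMeasure := one_le_mahlerMeasure_of_ne_zero hi.ne_zero
    rcases h2.lt_or_eq with h3 | h3
    · have h4 := h i hi h3
      nlinarith
    · rcases h1.lt_or_eq with h5 | h5
      · have h4 := ih ha h5
        nlinarith
      · rw [← h3, ← h5] at hf
        norm_num at hf

/-- For EVERY function `w` tending to infinity and every prime `p`: Lehmer's conjecture is equivalent to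
its restriction to the irreducible polynomials of degree `n` with at most `w n` coefficients prime to `p`. -/
theorem q1_iff_sparse {p : ℕ} (w : ℕ → ℕ) (hw : Filter.Tendsto w Filter.atTop Filter.atTop) :
    (∃ μ : ℝ, 1 < μ ∧ ∀ f : ℤ[X], 1 < (f.map (Int.castRingHom ℂ)).mahlerMeasure →
      μ ≤ (f.map (Int.castRingHom ℂ)).mahlerMeasure) ↔
    ∃ μ : ℝ, 1 < μ ∧ ∀ f : ℤ[X], Irreducible f → 1 < (f.map (Int.castRingHom ℂ)).mahlerMeasure →
      (f.map (Int.castRingHom (ZMod p))).support.card ≤ w f.natDegree →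
        μ ≤ (f.map (Int.castRingHom ℂ)).mahlerMeasure := by
  constructor
  · rintro ⟨μ, h1, h2⟩
    exact ⟨μ, h1, fun f _ hf _ => h2 f hf⟩
  · rintro ⟨μ, h1, h2⟩
    refine ⟨min μ 2, lt_min h1 one_lt_two, iff_reduce ?_⟩
    -- monic case
    have key : ∀ f : ℤ[X], f.Monic → Irreducible f → 1 < (f.map (Int.castRingHom ℂ)).mahlerMeasure →
        min μ 2 ≤ (f.map (Int.castRingHom ℂ)).mahlerMeasure := by
      intro f hmon hirr hM
      by_cases hM2 : 2 ≤ (f.map (Int.castRingHom ℂ)).mahlerMeasure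
      · exact (min_le_right _ _).trans hM2
      rw [not_le] at hM2
      have hd0 : 0 < f.natDegree := by
        rcases Nat.eq_zero_or_pos f.natDegree with h0 | h0
        · exfalso
          have : f = 1 := hmon.natDegree_eq_zero.mp h0
          rw [this] at hM
          simp at hM
        · exact h0
      obtain ⟨δ, hδ1, hδ⟩ := iff_gap f.natDegree
      obtain ⟨q₀, hq₀⟩ : ∃ q₀ : ℕ, (2 : ℝ) < δ ^ q₀ := pow_unbounded_of_one_lt 2 hδ1
      have h3 : Filter.Tendsto (fun q : ℕ => w (f.natDegree * q)) Filter.atTop Filter.atTop :=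
        hw.comp (Filter.tendsto_id.const_mul_atTop' hd0)
      obtain ⟨q₁, hq₁⟩ := Filter.eventually_atTop.mp
        (h3.eventually_ge_atTop (f.map (Int.castRingHom (ZMod p))).support.card)
      obtain ⟨q, hqge, hq⟩ := Nat.exists_infinite_primes (max q₀ q₁)
      have hexp : Irreducible (expand ℤ q f) := by
        apply iff_irreducible_expand hmon hirr hq
        intro α hα b hb
        obtain ⟨g, hg1, hg2⟩ := iff_pow_root hmon hirr hα hq.pos b hb
        have hg0 : 0 ≤ (g.map (Int.castRingHom ℂ)).mahlerMeasure := mahlerMeasure_nonneg _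
        have hg3 : 1 < (g.map (Int.castRingHom ℂ)).mahlerMeasure := by
          by_contra hcon
          have := pow_le_one₀ (n := q) hg0 (not_lt.mp hcon)
          linarith
        have hg4 := hδ g hg1 hg3
        have h5 : δ ^ q₀ ≤ (g.map (Int.castRingHom ℂ)).mahlerMeasure ^ q :=
          (pow_le_pow_right₀ hδ1.le ((le_max_left _ _).trans hqge)).trans
            (pow_le_pow_left₀ (by linarith) hg4 q)
        linarith
      have hmap : (expand ℤ q f).map (Int.castRingHom ℂ) = expand ℂ q (f.map (Int.castRingHom ℂ)) :=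
        map_expand
      have hMe : ((expand ℤ q f).map (Int.castRingHom ℂ)).mahlerMeasure =
          (f.map (Int.castRingHom ℂ)).mahlerMeasure := by
        rw [hmap, iff_mahler_expand _ hq.pos]
      rw [← hMe]
      refine (min_le_left _ _).trans (h2 _ hexp (by rw [hMe]; exact hM) ?_)
      have hmap2 : (expand ℤ q f).map (Int.castRingHom (ZMod p)) =
          expand (ZMod p) q (f.map (Int.castRingHom (ZMod p))) := map_expand
      rw [hmap2, natDegree_expand]
      exact (iff_card_support _ hq.pos).trans (hq₁ q ((le_max_right _ _).trans hqge))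
    -- general irreducible polynomials
    intro f hirr hM
    have hf0 : f ≠ 0 := hirr.ne_zero
    have hlc : ‖((f.leadingCoeff : ℤ) : ℂ)‖ ≤ (f.map (Int.castRingHom ℂ)).mahlerMeasure := by
      have h3 := leadingCoeff_le_mahlerMeasure (f.map (Int.castRingHom ℂ))
      rw [leadingCoeff_map_of_injective (RingHom.injective_int _)] at h3
      simpa using h3
    have hlc0 : f.leadingCoeff ≠ 0 := leadingCoeff_ne_zero.mpr hf0
    have hcases : 2 ≤ |f.leadingCoeff| ∨ f.leadingCoeff = 1 ∨ f.leadingCoeff = -1 := by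
      have : 0 < |f.leadingCoeff| := abs_pos.mpr hlc0
      rcases abs_cases f.leadingCoeff with h4 | h4 <;> omega
    rcases hcases with h4 | h4 | h4
    · refine (min_le_right _ _).trans (le_trans ?_ hlc)
      rw [Complex.norm_intCast]
      exact_mod_cast h4
    · exact key f h4 hirr hM
    · have h5 : (-f).Monic := by rw [Monic, leadingCoeff_neg, h4]; norm_num
      have h6 : (((-f).map (Int.castRingHom ℂ))).mahlerMeasure =
          (f.map (Int.castRingHom ℂ)).mahlerMeasure := by
        have h8 : (-f).map (Int.castRingHom ℂ) = C (-1) * f.map (Int.castRingHom ℂ) := by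
          rw [Polynomial.map_neg, map_neg, C_1, neg_one_mul]
        rw [h8, mahlerMeasure_mul, mahlerMeasure_const, norm_neg, norm_one, one_mul]
      have h7 := key (-f) h5 ((Associated.neg_left (Associated.refl f)).symm.irreducible hirr)
        (by rw [h6]; exact hM)
      rwa [h6] at h7

end Pool.Agent.Lib.MP_7ab245_nt.SQ
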