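import Mathlib
import Pool.Agent.Lib.MP_7ab245_nt.Few.Bad2

/-! Definitions for the theorem on polynomials which are sparse modulo a prime (SQ). -/

set_option autoImplicit false

open Polynomial

namespace Pool.Agent.Lib.MP_7ab245_nt.SQ

open Pool.Agent.Lib.MP_7ab245_nt.Few

/-- The value at `z` of a polynomial over `ZMod p`, in a ring of characteristic `p`. -/
noncomputable def ev {A : Type} [CommRing A] (p : ℕ) [CharP A p] (z : A) (H : (ZMod p)[X]) : A :=
  H.eval₂ (ZMod.castHom (dvd_refl p) A) z

/-- The terms of `H` with exponent divisible by `q`. -/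
noncomputable def classPart {p : ℕ} (q : ℕ) (H : (ZMod p)[X]) : (ZMod p)[X] :=
  ∑ e ∈ H.support.filter (fun e => q ∣ e), monomial e (H.coeff e)

/-- The span of `U` and of the vectors `u q (s q)`, `q ∈ A`. -/
def spanU {K E Q : Type} [Field K] [AddCommGroup E] [Module K E] {T : Q → Type}
    (u : ∀ q, T q → E) (A : Finset Q) (U : Submodule K E) (s : ∀ q, T q) : Submodule K E :=
  U ⊔ Submodule.span K ((fun q => u q (s q)) '' (A : Set Q))

/-- The arithmetic data: a domain `R` inside `QQ` with the action of a finite group `G`, a root `α` of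
`f` in `R` whose conjugates are all the roots of `f`, primitive roots of unity `ζ q` for the primes
`q ∈ PP`, on which `G` acts through a surjective character, and a ring homomorphism `ρ` from `R` to a
local ring `A` of characteristic `p` (in the application `A` is `R` localised at a prime above `p`,
modulo `p`). -/
structure Setup (f : ℤ[X]) (p : ℕ) [Fact p.Prime] (PP : Finset ℕ) where
  R : Type
  [cR : CommRing R]
  G : Type
  [gG : Group G]
  [fG : Fintype G]
  [act : MulSemiringAction G R]
  A : Type
  [cA : CommRing A]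
  [lA : IsLocalRing A]
  [chA : CharP A p]
  j : R →+* QQ
  j_inj : Function.Injective j
  ρ : R →+* A
  ρ_ker : ∀ x, ρ x = 0 → ∃ s y : R, IsUnit (ρ s) ∧ s * x = (p : R) * y
  ζ : ℕ → R
  ζ_prim : ∀ q ∈ PP, IsPrimitiveRoot (ζ q) q
  χ : G →* (∀ q : PP, (ZMod (q : ℕ))ˣ)
  χ_surj : Function.Surjective χ
  χ_spec : ∀ g (q : PP), g • ζ q = ζ q ^ ((χ g q : ZMod (q : ℕ)).val)
  α : R
  α_root : aeval α f = 0
  α_trans : ∀ x : QQ, aeval x f = 0 → ∃ g : G, j (g • α) = x

attribute [instance] Setup.cR Setup.gG Setup.fG Setup.act Setup.cA Setup.lA Setup.chA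

end Pool.Agent.Lib.MP_7ab245_nt.SQ
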