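import Mathlib
import Pool.Agent.Lib.MP_7ab245_nt.SQ.Defs

/-! Module SQ-BadElt. A bad prime gives an element of `G`; a unit.

PROOF of `exists_elt`. There are roots `x, y ∈ QQ` of `f` with `x ^ D ≠ y ^ D`,
`(x ^ D) ^ q = (y ^ D) ^ q`. By `α_trans`, `x = j (g₁ • α)`, `y = j (g₂ • α)`. Let `g = g₁⁻¹ * g₂`:
`(g • α) ^ D ≠ α ^ D`, `((g • α) ^ D) ^ q = (α ^ D) ^ q` in `R` (`j` injective, then act by `g₁⁻¹`:
`smul_pow'`, `smul_smul`). `j α ≠ 0` because `f.coeff 0 ≠ 0` and `α` is a root. In the field `QQ` the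
quotient `j ((g • α) ^ D) / j (α ^ D)` is a `q`-th root of unity, so it is `j (ζ q) ^ c` with `c < q`
(`IsPrimitiveRoot.eq_pow_of_pow_eq_one`, `j (ζ q)` is primitive: `IsPrimitiveRoot.map_of_injective`), and
`c ≠ 0` because it is not `1`. Apply injectivity of `j` to `j ((g • α) ^ D) = j (ζ q ^ c * α ^ D)`.

PROOF of `isUnit_zeta`. `ω = ζ q ^ c` is a primitive `q`-th root of unity (`q` prime, `0 < c < q`:
`IsPrimitiveRoot.pow_of_coprime`) in `R`, which is a domain of characteristic `0` since `j` is injective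
into a field (one may do the sums in `QQ` and pull back). `∑ i ∈ range q, ω ^ i = 0`
(`IsPrimitiveRoot.geom_sum_eq_zero`, needs a domain) so `q = ∑ i ∈ range q, (1 - ω ^ i)` and `ω - 1` divides
every `1 - ω ^ i` (`sub_one_dvd_pow_sub_one`-type, `(Commute..).. sub_dvd_pow_sub_pow`): `ω - 1 ∣ q` in `R`.
Apply `ρ`: `ρ ω - 1` divides `(q : A)`, a unit since `A` has characteristic `p ≠ q` (`q` prime; image of
the unit `(q : ZMod p)`, or Bezout `a p + b q = 1`). `isUnit_of_dvd_unit`. -/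

set_option autoImplicit false

open Polynomial

namespace Pool.Agent.Lib.MP_7ab245_nt.SQ

open Pool.Agent.Lib.MP_7ab245_nt.Few

private theorem j_alpha_ne (f : ℤ[X]) (hf0 : |f.coeff 0| = 1) (p : ℕ) [Fact p.Prime] (PP : Finset ℕ)
    (S : Setup f p PP) : S.j S.α ≠ 0 := by
  intro h
  have h1 : aeval (S.j S.α) f = 0 := by
    have h2 : aeval (S.j S.α) f = S.j (aeval S.α f) := by
      rw [aeval_def, aeval_def, hom_eval₂]
      congr 1
      exact RingHom.ext_int _ _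
    rw [h2, S.α_root, map_zero]
  have h3 : f.coeff 0 = 0 := by
    rw [h, aeval_def, eval₂_at_zero] at h1
    simpa using h1
  rw [h3] at hf0
  simp at hf0

theorem exists_elt (f : ℤ[X]) (hf0 : |f.coeff 0| = 1) (p : ℕ) [Fact p.Prime] (PP : Finset ℕ)
    (hPP : ∀ q ∈ PP, q.Prime) (S : Setup f p PP) (D q : ℕ) (hq : q ∈ PP) (hbad : BadPrime f D q) :
    ∃ (g : S.G) (c : ℕ), 0 < c ∧ c < q ∧ (g • S.α) ^ D = S.ζ q ^ c * S.α ^ D := by
  obtain ⟨x, y, hx, hy, hne, heq⟩ := hbad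
  obtain ⟨g1, rfl⟩ := S.α_trans x hx
  obtain ⟨g2, rfl⟩ := S.α_trans y hy
  have hα := j_alpha_ne f hf0 p PP S
  have hprim := S.ζ_prim q hq
  have hqp := hPP q hq
  have : NeZero q := ⟨hqp.ne_zero⟩
  have hne' : (g1 • S.α) ^ D ≠ (g2 • S.α) ^ D := by
    intro h
    exact hne (by rw [← map_pow, ← map_pow, h])
  have heq' : ((g1 • S.α) ^ D) ^ q = ((g2 • S.α) ^ D) ^ q := by
    apply S.j_inj
    simpa only [map_pow] using heq
  have hne2 : S.α ^ D ≠ ((g1⁻¹ * g2) • S.α) ^ D := by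
    intro h
    apply hne'
    have := congrArg (fun z => g1 • z) h
    simpa [smul_pow', smul_smul] using this
  have heq2 : (S.α ^ D) ^ q = (((g1⁻¹ * g2) • S.α) ^ D) ^ q := by
    have := congrArg (fun z => g1⁻¹ • z) heq'
    simpa [smul_pow', smul_smul] using this
  set β : S.R := ((g1⁻¹ * g2) • S.α) ^ D with hβ
  have hjα : S.j (S.α ^ D) ≠ 0 := by
    rw [map_pow]; exact pow_ne_zero _ hα
  have hpr : IsPrimitiveRoot (S.j (S.ζ q)) q := hprim.map_of_injective S.j_inj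
  have hroot : (S.j β / S.j (S.α ^ D)) ^ q = 1 := by
    rw [div_pow, ← map_pow, ← map_pow, ← heq2]
    apply div_self
    rw [map_pow]
    exact pow_ne_zero _ hjα
  obtain ⟨c, hc, hc2⟩ := hpr.eq_pow_of_pow_eq_one hroot
  refine ⟨g1⁻¹ * g2, c, ?_, hc, ?_⟩
  · rcases Nat.eq_zero_or_pos c with h0 | h0
    · exfalso
      rw [h0, pow_zero] at hc2
      apply hne2
      apply S.j_inj
      have := (div_eq_one_iff_eq hjα).1 hc2.symm
      exact this.symm
    · exact h0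
  · apply S.j_inj
    rw [map_mul, map_pow S.j (S.ζ q) c, hc2]
    rw [div_mul_cancel₀ _ hjα]

theorem isUnit_zeta (f : ℤ[X]) (p : ℕ) [Fact p.Prime] (PP : Finset ℕ)
    (hPP : ∀ q ∈ PP, q.Prime) (S : Setup f p PP) (q : ℕ) (hq : q ∈ PP) (hqp : q ≠ p) (c : ℕ)
    (hc0 : 0 < c) (hc : c < q) : IsUnit (S.ρ (S.ζ q) ^ c - 1) := by
  have hprim := S.ζ_prim q hq
  have hqpr := hPP q hq
  have : IsDomain S.R := S.j_inj.isDomain S.j
  have hcop : c.Coprime q := by
    rw [Nat.coprime_comm]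
    exact (Nat.Prime.coprime_iff_not_dvd hqpr).2 (fun h => by
      have := Nat.le_of_dvd hc0 h
      omega)
  have hω : IsPrimitiveRoot (S.ζ q ^ c) q := hprim.pow_of_coprime c hcop
  have hsum := hω.geom_sum_eq_zero hqpr.one_lt
  have hdvd : S.ζ q ^ c - 1 ∣ (q : S.R) := by
    have h1 : (q : S.R) = ∑ i ∈ Finset.range q, (1 - (S.ζ q ^ c) ^ i) := by
      rw [Finset.sum_sub_distrib, hsum]
      simp
    rw [h1]
    apply Finset.dvd_sum
    intro i _
    have h2 : S.ζ q ^ c - 1 ∣ (S.ζ q ^ c) ^ i - 1 ^ i := sub_dvd_pow_sub_pow _ _ _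
    rw [one_pow] at h2
    have h4 : 1 - (S.ζ q ^ c) ^ i = -((S.ζ q ^ c) ^ i - 1) := by ring
    rw [h4, dvd_neg]
    exact h2
  have hdvd2 : S.ρ (S.ζ q) ^ c - 1 ∣ (q : S.A) := by
    have := map_dvd S.ρ hdvd
    simpa using this
  refine isUnit_of_dvd_unit hdvd2 ?_
  have hcop2 : IsCoprime (q : ℤ) (p : ℤ) := by
    rw [Nat.isCoprime_iff_coprime]
    exact (Nat.coprime_primes hqpr (Fact.out : p.Prime)).2 hqp
  obtain ⟨a, b, hab⟩ := hcop2
  have h3 : (a : S.A) * (q : S.A) + (b : S.A) * (p : S.A) = 1 := by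
    have := congrArg (fun z : ℤ => (z : S.A)) hab
    push_cast at this
    exact this
  rw [CharP.cast_eq_zero S.A p, mul_zero, add_zero] at h3
  exact IsUnit.of_mul_eq_one_right _ h3

end Pool.Agent.Lib.MP_7ab245_nt.SQ
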