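import Mathlib

/-! Module SQ-Choice. Choice of the subspace `W`.

PROOF. Among the subspaces `W ∋ u0` with `N ⊤ * (1 - 1/k) ^ (k - finrank W) ≤ N W` (`⊤` is one, because
`0 ≤ 1 - 1/k ≤ 1` and `0 ≤ N ⊤`) choose one with `finrank W` minimal (`Nat.find` on finrank, or
`Set.exists_min_image`/`WellFounded.min`). If `u0 ∈ U < W`, then `finrank U < finrank W`
(`Submodule.finrank_lt_finrank_of_lt`), so by minimality
`N U < N ⊤ * (1 - 1/k) ^ (k - finrank U) ≤ (1 - 1/k) * (N ⊤ * (1 - 1/k) ^ (k - finrank W)) ≤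
(1 - 1/k) * N W` (exponents: `k - finrank U ≥ (k - finrank W) + 1` as `finrank W ≤ k`). And
`(1 - 1/k) ^ (k - finrank W) ≥ (1 - 1/k) ^ k ≥ 1/4` for `k ≥ 2`: with `k = l + 1`,
`(1 - 1/k) ^ k = (l / (l + 1)) ^ (l + 1)`; `(1 + 1/l) ^ (l + 1) ≤ 4` for `l ≥ 1` (decreasing in `l`), or:
`log (1 - 1/k) ≥ - (1/k) / (1 - 1/k) = -1/(k-1)` gives only `k/(k-1) ≤ 2`, i.e. `exp (-2) < 1/4`; so prove
`(1 - 1/k) ^ k ≥ 1/4` by: for even `k`, `(1 - 1/k) ^ k = ((1 - 1/k) ^ (k/2)) ^ 2 ≥ (1/2) ^ 2` by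
Bernoulli; in general `(1 - 1/k) ^ k ≥ 1/4` follows from real Bernoulli `one_add_mul_self_le_rpow_one_add`
with exponent `k/2 ≥ 1`: `(1 - 1/k) ^ (k/2) ≥ 1 - 1/2`. -/

set_option autoImplicit false

open Module

namespace Pool.Agent.Lib.MP_7ab245_nt.SQ

private theorem quarter (k : ℕ) (hk : 2 ≤ k) : (1 / 4 : ℝ) ≤ (1 - 1 / (k : ℝ)) ^ k := by
  have hk' : (2 : ℝ) ≤ k := by exact_mod_cast hk
  have hk0 : (0 : ℝ) < k := by linarith
  have hinv : 1 / (k : ℝ) ≤ 1 / 2 := one_div_le_one_div_of_le (by norm_num) hk'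
  have hqpos : (0 : ℝ) < 1 - 1 / (k : ℝ) := by linarith
  have h1 := one_add_mul_self_le_rpow_one_add (s := -(1 / (k : ℝ))) (by linarith)
    (p := (k : ℝ) / 2) (by linarith)
  have h2 : 1 + (k : ℝ) / 2 * -(1 / (k : ℝ)) = 1 / 2 := by
    field_simp
    ring
  have h3 : (1 : ℝ) + -(1 / (k : ℝ)) = 1 - 1 / k := by ring
  rw [h2, h3] at h1
  have h4 : (1 - 1 / (k : ℝ)) ^ k =
      (1 - 1 / (k : ℝ)) ^ ((k : ℝ) / 2) * (1 - 1 / (k : ℝ)) ^ ((k : ℝ) / 2) := by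
    rw [← Real.rpow_add hqpos, ← Real.rpow_natCast]
    congr 1
    ring
  rw [h4]
  nlinarith

theorem choice {K E : Type} [Field K] [AddCommGroup E] [Module K E] [FiniteDimensional K E]
    (u0 : E) (k : ℕ) (hk : 2 ≤ k) (hE : finrank K E ≤ k) (N : Submodule K E → ℝ)
    (hN : ∀ U, 0 ≤ N U) :
    ∃ W : Submodule K E, u0 ∈ W ∧ N ⊤ ≤ 4 * N W ∧
      ∀ U : Submodule K E, u0 ∈ U → U < W → (k : ℝ) * N U ≤ (k - 1) * N W := by
  classical
  have hk' : (2 : ℝ) ≤ k := by exact_mod_cast hk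
  have hk0 : (0 : ℝ) < k := by linarith
  have hinv : 1 / (k : ℝ) ≤ 1 / 2 := one_div_le_one_div_of_le (by norm_num) hk'
  have hinv0 : 0 < 1 / (k : ℝ) := by positivity
  obtain ⟨q, hq⟩ : ∃ q : ℝ, q = 1 - 1 / (k : ℝ) := ⟨_, rfl⟩
  have hq0 : 0 ≤ q := by linarith
  have hq1 : q ≤ 1 := by linarith
  have hP : ∃ n : ℕ, ∃ W : Submodule K E, u0 ∈ W ∧ finrank K W = n ∧
      N ⊤ * q ^ (k - n) ≤ N W := by
    refine ⟨finrank K (⊤ : Submodule K E), ⊤, Submodule.mem_top, rfl, ?_⟩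
    exact mul_le_of_le_one_right (hN ⊤) (pow_le_one₀ hq0 hq1)
  obtain ⟨W, hW1, hW2, hW3⟩ := Nat.find_spec hP
  have hWk : finrank K W ≤ k := (Submodule.finrank_le W).trans hE
  refine ⟨W, hW1, ?_, fun U hU hlt => ?_⟩
  · have h1 : (1 / 4 : ℝ) ≤ q ^ (k - Nat.find hP) := by
      refine (quarter k hk).trans ?_
      rw [← hq]
      exact pow_le_pow_of_le_one hq0 hq1 (Nat.sub_le _ _)
    have h2 := mul_le_mul_of_nonneg_left h1 (hN ⊤)
    linarith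
  · have h1 : finrank K U < finrank K W := Submodule.finrank_lt_finrank_of_lt hlt
    have h2 := Nat.find_min hP (m := finrank K U) (by rw [← hW2]; exact h1)
    have h3 : N U < N ⊤ * q ^ (k - finrank K U) := by
      by_contra hcon
      exact h2 ⟨U, hU, rfl, not_lt.1 hcon⟩
    have h4 : q ^ (k - finrank K U) ≤ q ^ (k - finrank K W + 1) :=
      pow_le_pow_of_le_one hq0 hq1 (by omega)
    have h5 : N ⊤ * q ^ (k - finrank K U) ≤ q * (N ⊤ * q ^ (k - finrank K W)) := by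
      have := mul_le_mul_of_nonneg_left h4 (hN ⊤)
      rw [pow_succ] at this
      linarith
    have h6 : q * (N ⊤ * q ^ (k - finrank K W)) ≤ q * N W := by
      refine mul_le_mul_of_nonneg_left ?_ hq0
      rw [hW2]
      exact hW3
    have h7 : N U ≤ q * N W := h3.le.trans (h5.trans h6)
    have h8 := mul_le_mul_of_nonneg_left h7 hk0.le
    have h9 : (k : ℝ) * (q * N W) = (k - 1) * N W := by
      rw [hq]
      field_simp
    linarith

end Pool.Agent.Lib.MP_7ab245_nt.SQ
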