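import Mathlib

/-! Module SQ-StepsA. Counting tuples with a prescribed coordinate.

PROOF. The map `(s, t') ↦ Function.update s q₀ t'` is a bijection from
`{s // s q₀ = t ∧ P s} × T q₀` onto `{s // P s}` with inverse `s ↦ (Function.update s q₀ t, s q₀)`
(`hP` shows that `P` is preserved). `Nat.card_prod`, `Nat.card_congr`. -/

set_option autoImplicit false

namespace Pool.Agent.Lib.MP_7ab245_nt.SQ

theorem card_coord {Q : Type} [DecidableEq Q] {T : Q → Type} (q₀ : Q) (P : (∀ q, T q) → Prop)
    (hP : ∀ (s : ∀ q, T q) (t : T q₀), P (Function.update s q₀ t) ↔ P s) (t : T q₀) :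
    Nat.card {s : ∀ q, T q // s q₀ = t ∧ P s} * Nat.card (T q₀) = Nat.card {s : ∀ q, T q // P s} := by
  rw [← Nat.card_prod]
  refine Nat.card_congr
    { toFun := fun x => ⟨Function.update x.1.1 q₀ x.2, (hP _ _).2 x.1.2.2⟩
      invFun := fun s => (⟨Function.update s.1 q₀ t, ?_, (hP _ _).2 s.2⟩, s.1 q₀)
      left_inv := ?_
      right_inv := ?_ }
  · simp
  · rintro ⟨⟨s, hs, hPs⟩, t'⟩
    refine Prod.ext ?_ ?_
    · apply Subtype.ext
      change Function.update (Function.update s q₀ t') q₀ t = s
      rw [Function.update_idem, ← hs, Function.update_eq_self]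
    · change Function.update s q₀ t' q₀ = t'
      simp
  · rintro ⟨s, hPs⟩
    apply Subtype.ext
    change Function.update (Function.update s q₀ t) q₀ (s q₀) = s
    rw [Function.update_idem, Function.update_eq_self]

end Pool.Agent.Lib.MP_7ab245_nt.SQ
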