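import Mathlib
import Pool.Agent.Lib.MP_7ab245_nt.SQ.Defs
import Pool.Agent.Lib.MP_7ab245_nt.SQ.StepsA

/-! Module SQ-Steps. A random choice of `s q ∈ T q` for all `q` makes `U + span {u q (s q) : q ∈ A}`
equal to `W`, except with small probability.

PROOF. Induction on `m`, for all `A`, `U`. `m = 0`: the left side is at most the number of all `s`,
and the right side is at least that (`1 ≤ 2 ^ _`). Step `m + 1`: if `U = W` then the set is empty
(`spanU u A U s = W` because all the vectors are in `W`). Otherwise `U < W`; by the hypothesis (for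
`U' = U`) there is `q₀ ∈ A` and `t` with `u q₀ t ∉ U`. Let `A' = A.erase q₀` and for `t : T q₀` let
`U_t = U ⊔ span {u q₀ t} ≤ W`. If `s q₀ = t` then `spanU u A U s = spanU u A' U_t s`. The condition
`spanU u A' U_t s ≠ W` does not depend on the coordinate `q₀` of `s`; hence
`#{s | s q₀ = t ∧ spanU u A U s ≠ W} * card (T q₀) = #{s | spanU u A' U_t s ≠ W}` (`card_coord`). The induction hypothesis for `A'`, `U_t`, `m` applies (for `U_t ≤ U' < W` the set for
`A'` has at least `m + 1 - 1` elements) and bounds the right side by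
`2 ^ (dim W - dim U_t) * r ^ m * N`, `r = 1 - 1/(2k)`, `N = card (∀ q, T q)`; here
`dim U_t = dim U + 1` if `u q₀ t ∉ U` and `U_t = U` otherwise. Let `c = dim W - dim U ≥ 1`, `a` the
number of `t` with `u q₀ t ∉ U`, `n = card (T q₀)`, `n ≤ k a` by `hP`. Summing over `t`:
`#{s | spanU u A U s ≠ W} * n ≤ (a * 2 ^ (c - 1) + (n - a) * 2 ^ c) * r ^ m * N
  = 2 ^ c * (n - a / 2) * r ^ m * N ≤ 2 ^ c * n * (1 - 1/(2k)) * r ^ m * N`. Divide by `n > 0`. -/

set_option autoImplicit false

open Module

namespace Pool.Agent.Lib.MP_7ab245_nt.SQ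

private theorem card_filter_aux {Q : Type} (A : Finset Q) (P : Q → Prop) [DecidablePred P] :
    Nat.card {q : Q // q ∈ A ∧ P q} = (A.filter P).card := by
  rw [← Fintype.card_coe, ← Nat.card_eq_fintype_card]
  exact Nat.card_congr (Equiv.subtypeEquivRight (fun q => by simp))

theorem steps {K E Q : Type} [Field K] [AddCommGroup E] [Module K E] [FiniteDimensional K E]
    [Finite Q] {T : Q → Type} [∀ q, Finite (T q)] [∀ q, Nonempty (T q)]
    (u : ∀ q, T q → E) (u0 : E) (k : ℕ) (hk : 1 ≤ k)
    (hP : ∀ (q : Q) (U : Submodule K E), u0 ∈ U → (∃ t, u q t ∉ U) →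
      Nat.card (T q) ≤ k * Nat.card {t : T q // u q t ∉ U})
    (W : Submodule K E) :
    ∀ (m : ℕ) (A : Finset Q) (U : Submodule K E), u0 ∈ U → U ≤ W → (∀ q ∈ A, ∀ t, u q t ∈ W) →
      (∀ U' : Submodule K E, U ≤ U' → U' < W → m ≤ Nat.card {q : Q // q ∈ A ∧ ∃ t, u q t ∉ U'}) →
      (Nat.card {s : ∀ q, T q // spanU u A U s ≠ W} : ℝ) ≤
        2 ^ (finrank K W - finrank K U) * (1 - 1 / (2 * (k : ℝ))) ^ m * Nat.card (∀ q, T q) := by
  classical
  have hk1 : (1 : ℝ) ≤ k := by exact_mod_cast hk
  have hr0 : (0 : ℝ) ≤ 1 - 1 / (2 * (k : ℝ)) := by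
    rw [sub_nonneg, div_le_one (by linarith)]
    linarith
  intro m
  induction m with
  | zero =>
    intro A U h0 hUW hA _
    have h1 : (Nat.card {s : ∀ q, T q // spanU u A U s ≠ W} : ℝ) ≤ Nat.card (∀ q, T q) := by
      exact_mod_cast Nat.card_le_card_of_injective _ Subtype.val_injective
    have h2 : (1 : ℝ) ≤ 2 ^ (finrank K W - finrank K U) := one_le_pow₀ (by norm_num)
    rw [pow_zero, mul_one]
    calc (Nat.card {s : ∀ q, T q // spanU u A U s ≠ W} : ℝ) ≤ 1 * Nat.card (∀ q, T q) := by
          rw [one_mul]; exact h1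
      _ ≤ 2 ^ (finrank K W - finrank K U) * Nat.card (∀ q, T q) :=
          mul_le_mul_of_nonneg_right h2 (Nat.cast_nonneg _)
  | succ m ih =>
    intro A U h0 hUW hA hcount
    by_cases hUeq : U = W
    · have hall : ∀ s : ∀ q, T q, spanU u A U s = W := by
        intro s
        unfold spanU
        rw [hUeq]
        refine sup_eq_left.2 (Submodule.span_le.2 ?_)
        rintro _ ⟨q, hq, rfl⟩
        exact hA q hq _
      have hemp : IsEmpty {s : ∀ q, T q // spanU u A U s ≠ W} := ⟨fun s => s.2 (hall s.1)⟩
      rw [Nat.card_of_isEmpty]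
      have h3 : (0 : ℝ) ≤ (1 - 1 / (2 * (k : ℝ))) ^ (m + 1) := pow_nonneg hr0 _
      rw [Nat.cast_zero]
      positivity
    · have hlt : U < W := lt_of_le_of_ne hUW hUeq
      have h1 := hcount U le_rfl hlt
      obtain ⟨⟨q₀, hq₀, t₀, ht₀⟩⟩ : Nonempty {q : Q // q ∈ A ∧ ∃ t, u q t ∉ U} := by
        by_contra h
        rw [not_nonempty_iff] at h
        rw [Nat.card_of_isEmpty] at h1
        omega
      have hfin : Fintype (T q₀) := Fintype.ofFinite _
      let Ut : T q₀ → Submodule K E := fun t => U ⊔ Submodule.span K {u q₀ t}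
      have hspan : ∀ s : ∀ q, T q, spanU u A U s = spanU u (A.erase q₀) (Ut (s q₀)) s := by
        intro s
        unfold spanU
        have h2 : ((fun q => u q (s q)) '' (A : Set Q)) =
            insert (u q₀ (s q₀)) ((fun q => u q (s q)) '' ((A.erase q₀ : Finset Q) : Set Q)) := by
          have h3 : (A : Set Q) = insert q₀ ((A.erase q₀ : Finset Q) : Set Q) := by
            rw [← Finset.coe_insert, Finset.insert_erase hq₀]
          rw [h3, Set.image_insert_eq]
        rw [h2, Submodule.span_insert, ← sup_assoc]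
      have hcard : ∀ t : T q₀,
          Nat.card {s : ∀ q, T q // s q₀ = t ∧ spanU u (A.erase q₀) (Ut t) s ≠ W} *
            Nat.card (T q₀) = Nat.card {s : ∀ q, T q // spanU u (A.erase q₀) (Ut t) s ≠ W} := by
        intro t
        refine card_coord q₀ (fun s => spanU u (A.erase q₀) (Ut t) s ≠ W) ?_ t
        intro s t'
        have h2 : spanU u (A.erase q₀) (Ut t) (Function.update s q₀ t') =
            spanU u (A.erase q₀) (Ut t) s := by
          unfold spanU
          congr 2
          refine Set.image_congr ?_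
          intro q hq
          have hne : q ≠ q₀ := Finset.ne_of_mem_erase hq
          rw [Function.update_of_ne hne]
        rw [h2]
      have hsum : Nat.card {s : ∀ q, T q // spanU u A U s ≠ W} =
          ∑ t : T q₀, Nat.card {s : ∀ q, T q // s q₀ = t ∧ spanU u (A.erase q₀) (Ut t) s ≠ W} := by
        rw [← Nat.card_sigma]
        refine Nat.card_congr
          { toFun := fun s => ⟨s.1 q₀, s.1, rfl, by rw [← hspan]; exact s.2⟩
            invFun := fun x => ⟨x.2.1, by rw [hspan, x.2.2.1]; exact x.2.2.2⟩
            left_inv := fun s => rfl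
            right_inv := ?_ }
        rintro ⟨t, s, hs, hs'⟩
        subst hs
        rfl
      have hIH : ∀ t : T q₀, (Nat.card {s : ∀ q, T q // spanU u (A.erase q₀) (Ut t) s ≠ W} : ℝ) ≤
          2 ^ (finrank K W - finrank K (Ut t)) * (1 - 1 / (2 * (k : ℝ))) ^ m *
            Nat.card (∀ q, T q) := by
        intro t
        refine ih (A.erase q₀) (Ut t) (Submodule.mem_sup_left h0) ?_ ?_ ?_
        · refine sup_le hUW ?_
          rw [Submodule.span_singleton_le_iff_mem]
          exact hA q₀ hq₀ t
        · intro q hq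
          exact hA q (Finset.mem_of_mem_erase hq)
        · intro U' hU' hU'W
          have h2 := hcount U' (le_sup_left.trans hU') hU'W
          rw [card_filter_aux] at h2 ⊢
          have h3 : ((A.erase q₀).filter (fun q => ∃ t, u q t ∉ U')) =
              (A.filter (fun q => ∃ t, u q t ∉ U')).erase q₀ := by
            ext q
            simp only [Finset.mem_filter, Finset.mem_erase]
            tauto
          rw [h3]
          have h4 := Finset.pred_card_le_card_erase (s := A.filter (fun q => ∃ t, u q t ∉ U'))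
            (a := q₀)
          omega
      set N : ℝ := (Nat.card (∀ q, T q) : ℝ) with hN
      set r : ℝ := 1 - 1 / (2 * (k : ℝ)) with hr
      set c : ℕ := finrank K W - finrank K U with hc
      have hNn : (0 : ℝ) ≤ N := by rw [hN]; exact Nat.cast_nonneg _
      have hterm : ∀ t : T q₀,
          (Nat.card {s : ∀ q, T q // spanU u (A.erase q₀) (Ut t) s ≠ W} : ℝ) ≤
            (1 - (if u q₀ t ∉ U then (1 : ℝ) / 2 else 0)) * (2 ^ c * r ^ m * N) := by
        intro t
        refine (hIH t).trans ?_
        have hnn : 0 ≤ r ^ m * N := mul_nonneg (pow_nonneg hr0 _) hNn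
        by_cases ht : u q₀ t ∉ U
        · rw [if_pos ht]
          have h2 : U < Ut t := by
            refine lt_of_le_of_ne le_sup_left ?_
            intro heq
            apply ht
            rw [heq]
            exact Submodule.mem_sup_right (Submodule.mem_span_singleton_self _)
          have h3 : finrank K U < finrank K (Ut t) := Submodule.finrank_lt_finrank_of_lt h2
          have h4 : finrank K U < finrank K W := Submodule.finrank_lt_finrank_of_lt hlt
          have h5 : finrank K (Ut t) ≤ finrank K W := by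
            refine Submodule.finrank_mono ?_
            refine sup_le hUW ?_
            rw [Submodule.span_singleton_le_iff_mem]
            exact hA q₀ hq₀ t
          have h6 : (2 : ℝ) ^ (finrank K W - finrank K (Ut t)) * 2 ≤ 2 ^ c := by
            rw [← pow_succ]
            exact pow_le_pow_right₀ (by norm_num) (by omega)
          nlinarith
        · rw [if_neg ht]
          have h2 : Ut t = U := by
            refine sup_eq_left.2 ?_
            rw [Submodule.span_singleton_le_iff_mem]
            exact not_not.1 ht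
          rw [h2, sub_zero, one_mul]
      have hn0 : 0 < Nat.card (T q₀) := Nat.card_pos
      have hn0' : (0 : ℝ) < (Nat.card (T q₀) : ℝ) := by exact_mod_cast hn0
      have htot : (Nat.card {s : ∀ q, T q // spanU u A U s ≠ W} : ℝ) * (Nat.card (T q₀) : ℝ) ≤
          ((Nat.card (T q₀) : ℝ) - (Nat.card {t : T q₀ // u q₀ t ∉ U} : ℝ) / 2) *
            (2 ^ c * r ^ m * N) := by
        rw [hsum, Nat.cast_sum, Finset.sum_mul]
        calc ∑ t : T q₀, (Nat.card {s : ∀ q, T q // s q₀ = t ∧
              spanU u (A.erase q₀) (Ut t) s ≠ W} : ℝ) * (Nat.card (T q₀) : ℝ)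
            ≤ ∑ t : T q₀, (1 - (if u q₀ t ∉ U then (1 : ℝ) / 2 else 0)) * (2 ^ c * r ^ m * N) := by
              refine Finset.sum_le_sum ?_
              intro t _
              have h2 := hterm t
              rw [← hcard t, Nat.cast_mul] at h2
              exact h2
          _ = ((Nat.card (T q₀) : ℝ) - (Nat.card {t : T q₀ // u q₀ t ∉ U} : ℝ) / 2) *
            (2 ^ c * r ^ m * N) := by
              rw [← Finset.sum_mul, Finset.sum_sub_distrib]
              congr 2
              · simp
              · rw [← Finset.sum_filter, Finset.sum_const, Nat.card_eq_fintype_card,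
                  Fintype.card_subtype, nsmul_eq_mul]
                ring
      have ha := hP q₀ U h0 ⟨t₀, ht₀⟩
      have ha' : (Nat.card (T q₀) : ℝ) ≤ k * (Nat.card {t : T q₀ // u q₀ t ∉ U} : ℝ) := by
        exact_mod_cast ha
      have hX : 0 ≤ 2 ^ c * r ^ m * N :=
        mul_nonneg (mul_nonneg (by positivity) (pow_nonneg hr0 _)) hNn
      have hfinal : (Nat.card (T q₀) : ℝ) - (Nat.card {t : T q₀ // u q₀ t ∉ U} : ℝ) / 2 ≤
          (Nat.card (T q₀) : ℝ) * r := by
        have h2 : (Nat.card (T q₀) : ℝ) / k ≤ (Nat.card {t : T q₀ // u q₀ t ∉ U} : ℝ) := by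
          rw [div_le_iff₀ (by linarith)]
          linarith
        have h3 : (Nat.card (T q₀) : ℝ) * r =
            (Nat.card (T q₀) : ℝ) - ((Nat.card (T q₀) : ℝ) / k) / 2 := by
          rw [hr]
          field_simp
        rw [h3]
        linarith
      have h7 : (Nat.card {s : ∀ q, T q // spanU u A U s ≠ W} : ℝ) * (Nat.card (T q₀) : ℝ) ≤
          (2 ^ c * r ^ (m + 1) * N) * (Nat.card (T q₀) : ℝ) := by
        refine htot.trans ?_
        calc ((Nat.card (T q₀) : ℝ) - (Nat.card {t : T q₀ // u q₀ t ∉ U} : ℝ) / 2) *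
            (2 ^ c * r ^ m * N) ≤ ((Nat.card (T q₀) : ℝ) * r) * (2 ^ c * r ^ m * N) :=
              mul_le_mul_of_nonneg_right hfinal hX
          _ = (2 ^ c * r ^ (m + 1) * N) * (Nat.card (T q₀) : ℝ) := by
              rw [pow_succ]; ring
      exact le_of_mul_le_mul_right h7 hn0'

end Pool.Agent.Lib.MP_7ab245_nt.SQ
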