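import Mathlib

/-! Module SQ-Uncert. An uncertainty principle: a function on `ℤ/q` with at most `k` frequencies, not
identically zero, is nonzero in at least `q / k` points.

PROOF of `uncert0`. Put `Φ t = ∑ i, c i * ζ ^ (t * e i)`, periodic mod `q`. Suppose `k * |N₀| < q`,
`N₀ = {t ∈ range q | Φ t ≠ 0}`. Count pairs `(a, i)`, `a < q`, `i < k`, with `Φ (a + i) ≠ 0`: for each
`i` there are `|N₀|` values `a` (shift mod `q`), so fewer than `q` pairs; hence some `a < q` has
`Φ (a + i) = 0` for all `i < k`. Put `ψ i = c i * ζ ^ (a * e i)`, `x i = ζ ^ e i`, and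
`Λ P = ∑ i, ψ i * P.eval (x i)` for `P ∈ K[X]`. `Λ (X ^ l) = Φ (a + l) = 0` for `l < k`, so `Λ P = 0`
if `natDegree P < k`. With `P₀ = ∏ x ∈ image x, (X - C x)`, of degree `≤ card ι ≤ k`, monic and zero at
all `x i`, and `P %ₘ P₀` of degree `< k` (if `P₀` has degree 0 then `ι` is empty and all is trivial),
`Λ P = Λ (P %ₘ P₀) = 0` for every `P`. Taking `P = X ^ l` with `a + l ≡ t0 mod q` gives `Φ t0 = 0`.

PROOF of `uncert`. Since `u t0 ∉ U` there is a linear functional `c` on `ι → K`, zero on `U`, with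
`c (u t0) ≠ 0` (`Submodule.exists_le_ker_of_notMem`; a functional on `ι → K` is
`v ↦ ∑ i, c i * v i`). Apply `uncert0`: at least `q / k` values `t < q` with `Φ t ≠ 0`. `t = 0` is not
one of them because `u 0 = 1 ∈ U`. The others are residues of units: `t ↦ ZMod.unitOfCoprime`. So
`q ≤ k * #{t : (ZMod q)ˣ | u t ∉ U}`. -/

set_option autoImplicit false

namespace Pool.Agent.Lib.MP_7ab245_nt.SQ

open Polynomial in
private theorem uncert_poly {K ι : Type} [Field K] [Fintype ι] (ψ x : ι → K) (k : ℕ)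
    (hk : Fintype.card ι ≤ k) (hne : Nonempty ι)
    (h0 : ∀ l < k, ∑ i, ψ i * x i ^ l = 0) (P : K[X]) : ∑ i, ψ i * P.eval (x i) = 0 := by
  classical
  have hlow : ∀ Q : K[X], Q.natDegree < k → ∑ i, ψ i * Q.eval (x i) = 0 := by
    intro Q hQ
    have h1 : ∀ i, ψ i * Q.eval (x i) = ∑ l ∈ Finset.range k, Q.coeff l * (ψ i * x i ^ l) := by
      intro i
      rw [Polynomial.eval_eq_sum_range' hQ, Finset.mul_sum]
      refine Finset.sum_congr rfl fun l _ => ?_
      ring
    calc ∑ i, ψ i * Q.eval (x i)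
        = ∑ i, ∑ l ∈ Finset.range k, Q.coeff l * (ψ i * x i ^ l) :=
          Finset.sum_congr rfl fun i _ => h1 i
      _ = ∑ l ∈ Finset.range k, ∑ i, Q.coeff l * (ψ i * x i ^ l) := Finset.sum_comm
      _ = ∑ l ∈ Finset.range k, Q.coeff l * ∑ i, ψ i * x i ^ l :=
          Finset.sum_congr rfl fun l _ => (Finset.mul_sum _ _ _).symm
      _ = 0 := by
          refine Finset.sum_eq_zero fun l hl => ?_
          rw [h0 l (Finset.mem_range.mp hl), mul_zero]
  set P0 : K[X] := ∏ z ∈ Finset.univ.image x, (X - C z) with hP0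
  have hmon : P0.Monic := Polynomial.monic_prod_of_monic _ _ fun z _ => Polynomial.monic_X_sub_C z
  have hdeg : P0.natDegree = (Finset.univ.image x).card := by
    rw [hP0, Polynomial.natDegree_prod_of_monic _ _ fun z _ => Polynomial.monic_X_sub_C z]
    simp
  have hroot : ∀ i, P0.eval (x i) = 0 := by
    intro i
    rw [hP0, Polynomial.eval_prod]
    refine Finset.prod_eq_zero (Finset.mem_image_of_mem x (Finset.mem_univ i)) ?_
    simp
  have hcard : P0.natDegree ≤ k := by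
    rw [hdeg]
    refine le_trans Finset.card_image_le ?_
    rwa [Finset.card_univ]
  have hne1 : P0 ≠ 1 := by
    intro h
    obtain ⟨i⟩ := hne
    have h2 := hroot i
    rw [h, Polynomial.eval_one] at h2
    exact one_ne_zero h2
  have hlt : (P %ₘ P0).natDegree < k :=
    lt_of_lt_of_le (Polynomial.natDegree_modByMonic_lt P hmon hne1) hcard
  have h3 := hlow _ hlt
  rw [← h3]
  refine Finset.sum_congr rfl fun i _ => ?_
  have h4 : P.eval (x i) = (P %ₘ P0).eval (x i) := by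
    conv_lhs => rw [← Polynomial.modByMonic_add_div P P0]
    rw [Polynomial.eval_add, Polynomial.eval_mul, hroot i, zero_mul, add_zero]
  rw [h4]

private theorem uncert_period {K ι : Type} [Field K] [Fintype ι] (q : ℕ) (ζ : K)
    (hζ : ζ ^ q = 1) (e : ι → ℕ) (c : ι → K) (s t : ℕ) (hst : s % q = t % q) :
    ∑ i, c i * ζ ^ (s * e i) = ∑ i, c i * ζ ^ (t * e i) := by
  have key : ∀ s : ℕ, ∀ n : ℕ, ζ ^ (s * n) = ζ ^ ((s % q) * n) := by
    intro s n
    conv_lhs => rw [← Nat.div_add_mod s q]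
    rw [add_mul, pow_add, mul_assoc, pow_mul, hζ, one_pow, one_mul]
  refine Finset.sum_congr rfl fun i _ => ?_
  rw [key s, key t, hst]

theorem uncert0 {K ι : Type} [Field K] [Fintype ι] (q : ℕ) (hq : q.Prime) (ζ : K)
    (hζ : IsPrimitiveRoot ζ q) (e : ι → ℕ) (k : ℕ) (hk : Fintype.card ι ≤ k) (c : ι → K) (t0 : ℕ)
    (ht0 : ∑ i, c i * ζ ^ (t0 * e i) ≠ 0) :
    q ≤ k * Nat.card {t : Fin q // ∑ i, c i * ζ ^ ((t : ℕ) * e i) ≠ 0} := by
  classical
  by_contra hcon
  push Not at hcon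
  have hne : Nonempty ι := by
    by_contra hno
    rw [not_nonempty_iff] at hno
    exact ht0 (by simp)
  have hq1 : ζ ^ q = 1 := hζ.pow_eq_one
  have hqpos : 0 < q := hq.pos
  set N0 : Finset (Fin q) := Finset.univ.filter fun t : Fin q => ∑ i, c i * ζ ^ ((t : ℕ) * e i) ≠ 0
    with hN0
  have hcardN : Nat.card {t : Fin q // ∑ i, c i * ζ ^ ((t : ℕ) * e i) ≠ 0} = N0.card := by
    rw [Nat.card_eq_fintype_card, Fintype.card_subtype]
  rw [hcardN] at hcon
  have hS : ∀ l : ℕ, ((Finset.univ : Finset (Fin q)).filter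
      fun a : Fin q => ∑ i, c i * ζ ^ (((a : ℕ) + l) * e i) ≠ 0).card ≤ N0.card := by
    intro l
    refine Finset.card_le_card_of_injOn (fun a => ⟨((a : ℕ) + l) % q, Nat.mod_lt _ hqpos⟩) ?_ ?_
    · intro a ha
      have ha' := (Finset.mem_filter.mp (Finset.mem_coe.mp ha)).2
      refine Finset.mem_coe.mpr (Finset.mem_filter.mpr ⟨Finset.mem_univ _, ?_⟩)
      show ∑ i, c i * ζ ^ ((((a : ℕ) + l) % q) * e i) ≠ 0
      rwa [uncert_period q ζ hq1 e c (((a : ℕ) + l) % q) ((a : ℕ) + l) (Nat.mod_mod _ _)]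
    · intro a _ b _ hab
      have hab' : ((a : ℕ) + l) % q = ((b : ℕ) + l) % q := congrArg Fin.val hab
      have h5 : (a : ℕ) ≡ (b : ℕ) [MOD q] := Nat.ModEq.add_right_cancel' l hab'
      have h6 : (a : ℕ) % q = (b : ℕ) % q := h5
      rw [Nat.mod_eq_of_lt a.isLt, Nat.mod_eq_of_lt b.isLt] at h6
      exact Fin.ext h6
  have hex : ∃ a : Fin q, ∀ l < k, ∑ i, c i * ζ ^ (((a : ℕ) + l) * e i) = 0 := by
    by_contra hno
    push Not at hno
    have hsub : (Finset.univ : Finset (Fin q)) ⊆ (Finset.range k).biUnion fun l =>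
        (Finset.univ : Finset (Fin q)).filter
          fun a : Fin q => ∑ i, c i * ζ ^ (((a : ℕ) + l) * e i) ≠ 0 := by
      intro a _
      obtain ⟨l, hl, hl'⟩ := hno a
      exact Finset.mem_biUnion.mpr ⟨l, Finset.mem_range.mpr hl,
        Finset.mem_filter.mpr ⟨Finset.mem_univ _, hl'⟩⟩
    have h7 := Finset.card_le_card hsub
    have h8 := Finset.card_biUnion_le (s := Finset.range k) (t := fun l =>
        (Finset.univ : Finset (Fin q)).filter
          fun a : Fin q => ∑ i, c i * ζ ^ (((a : ℕ) + l) * e i) ≠ 0)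
    have h9 : ∑ l ∈ Finset.range k, ((Finset.univ : Finset (Fin q)).filter
          fun a : Fin q => ∑ i, c i * ζ ^ (((a : ℕ) + l) * e i) ≠ 0).card ≤ k * N0.card := by
      refine le_trans (Finset.sum_le_card_nsmul _ _ N0.card fun l _ => hS l) ?_
      rw [Finset.card_range, smul_eq_mul]
    rw [Finset.card_univ, Fintype.card_fin] at h7
    omega
  obtain ⟨a, ha⟩ := hex
  have h10 := uncert_poly (fun i => c i * ζ ^ ((a : ℕ) * e i)) (fun i => ζ ^ e i) k hk hne
    (fun l hl => by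
      rw [← ha l hl]
      refine Finset.sum_congr rfl fun i _ => ?_
      rw [add_mul, pow_add, ← pow_mul, mul_assoc, mul_comm (e i) l]) (Polynomial.X ^ (t0 + (q - a)))
  apply ht0
  rw [← h10]
  rw [uncert_period q ζ hq1 e c t0 ((a : ℕ) + (t0 + (q - a))) (by
    have : (a : ℕ) + (t0 + (q - a)) = t0 + q := by
      have := a.isLt
      omega
    rw [this, Nat.add_mod_right])]
  refine Finset.sum_congr rfl fun i _ => ?_
  rw [Polynomial.eval_pow, Polynomial.eval_X, add_mul, pow_add, ← pow_mul, mul_assoc,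
    mul_comm (e i) (t0 + (q - a))]

theorem uncert {K ι : Type} [Field K] [Fintype ι] (q : ℕ) (hq : q.Prime) (ζ : K)
    (hζ : IsPrimitiveRoot ζ q) (e : ι → ℕ) (k : ℕ) (hk : Fintype.card ι ≤ k)
    (U : Submodule K (ι → K)) (h1 : (fun _ => (1 : K)) ∈ U) (t0 : ℕ)
    (ht0 : (fun i => ζ ^ (t0 * e i)) ∉ U) :
    q ≤ k * Nat.card {t : (ZMod q)ˣ // (fun i => ζ ^ ((t : ZMod q).val * e i)) ∉ U} := by
  classical
  have : Fact q.Prime := ⟨hq⟩
  obtain ⟨f, hf, hU⟩ := Submodule.exists_le_ker_of_notMem ht0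
  have hfs : ∀ v : ι → K, f v = ∑ i, f (fun j => if i = j then 1 else 0) * v i := by
    intro v
    rw [LinearMap.pi_apply_eq_sum_univ f v]
    refine Finset.sum_congr rfl fun i _ => ?_
    rw [smul_eq_mul, mul_comm]
  have h2 := uncert0 q hq ζ hζ e k hk (fun i => f (fun j => if i = j then 1 else 0)) t0
    (by rw [← hfs]; exact hf)
  refine le_trans h2 (Nat.mul_le_mul_left k ?_)
  have hker : ∀ v ∈ U, f v = 0 := fun v hv => LinearMap.mem_ker.mp (hU hv)
  have hnz : ∀ t : Fin q, ∑ i, f (fun j => if i = j then 1 else 0) * ζ ^ ((t : ℕ) * e i) ≠ 0 →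
      (((t : ℕ) : ZMod q)) ≠ 0 := by
    intro t ht h3
    rw [ZMod.natCast_eq_zero_iff] at h3
    have h4 : (t : ℕ) = 0 := Nat.eq_zero_of_dvd_of_lt h3 t.isLt
    apply ht
    rw [h4, ← hfs (fun i => ζ ^ (0 * e i))]
    have h5 : (fun i => ζ ^ (0 * e i)) = fun _ : ι => (1 : K) := by
      funext i
      rw [zero_mul, pow_zero]
    rw [h5]
    exact hker _ h1
  refine Nat.card_le_card_of_injective
    (fun t : {t : Fin q // ∑ i, f (fun j => if i = j then 1 else 0) * ζ ^ ((t : ℕ) * e i) ≠ 0} =>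
      (⟨Units.mk0 (((t.1 : Fin q) : ℕ) : ZMod q) (hnz t.1 t.2), ?_⟩ :
        {t : (ZMod q)ˣ // (fun i => ζ ^ ((t : ZMod q).val * e i)) ∉ U})) ?_
  · intro hmem
    apply t.2
    have h6 := hker _ hmem
    rw [hfs] at h6
    refine Eq.trans (Finset.sum_congr rfl fun i _ => ?_) h6
    rw [Units.val_mk0, ZMod.val_natCast_of_lt t.1.isLt]
  · intro s t hst
    have h7 := congrArg (fun u : {t : (ZMod q)ˣ //
      (fun i => ζ ^ ((t : ZMod q).val * e i)) ∉ U} => ((u.1 : ZMod q)).val) hst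
    simp only [Units.val_mk0] at h7
    rw [ZMod.val_natCast_of_lt s.1.isLt, ZMod.val_natCast_of_lt t.1.isLt] at h7
    exact Subtype.ext (Fin.ext h7)

end Pool.Agent.Lib.MP_7ab245_nt.SQ
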