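import Mathlib
import Pool.Agent.Lib.MP_7ab245_nt.SQ.Defs
import Pool.Agent.Lib.MP_7ab245_nt.SQ.Uncert
import Pool.Agent.Lib.MP_7ab245_nt.SQ.Steps
import Pool.Agent.Lib.MP_7ab245_nt.SQ.Choice

/-! Module SQ-ExW. A subspace `W` which contains all vectors `(ζ q ^ (t * e i))_i` for some `q ∈ B` and
which is contained in the span of the vectors with random `t = s q`, except with small probability.

PROOF. `E = ι → K`, of dimension `card ι ≤ k`; `Q = B` (subtype), `T q = (ZMod q)ˣ` (finite, nonempty;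
`have : ∀ q : B, Fact (q : ℕ).Prime`), `u q t = (i ↦ ζ q ^ (t.val * e i))`, `u0 = (i ↦ 1)`. `hP` of `steps`
is `uncert` (`Nat.card (ZMod q)ˣ = q - 1 ≤ q`, `ZMod.card_units`/`Nat.totient_prime`).
 `choice` with `N U = #{q : B // ∀ t, u q t ∈ U}` (`N ⊤ = card B`) gives `W ∋ u0` with
`card B ≤ 4 * N W`, `k * N U ≤ (k - 1) * N W` for `u0 ∈ U < W`. Let `A₁ = {q : B | ∀ t, u q t ∈ W}` (a
Finset of `B`); it is nonempty since `card B > 0`. For `u0 ∈ U' < W` the set
`{q ∈ A₁ | ∃ t, u q t ∉ U'}` has `N W - N U' ≥ N W / k ≥ card B / (4k) ≥ m` elements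
(`{q | ∀ t, u q t ∈ U'} ⊆ A₁`). `steps` with `U = span {u0}` (`≤ W`; `finrank` differences are `≤ k`):
`#{s | spanU u A₁ (span {u0}) s ≠ W} ≤ 2 ^ k * r ^ m * card (∀ q, T q)`. If `spanU .. = W` then
`W ≤ span ({u0} ∪ range ..)`. Finally for `q ∈ A₁` and any `t : ℕ`: if `q ∣ t` then
`ζ q ^ (t * e i) = 1`, the vector is `u0 ∈ W`; otherwise `t` is congruent mod `q` to the `val` of a unit of
`ZMod q` and `ζ q ^ (t * e i)` depends only on `t` mod `q`. -/

set_option autoImplicit false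

namespace Pool.Agent.Lib.MP_7ab245_nt.SQ

open Module in
theorem exists_W {K ι : Type} [Field K] [Fintype ι] (B : Finset ℕ) (hB : ∀ q ∈ B, q.Prime)
    (ζ : ℕ → K) (hζ : ∀ q ∈ B, IsPrimitiveRoot (ζ q) q) (e : ι → ℕ) (k : ℕ) (hk2 : 2 ≤ k)
    (hk : Fintype.card ι ≤ k) (m : ℕ) (hm : 4 * k * m ≤ B.card) (hBne : B.Nonempty) :
    ∃ W : Submodule K (ι → K),
      (∃ q ∈ B, ∀ t : ℕ, (fun i => ζ q ^ (t * e i)) ∈ W) ∧
      (Nat.card {s : (∀ q : B, (ZMod (q : ℕ))ˣ) // ¬ W ≤ Submodule.span K ({fun _ => (1 : K)} ∪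
        Set.range (fun q : B => fun i => ζ q ^ ((s q : ZMod (q : ℕ)).val * e i)))} : ℝ) ≤
        2 ^ k * (1 - 1 / (2 * (k : ℝ))) ^ m * Nat.card (∀ q : B, (ZMod (q : ℕ))ˣ) := by
  classical
  have hfact : ∀ q : B, Fact (q : ℕ).Prime := fun q => ⟨hB q q.2⟩
  have hkpos : (0 : ℝ) < k := by exact_mod_cast (by omega : 0 < k)
  set T : B → Type := fun q => (ZMod (q : ℕ))ˣ with hT
  have hTfin : ∀ q, Finite (T q) := fun q => by
    rw [hT]; infer_instance
  have hTne : ∀ q, Nonempty (T q) := fun q => ⟨(1 : (ZMod (q : ℕ))ˣ)⟩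
  let u : ∀ q : B, T q → (ι → K) := fun q t i => ζ q ^ ((t : ZMod (q : ℕ)).val * e i)
  let u0 : ι → K := fun _ => 1
  have hE : finrank K (ι → K) ≤ k := by rw [Module.finrank_fintype_fun_eq_card]; exact hk
  have hP : ∀ (q : B) (U : Submodule K (ι → K)), u0 ∈ U → (∃ t, u q t ∉ U) →
      Nat.card (T q) ≤ k * Nat.card {t : T q // u q t ∉ U} := by
    rintro q U h0 ⟨t, ht⟩
    have h1 := uncert (q : ℕ) (hB q q.2) (ζ q) (hζ q q.2) e k hk U h0 ((t : ZMod (q : ℕ)).val) ht
    refine le_trans ?_ h1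
    have : Nat.card (T q) = Nat.totient (q : ℕ) := by
      rw [hT, Nat.card_eq_fintype_card, ZMod.card_units_eq_totient]
    rw [this]; exact Nat.totient_le _
  obtain ⟨W, hW0, hW4, hWU⟩ := choice (E := ι → K) u0 k hk2 hE
    (fun U => (Nat.card {q : B // ∀ t, u q t ∈ U} : ℝ)) (fun U => Nat.cast_nonneg _)
  set A₁ : Finset B := Finset.univ.filter (fun q => ∀ t, u q t ∈ W) with hA₁
  have hcardA : Nat.card {q : B // ∀ t, u q t ∈ W} = A₁.card := by
    rw [Nat.card_eq_fintype_card, Fintype.card_subtype]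
  have htop : (Nat.card {q : B // ∀ t, u q t ∈ (⊤ : Submodule K (ι → K))} : ℝ) = B.card := by
    rw [Nat.card_eq_fintype_card, Fintype.card_subtype]
    simp
  have hBpos : (0 : ℝ) < B.card := by exact_mod_cast hBne.card_pos
  have hWA : (B.card : ℝ) ≤ 4 * A₁.card := by
    have := hW4
    rw [htop, hcardA] at this
    exact this
  have hlow : ∀ U' : Submodule K (ι → K), Submodule.span K {u0} ≤ U' → U' < W →
      m ≤ Nat.card {q : B // q ∈ A₁ ∧ ∃ t, u q t ∉ U'} := by
    intro U' hU0 hU'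
    have h1 := hWU U' (hU0 (Submodule.mem_span_singleton_self u0)) hU'
    rw [hcardA] at h1
    have h2 : Nat.card {q : B // ∀ t, u q t ∈ U'} = (A₁.filter (fun q => ∀ t, u q t ∈ U')).card := by
      rw [Nat.card_eq_fintype_card, Fintype.card_subtype]
      congr 1
      ext q
      simp only [Finset.mem_filter, Finset.mem_univ, true_and, hA₁]
      constructor
      · intro h
        exact ⟨fun t => hU'.le (h t), h⟩
      · intro h
        exact h.2
    have h3 : Nat.card {q : B // q ∈ A₁ ∧ ∃ t, u q t ∉ U'} =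
        (A₁.filter (fun q => ¬ ∀ t, u q t ∈ U')).card := by
      rw [Nat.card_eq_fintype_card, Fintype.card_subtype]
      congr 1
      ext q
      simp only [Finset.mem_filter, Finset.mem_univ, true_and, not_forall]
    have h4 := Finset.card_filter_add_card_filter_not (s := A₁) (fun q => ∀ t, u q t ∈ U')
    rw [h2] at h1
    rw [h3]
    have h4' : ((A₁.filter (fun q => ∀ t, u q t ∈ U')).card : ℝ) +
        (A₁.filter (fun q => ¬ ∀ t, u q t ∈ U')).card = A₁.card := by exact_mod_cast h4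
    have h5 : (A₁.card : ℝ) ≤ k * (A₁.filter (fun q => ¬ ∀ t, u q t ∈ U')).card := by
      nlinarith
    have h6 : (4 * k * m : ℝ) ≤ B.card := by exact_mod_cast hm
    have h7 : (m : ℝ) ≤ (A₁.filter (fun q => ¬ ∀ t, u q t ∈ U')).card := by
      have : (4 * k : ℝ) * m ≤ (4 * k) * (A₁.filter (fun q => ¬ ∀ t, u q t ∈ U')).card := by
        nlinarith
      exact le_of_mul_le_mul_left this (by positivity)
    exact_mod_cast h7
  have hst := steps u u0 k (by omega) hP W m A₁ (Submodule.span K {u0})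
    (Submodule.mem_span_singleton_self u0)
    ((Submodule.span_singleton_le_iff_mem _ _).2 hW0)
    (fun q hq t => (Finset.mem_filter.1 hq).2 t) hlow
  refine ⟨W, ?_, ?_⟩
  · have hpos : 0 < A₁.card := by
      have : (0 : ℝ) < A₁.card := by linarith
      exact_mod_cast this
    obtain ⟨q, hq⟩ := Finset.card_pos.1 hpos
    have hq' := (Finset.mem_filter.1 hq).2
    refine ⟨q, q.2, fun t => ?_⟩
    have hz : ζ q ^ (q : ℕ) = 1 := (hζ q q.2).pow_eq_one
    by_cases hd : (q : ℕ) ∣ t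
    · have : (fun i => ζ q ^ (t * e i)) = u0 := by
        funext i
        obtain ⟨c, rfl⟩ := hd
        change ζ q ^ ((q : ℕ) * c * e i) = 1
        rw [mul_assoc, pow_mul, hz, one_pow]
      rw [this]; exact hW0
    · have hcop : Nat.Coprime t (q : ℕ) :=
        ((Nat.Prime.coprime_iff_not_dvd (hB q q.2)).2 hd).symm
      have h1 := hq' (ZMod.unitOfCoprime t hcop)
      have : (fun i => ζ q ^ (t * e i)) = u q (ZMod.unitOfCoprime t hcop) := by
        funext i
        change _ = ζ q ^ (((ZMod.unitOfCoprime t hcop : (ZMod (q : ℕ))ˣ) : ZMod (q : ℕ)).val * e i)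
        rw [ZMod.coe_unitOfCoprime, ZMod.val_natCast, pow_mul, pow_mul,
          ← pow_eq_pow_mod t hz]
      rw [this]; exact h1
  · have : Finite (∀ q : B, (ZMod (q : ℕ))ˣ) := by infer_instance
    have hle : Nat.card {s : (∀ q : B, (ZMod (q : ℕ))ˣ) // ¬ W ≤ Submodule.span K ({fun _ => (1 : K)} ∪
        Set.range (fun q : B => fun i => ζ q ^ ((s q : ZMod (q : ℕ)).val * e i)))} ≤
        Nat.card {s : ∀ q, T q // spanU u A₁ (Submodule.span K {u0}) s ≠ W} := by
      refine Nat.card_le_card_of_injective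
        (fun x => (⟨x.1, ?_⟩ : {s : ∀ q, T q // spanU u A₁ (Submodule.span K {u0}) s ≠ W})) ?_
      · intro heq
        apply x.2
        refine heq.ge.trans ?_
        unfold spanU
        refine sup_le (Submodule.span_mono ?_) (Submodule.span_mono ?_)
        · intro y hy
          exact Or.inl hy
        · rintro y ⟨q, -, rfl⟩
          exact Or.inr ⟨q, rfl⟩
      · intro x y hxy
        have := congrArg Subtype.val hxy
        exact Subtype.ext this
    have hle' : (Nat.card {s : (∀ q : B, (ZMod (q : ℕ))ˣ) // ¬ W ≤ Submodule.span K ({fun _ => (1 : K)} ∪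
        Set.range (fun q : B => fun i => ζ q ^ ((s q : ZMod (q : ℕ)).val * e i)))} : ℝ) ≤
        Nat.card {s : ∀ q, T q // spanU u A₁ (Submodule.span K {u0}) s ≠ W} := by exact_mod_cast hle
    refine hle'.trans (hst.trans ?_)
    have hr : (0 : ℝ) ≤ 1 - 1 / (2 * (k : ℝ)) := by
      have : 1 / (2 * (k : ℝ)) ≤ 1 := by
        rw [div_le_one (by positivity)]
        have : (1 : ℝ) ≤ k := by exact_mod_cast (by omega : 1 ≤ k)
        linarith
      linarith
    have hfr : finrank K W - finrank K (Submodule.span K {u0}) ≤ k :=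
      (Nat.sub_le _ _).trans ((Submodule.finrank_le W).trans hE)
    have h2 : (2 : ℝ) ^ (finrank K W - finrank K (Submodule.span K {u0})) ≤ 2 ^ k :=
      pow_le_pow_right₀ (by norm_num) hfr
    have h3 : (0 : ℝ) ≤ (1 - 1 / (2 * (k : ℝ))) ^ m := pow_nonneg hr m
    have h4 : (0 : ℝ) ≤ (Nat.card (∀ q, T q) : ℝ) := Nat.cast_nonneg _
    exact mul_le_mul_of_nonneg_right (mul_le_mul_of_nonneg_right h2 h3) h4

end Pool.Agent.Lib.MP_7ab245_nt.SQ
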