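import Mathlib

/-! Module SQ-Fix. In a local ring `A` of prime characteristic `p` the elements with
`x ^ (p ^ r) = x` form a field, which contains all the `N`-th roots of unity if `N ∣ p ^ r - 1`.

PROOF. Let `r = Nat.totient N` if this is positive (`N ≥ 1` gives `r ≥ 1`); by
`Nat.ModEq.pow_totient`, `p ^ r ≡ 1 [MOD N]`, so `x ^ N = 1` implies `x ^ (p ^ r) = x`
(`p ^ r = 1 + N * c` since `p ^ r ≥ 1`). Let `κ = RingHom.eqLocus (iterateFrobenius A p r)
(RingHom.id A)`, a subring (`iterateFrobenius_def`: the map is `x ↦ x ^ p ^ r`). It is a field: if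
`x ∈ κ`, `x ≠ 0`, put `e = x ^ (p ^ r - 1)`; then `e * e = x ^ (p ^ r) * x ^ (p ^ r - 2) = e`
(`p ^ r ≥ 2`); in a local ring `e` or `1 - e` is a unit and `e * (1 - e) = 0`, so `e = 0` or `e = 1`.
`e = 0` gives `x = x ^ (p ^ r) = x * e = 0`. So `e = 1` and `x ^ (p ^ r - 2) ∈ κ` is an inverse.
Take `K = κ` with `IsField.toField` and `φ` the inclusion (check `φ` is a ring hom for the ring
structure of this field: it is by `rfl`). -/

set_option autoImplicit false

namespace Pool.Agent.Lib.MP_7ab245_nt.SQ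

private theorem fix_unit {A : Type} [CommRing A] [IsLocalRing A] (m : ℕ) (hm : 2 ≤ m) (x : A)
    (hx : x ^ m = x) (hx0 : x ≠ 0) : x * x ^ (m - 2) = 1 := by
  have h1 : x * x ^ (m - 2) = x ^ (m - 1) := by
    rw [← pow_succ']
    congr 1
    omega
  rw [h1]
  have hxe : x * x ^ (m - 1) = x := by
    rw [← pow_succ']
    have : m - 1 + 1 = m := by omega
    rw [this, hx]
  have hee : x ^ (m - 1) * (1 - x ^ (m - 1)) = 0 := by
    have h2 : x ^ (m - 1) * x ^ (m - 1) = x ^ (m - 1) := by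
      nth_rewrite 1 [← h1]
      calc x * x ^ (m - 2) * x ^ (m - 1) = (x * x ^ (m - 1)) * x ^ (m - 2) := by ring
        _ = x * x ^ (m - 2) := by rw [hxe]
        _ = x ^ (m - 1) := h1
    rw [mul_sub, mul_one, h2, sub_self]
  rcases IsLocalRing.isUnit_or_isUnit_one_sub_self (x ^ (m - 1)) with h | h
  · have h3 : 1 - x ^ (m - 1) = 0 := (h.mul_right_eq_zero).1 hee
    exact (sub_eq_zero.1 h3).symm
  · have h3 : x ^ (m - 1) = 0 := (h.mul_left_eq_zero).1 hee
    exfalso
    apply hx0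
    rw [← hxe, h3, mul_zero]

theorem exists_field {A : Type} [CommRing A] [IsLocalRing A] (p : ℕ) [Fact p.Prime] [CharP A p]
    (N : ℕ) (hN : 0 < N) (hpN : p.Coprime N) :
    ∃ (K : Type) (_ : Field K) (φ : K →+* A), ∀ x : A, x ^ N = 1 → ∃ y : K, φ y = x := by
  have hp : p.Prime := Fact.out
  obtain ⟨r, hr, hmod⟩ : ∃ r : ℕ, 0 < r ∧ p ^ r ≡ 1 [MOD N] :=
    ⟨Nat.totient N, Nat.totient_pos.2 hN, Nat.ModEq.pow_totient hpN⟩
  have hm2 : 2 ≤ p ^ r := by
    calc 2 ≤ p := hp.two_le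
      _ = p ^ 1 := (pow_one p).symm
      _ ≤ p ^ r := Nat.pow_le_pow_right hp.pos hr
  have hroot : ∀ x : A, x ^ N = 1 → x ^ (p ^ r) = x := by
    intro x hx
    have hdvd : N ∣ p ^ r - 1 := (Nat.modEq_iff_dvd' (by omega)).1 hmod.symm
    obtain ⟨c, hc⟩ := hdvd
    have hpr : p ^ r = N * c + 1 := by omega
    rw [hpr, pow_succ, pow_mul, hx, one_pow, one_mul]
  let κ : Subring A := RingHom.eqLocus (iterateFrobenius A p r) (RingHom.id A)
  have hmem : ∀ x : A, x ∈ κ ↔ x ^ (p ^ r) = x := by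
    intro x
    change (iterateFrobenius A p r) x = (RingHom.id A) x ↔ _
    rw [iterateFrobenius_def]
    rfl
  have hfield : IsField κ := by
    refine { exists_pair_ne := ⟨0, 1, ?_⟩, mul_comm := mul_comm, mul_inv_cancel := ?_ }
    · intro h
      have h' : (0 : A) = 1 := congrArg Subtype.val h
      exact zero_ne_one h'
    · intro a ha
      have ha' : (a : A) ≠ 0 := fun h => ha (Subtype.ext h)
      have hinv := fix_unit (p ^ r) hm2 (a : A) ((hmem _).1 a.2) ha'
      exact ⟨a ^ (p ^ r - 2), Subtype.ext hinv⟩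
  refine ⟨κ, hfield.toField, κ.subtype, ?_⟩
  intro x hx
  exact ⟨⟨x, (hmem x).2 (hroot x hx)⟩, rfl⟩

end Pool.Agent.Lib.MP_7ab245_nt.SQ
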