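import Mathlib
import Pool.Agent.Lib.MP_7ab245_nt.SQ.Defs
import Pool.Agent.Lib.MP_7ab245_nt.SQ.Fix
import Pool.Agent.Lib.MP_7ab245_nt.SQ.ExW

/-! Module SQ-Core. If a polynomial `H` with few terms vanishes at almost all of the points `z g` and
`μ q ^ s g q * z g` (`g ∈ G`, `q ∈ B`), where `(s g q)_q` is uniformly distributed when `g` is random,
and `B` is large, then for some `q ∈ B` the terms of `H` with exponent divisible by `q` have a sum which
vanishes at almost all `z g`.

PROOF. Let `N = ∏ q ∈ B, q` (prime to `p`), `K`, `φ : K →+* A` from `exists_field`. For `q ∈ B` there is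
`ζ q : K` with `φ (ζ q) = μ q`; it is a primitive `q`-th root of unity (`φ` is injective, `K` a field and
`A` nontrivial; `ζ q ^ q = 1`, `ζ q ≠ 1` because `μ q - 1` is a unit; `q` prime). `ι = H.support`
(subtype), `e i = i`. `exists_W` gives `W`, `q₁ ∈ B`.
 `Ker g : Submodule K (ι → K)` is `{v | ∑ i, (castHom (H.coeff i)) * z g ^ e i * φ (v i) = 0}`.
 Let `g` be such that (a) `ev (z g) H = 0`, (b) `ev (z (π q g)) H = 0` for all `q ∈ B`,
(c) `W ≤ span (..)` for `s = s g`. The number of other `g` is at most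
`η * card G + card B * η * card G + 2 ^ k * r ^ m * card G` (`π q` injective; `hs` transfers the bound of
`exists_W` to `G`). For such `g`: `(i ↦ 1) ∈ Ker g` by (a); `(i ↦ ζ q ^ ((s g q).val * e i)) ∈ Ker g` by (b),
since `z (π q g) = μ q ^ (s g q).val * z g`. So `W ≤ Ker g`, hence for `q = q₁` (fixed, independent of
`g`) and all `t < q`: `∑ i, (H.coeff i) * z g ^ i * μ q ^ (t * i) = 0`. Sum over `t ∈ range q`: for `q ∣ i`
the inner sum is `q`, and for `¬ q ∣ i` it is `0` (`∑ t, (ζ q ^ i) ^ t = 0` in `K`,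
`IsPrimitiveRoot.geom_sum_eq_zero` for the primitive root `ζ q ^ i`). So
`q * ev (z g) (classPart q H) = 0` and `q` is a unit in `A` (characteristic `p ≠ q`: `(q : ZMod p)` is a
unit). -/

set_option autoImplicit false

open Polynomial

namespace Pool.Agent.Lib.MP_7ab245_nt.SQ

private theorem card_mono {G : Type} [Finite G] {P Q : G → Prop} (h : ∀ g, P g → Q g) :
    Nat.card {g // P g} ≤ Nat.card {g // Q g} :=
  Nat.card_le_card_of_injective (Subtype.map id h) (Subtype.map_injective h Function.injective_id)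

private theorem card_three {G : Type} [Finite G] (B : Finset ℕ) (P R : G → Prop) (Q : ℕ → G → Prop) :
    Nat.card {g // P g ∨ (∃ q ∈ B, Q q g) ∨ R g} ≤
      Nat.card {g // P g} + ∑ q ∈ B, Nat.card {g // Q q g} + Nat.card {g // R g} := by
  classical
  have : Fintype G := Fintype.ofFinite G
  simp only [Nat.card_eq_fintype_card, Fintype.card_subtype]
  have h : (Finset.univ.filter fun g => P g ∨ (∃ q ∈ B, Q q g) ∨ R g) ⊆
      (Finset.univ.filter P ∪ B.biUnion (fun q => Finset.univ.filter (Q q))) ∪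
        Finset.univ.filter R := by
    intro g hg
    simp only [Finset.mem_filter, Finset.mem_univ, true_and, Finset.mem_union,
      Finset.mem_biUnion] at hg ⊢
    exact or_assoc.2 hg
  refine (Finset.card_le_card h).trans ((Finset.card_union_le _ _).trans ?_)
  refine Nat.add_le_add_right ((Finset.card_union_le _ _).trans ?_) _
  exact Nat.add_le_add_left Finset.card_biUnion_le _

private theorem ev_eq {A : Type} [CommRing A] (p : ℕ) [CharP A p] (z : A) (H : (ZMod p)[X]) :
    ev p z H = ∑ i : H.support, (ZMod.castHom (dvd_refl p) A) (H.coeff i) * z ^ (i : ℕ) := by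
  rw [ev, eval₂_eq_sum, Polynomial.sum_def]
  exact (Finset.sum_coe_sort H.support
    (fun n => (ZMod.castHom (dvd_refl p) A) (H.coeff n) * z ^ n)).symm

private theorem ev_classPart {A : Type} [CommRing A] (p : ℕ) [CharP A p] (z : A) (q : ℕ)
    (H : (ZMod p)[X]) :
    ev p z (classPart q H) = ∑ i : H.support, if q ∣ (i : ℕ) then
      (ZMod.castHom (dvd_refl p) A) (H.coeff i) * z ^ (i : ℕ) else 0 := by
  rw [ev, classPart, eval₂_finsetSum]
  simp only [eval₂_monomial]
  rw [Finset.sum_filter]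
  exact (Finset.sum_coe_sort H.support
    (fun n => if q ∣ n then (ZMod.castHom (dvd_refl p) A) (H.coeff n) * z ^ n else 0)).symm

theorem core_lemma {A : Type} [CommRing A] [IsLocalRing A] (p : ℕ) [Fact p.Prime] [CharP A p]
    {G : Type} [Finite G] (B : Finset ℕ) (hB : ∀ q ∈ B, q.Prime) (hBp : p ∉ B)
    (μ : ℕ → A) (hμ : ∀ q ∈ B, μ q ^ q = 1) (hμ1 : ∀ q ∈ B, IsUnit (μ q - 1))
    (z : G → A) (π : ℕ → G → G) (hπ : ∀ q ∈ B, Function.Injective (π q))
    (s : G → ∀ q : B, (ZMod (q : ℕ))ˣ)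
    (hs : ∀ P : (∀ q : B, (ZMod (q : ℕ))ˣ) → Prop,
      Nat.card {g : G // P (s g)} * Nat.card (∀ q : B, (ZMod (q : ℕ))ˣ) =
        Nat.card {x : (∀ q : B, (ZMod (q : ℕ))ˣ) // P x} * Nat.card G)
    (hzπ : ∀ (q : B) (g : G), z (π q g) = μ q ^ ((s g q : ZMod (q : ℕ)).val) * z g)
    (H : (ZMod p)[X]) (k : ℕ) (hk2 : 2 ≤ k) (hk : H.support.card ≤ k)
    (η : ℝ) (hη : (Nat.card {g : G // ev p (z g) H ≠ 0} : ℝ) ≤ η * Nat.card G)
    (m : ℕ) (hm : 4 * k * m ≤ B.card) (hBne : B.Nonempty) :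
    ∃ q ∈ B, (Nat.card {g : G // ev p (z g) (classPart q H) ≠ 0} : ℝ) ≤
      ((B.card + 1) * η + 2 ^ k * (1 - 1 / (2 * (k : ℝ))) ^ m) * Nat.card G := by
  classical
  have hp : p.Prime := Fact.out
  obtain ⟨K, instK, φ, hφ⟩ := exists_field (A := A) p (∏ q ∈ B, q)
    (Finset.prod_pos (fun q hq => (hB q hq).pos))
    (Nat.Coprime.prod_right (fun q hq =>
      (Nat.coprime_primes hp (hB q hq)).2 (fun h => hBp (h ▸ hq))))
  have hζex : ∀ q ∈ B, ∃ y : K, φ y = μ q := by
    intro q hq
    apply hφ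
    obtain ⟨c, hc⟩ := Finset.dvd_prod_of_mem (fun q => q) hq
    rw [hc, pow_mul, hμ q hq, one_pow]
  choose! ζ hζ using hζex
  have hφinj : Function.Injective φ := φ.injective
  have hζp : ∀ q ∈ B, IsPrimitiveRoot (ζ q) q := by
    intro q hq
    have h1 : ζ q ^ q = 1 := hφinj (by rw [map_pow, hζ q hq, hμ q hq, map_one])
    have h2 : ζ q ≠ 1 := by
      intro h
      have h3 := hμ1 q hq
      rw [← hζ q hq, h, map_one, sub_self] at h3
      exact not_isUnit_zero h3
    have := Fact.mk (hB q hq)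
    exact IsPrimitiveRoot.iff_orderOf.2 (orderOf_eq_prime h1 h2)
  obtain ⟨W, ⟨q₁, hq₁, hWq⟩, hWs⟩ := exists_W B hB ζ hζp (fun i : H.support => (i : ℕ)) k hk2
    (by simpa using hk) m hm hBne
  refine ⟨q₁, hq₁, ?_⟩
  set c : ZMod p →+* A := ZMod.castHom (dvd_refl p) A with hc
  let Ker : G → Submodule K (H.support → K) := fun g =>
    { carrier := {v | ∑ i : H.support, c (H.coeff i) * z g ^ (i : ℕ) * φ (v i) = 0}
      add_mem' := by
        intro a b ha hb
        simp only [Set.mem_ofPred_eq] at ha hb ⊢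
        simp only [Pi.add_apply, map_add, mul_add, Finset.sum_add_distrib, ha, hb, add_zero]
      zero_mem' := by
        simp
      smul_mem' := by
        intro r a ha
        simp only [Set.mem_ofPred_eq] at ha ⊢
        have : ∀ i : H.support, c (H.coeff i) * z g ^ (i : ℕ) * φ ((r • a) i) =
            φ r * (c (H.coeff i) * z g ^ (i : ℕ) * φ (a i)) := by
          intro i
          rw [Pi.smul_apply, smul_eq_mul, map_mul]; ring
        rw [Finset.sum_congr rfl (fun i _ => this i), ← Finset.mul_sum, ha, mul_zero] }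
  have hKer : ∀ g v, v ∈ Ker g ↔
      ∑ i : H.support, c (H.coeff i) * z g ^ (i : ℕ) * φ (v i) = 0 := fun g v => Iff.rfl
  -- good elements
  have hgood : ∀ g : G, ev p (z g) (classPart q₁ H) ≠ 0 →
      (ev p (z g) H ≠ 0 ∨ (∃ q ∈ B, ev p (z (π q g)) H ≠ 0) ∨
        ¬ W ≤ Submodule.span K ({fun _ => (1 : K)} ∪
        Set.range (fun q : B => fun i : H.support =>
          ζ q ^ ((s g q : ZMod (q : ℕ)).val * (i : ℕ))))) := by
    intro g hne
    by_contra hcon
    push Not at hcon
    obtain ⟨ha, hb, hWle⟩ := hcon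
    apply hne
    have hWK : W ≤ Ker g := by
      refine hWle.trans (Submodule.span_le.2 ?_)
      rintro v (hv | ⟨q, rfl⟩)
      · rw [Set.mem_singleton_iff] at hv
        subst hv
        rw [SetLike.mem_coe, hKer]
        simp only [map_one, mul_one]
        rw [← ev_eq p (z g) H]
        exact ha
      · rw [SetLike.mem_coe, hKer]
        have h1 := hb q q.2
        rw [ev_eq, hzπ q g] at h1
        rw [← h1]
        refine Finset.sum_congr rfl (fun i _ => ?_)
        rw [map_pow, hζ q q.2, mul_pow, ← pow_mul]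
        ring
    have hall : ∀ t : ℕ, ∑ i : H.support, c (H.coeff i) * z g ^ (i : ℕ) *
        φ (ζ q₁ ^ (t * (i : ℕ))) = 0 := fun t => (hKer g _).1 (hWK (hWq t))
    have hsum : ∑ i : H.support, c (H.coeff i) * z g ^ (i : ℕ) *
        (∑ t ∈ Finset.range q₁, φ (ζ q₁ ^ (t * (i : ℕ)))) = 0 := by
      have : ∑ i : H.support, c (H.coeff i) * z g ^ (i : ℕ) *
        (∑ t ∈ Finset.range q₁, φ (ζ q₁ ^ (t * (i : ℕ)))) =
          ∑ t ∈ Finset.range q₁, ∑ i : H.support, c (H.coeff i) * z g ^ (i : ℕ) *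
            φ (ζ q₁ ^ (t * (i : ℕ))) := by
        rw [Finset.sum_comm]
        exact Finset.sum_congr rfl (fun i _ => Finset.mul_sum _ _ _)
      rw [this]
      exact Finset.sum_eq_zero (fun t _ => hall t)
    have hinner : ∀ i : ℕ, (∑ t ∈ Finset.range q₁, φ (ζ q₁ ^ (t * i))) =
        if q₁ ∣ i then (q₁ : A) else 0 := by
      intro i
      split_ifs with hd
      · obtain ⟨r, rfl⟩ := hd
        have : ∀ t ∈ Finset.range q₁, φ (ζ q₁ ^ (t * (q₁ * r))) = 1 := by
          intro t _
          have h1 : ζ q₁ ^ (t * (q₁ * r)) = 1 := by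
            rw [show t * (q₁ * r) = q₁ * (t * r) by ring, pow_mul, (hζp q₁ hq₁).pow_eq_one,
              one_pow]
          rw [h1, map_one]
        rw [Finset.sum_congr rfl this]
        simp
      · have hcop : i.Coprime q₁ := ((Nat.Prime.coprime_iff_not_dvd (hB q₁ hq₁)).2 hd).symm
        have hprim : IsPrimitiveRoot (ζ q₁ ^ i) q₁ := (hζp q₁ hq₁).pow_of_coprime i hcop
        have h0 := hprim.geom_sum_eq_zero (hB q₁ hq₁).one_lt
        have : ∀ t ∈ Finset.range q₁, φ (ζ q₁ ^ (t * i)) = φ ((ζ q₁ ^ i) ^ t) := by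
          intro t _
          rw [← pow_mul, mul_comm]
        rw [Finset.sum_congr rfl this, ← map_sum, h0, map_zero]
    have hq1u : IsUnit (q₁ : A) := by
      have h1 : ((q₁ : ZMod p)) ≠ 0 := by
        intro h
        rw [ZMod.natCast_eq_zero_iff] at h
        have := (Nat.prime_dvd_prime_iff_eq hp (hB q₁ hq₁)).1 h
        exact hBp (this ▸ hq₁)
      have h2 : IsUnit (c (q₁ : ZMod p)) := (isUnit_iff_ne_zero.2 h1).map c
      rwa [map_natCast] at h2
    have hfin : (q₁ : A) * ev p (z g) (classPart q₁ H) = 0 := by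
      rw [ev_classPart, Finset.mul_sum]
      refine Eq.trans (Finset.sum_congr rfl (fun i _ => ?_)) hsum
      rw [hinner]
      by_cases hd : q₁ ∣ (i : ℕ)
      · rw [if_pos hd, if_pos hd]; ring
      · rw [if_neg hd, if_neg hd]; simp
    exact (hq1u.mul_right_eq_zero).1 hfin
  -- counting
  have hcount := (card_mono hgood).trans (card_three B (fun g => ev p (z g) H ≠ 0)
    (fun g => ¬ W ≤ Submodule.span K ({fun _ => (1 : K)} ∪
        Set.range (fun q : B => fun i : H.support =>
          ζ q ^ ((s g q : ZMod (q : ℕ)).val * (i : ℕ)))))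
    (fun q g => ev p (z (π q g)) H ≠ 0))
  have hπcard : ∀ q ∈ B, (Nat.card {g : G // ev p (z (π q g)) H ≠ 0} : ℝ) ≤ η * Nat.card G := by
    intro q hq
    refine le_trans ?_ hη
    have : Nat.card {g : G // ev p (z (π q g)) H ≠ 0} ≤ Nat.card {g : G // ev p (z g) H ≠ 0} :=
      Nat.card_le_card_of_injective (Subtype.map (π q) (fun g hg => hg))
        (Subtype.map_injective _ (hπ q hq))
    exact_mod_cast this
  have hNpos : 0 < Nat.card (∀ q : B, (ZMod (q : ℕ))ˣ) := by
    have : ∀ q : B, Fact (q : ℕ).Prime := fun q => ⟨hB q q.2⟩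
    exact Nat.card_pos
  have hsW := hs (fun x => ¬ W ≤ Submodule.span K ({fun _ => (1 : K)} ∪
        Set.range (fun q : B => fun i : H.support =>
          ζ q ^ ((x q : ZMod (q : ℕ)).val * (i : ℕ)))))
  have hthird : (Nat.card {g : G // ¬ W ≤ Submodule.span K ({fun _ => (1 : K)} ∪
        Set.range (fun q : B => fun i : H.support =>
          ζ q ^ ((s g q : ZMod (q : ℕ)).val * (i : ℕ))))} : ℝ) ≤
      2 ^ k * (1 - 1 / (2 * (k : ℝ))) ^ m * Nat.card G := by
    have hNR : (0 : ℝ) < Nat.card (∀ q : B, (ZMod (q : ℕ))ˣ) := by exact_mod_cast hNpos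
    refine le_of_mul_le_mul_right ?_ hNR
    have h1 : (Nat.card {g : G // ¬ W ≤ Submodule.span K ({fun _ => (1 : K)} ∪
        Set.range (fun q : B => fun i : H.support =>
          ζ q ^ ((s g q : ZMod (q : ℕ)).val * (i : ℕ))))} : ℝ) *
          Nat.card (∀ q : B, (ZMod (q : ℕ))ˣ) =
        (Nat.card {x : (∀ q : B, (ZMod (q : ℕ))ˣ) // ¬ W ≤ Submodule.span K ({fun _ => (1 : K)} ∪
        Set.range (fun q : B => fun i : H.support =>
          ζ q ^ ((x q : ZMod (q : ℕ)).val * (i : ℕ))))} : ℝ) * Nat.card G := by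
      exact_mod_cast hsW
    rw [h1]
    calc _ ≤ (2 ^ k * (1 - 1 / (2 * (k : ℝ))) ^ m * Nat.card (∀ q : B, (ZMod (q : ℕ))ˣ)) *
          Nat.card G := mul_le_mul_of_nonneg_right hWs (Nat.cast_nonneg _)
      _ = _ := by ring
  calc (Nat.card {g : G // ev p (z g) (classPart q₁ H) ≠ 0} : ℝ)
      ≤ (Nat.card {g : G // ev p (z g) H ≠ 0} : ℝ) +
        ∑ q ∈ B, (Nat.card {g : G // ev p (z (π q g)) H ≠ 0} : ℝ) +
        (Nat.card {g : G // ¬ W ≤ Submodule.span K ({fun _ => (1 : K)} ∪
        Set.range (fun q : B => fun i : H.support =>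
          ζ q ^ ((s g q : ZMod (q : ℕ)).val * (i : ℕ))))} : ℝ) := by
        exact_mod_cast hcount
    _ ≤ η * Nat.card G + ∑ q ∈ B, η * Nat.card G +
        2 ^ k * (1 - 1 / (2 * (k : ℝ))) ^ m * Nat.card G := by
        gcongr with q hq
        exact hπcard q hq
    _ = _ := by
        rw [Finset.sum_const, nsmul_eq_mul]; ring

end Pool.Agent.Lib.MP_7ab245_nt.SQ
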