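import Mathlib

/-! Module SQ-Unif. The values of a surjective group homomorphism are uniformly distributed, also after
restriction of a product to some of its coordinates.

PROOF. (1) `unif`: the fibres of `χ` are cosets of the kernel, so they all have `card ker χ` elements:
`card {g | P (χ g)} = card ker χ * card {x | P x}` and `card G = card ker χ * card S`.
(2) `unif_pi`: apply (1) to the composition with the restriction homomorphism
`(∀ q : PP, M q) →* (∀ q : B, M q)`, which is surjective (extend by `1`). -/

set_option autoImplicit false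

namespace Pool.Agent.Lib.MP_7ab245_nt.SQ

theorem unif {G S : Type} [Group G] [Group S] [Finite G] [Finite S] (χ : G →* S)
    (hχ : Function.Surjective χ) (P : S → Prop) :
    Nat.card {g : G // P (χ g)} * Nat.card S = Nat.card {x : S // P x} * Nat.card G := by
  have hs : ∀ x, χ (Function.surjInv hχ x) = x := Function.surjInv_eq hχ
  have h1 : Nat.card {g : G // P (χ g)} = Nat.card {x : S // P x} * Nat.card χ.ker := by
    rw [← Nat.card_prod]
    refine Nat.card_congr
      { toFun := fun g => (⟨χ g.1, g.2⟩, ⟨(Function.surjInv hχ (χ g.1))⁻¹ * g.1, ?_⟩)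
        invFun := fun y => ⟨Function.surjInv hχ y.1.1 * y.2.1, ?_⟩
        left_inv := ?_
        right_inv := ?_ }
    · rw [MonoidHom.mem_ker, map_mul, map_inv, hs, inv_mul_cancel]
    · have h2 : χ y.2.1 = 1 := y.2.2
      rw [map_mul, hs, h2, mul_one]
      exact y.1.2
    · intro g
      apply Subtype.ext
      simp
    · rintro ⟨x, k⟩
      have h2 : χ k.1 = 1 := k.2
      have h3 : χ (Function.surjInv hχ x.1 * k.1) = x.1 := by rw [map_mul, hs, h2, mul_one]
      apply Prod.ext
      · apply Subtype.ext
        exact h3
      · apply Subtype.ext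
        simp only [h3, inv_mul_cancel_left]
  have h2 : Nat.card G = Nat.card S * Nat.card χ.ker := by
    rw [← Nat.card_prod]
    refine Nat.card_congr
      { toFun := fun g => (χ g, ⟨(Function.surjInv hχ (χ g))⁻¹ * g, ?_⟩)
        invFun := fun y => Function.surjInv hχ y.1 * y.2.1
        left_inv := ?_
        right_inv := ?_ }
    · rw [MonoidHom.mem_ker, map_mul, map_inv, hs, inv_mul_cancel]
    · intro g
      simp
    · rintro ⟨x, k⟩
      have h2 : χ k.1 = 1 := k.2
      have h3 : χ (Function.surjInv hχ x * k.1) = x := by rw [map_mul, hs, h2, mul_one]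
      apply Prod.ext
      · exact h3
      · apply Subtype.ext
        simp only [h3, inv_mul_cancel_left]
  rw [h1, h2]
  ring

theorem unif_pi {G : Type} [Group G] [Finite G] (PP B : Finset ℕ) (hB : B ⊆ PP) (M : ℕ → Type)
    [∀ q, Group (M q)] (hM : ∀ q ∈ PP, Finite (M q)) (χ : G →* (∀ q : PP, M q))
    (hχ : Function.Surjective χ) (P : (∀ q : B, M q) → Prop) :
    Nat.card {g : G // P (fun q => χ g ⟨q, hB q.2⟩)} * Nat.card (∀ q : B, M q) =
      Nat.card {x : (∀ q : B, M q) // P x} * Nat.card G := by
  classical
  have : ∀ q : B, Finite (M q) := fun q => hM q (hB q.2)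
  let χ' : G →* (∀ q : B, M q) :=
    { toFun := fun g q => χ g ⟨q, hB q.2⟩
      map_one' := by
        funext q
        rw [map_one]
        rfl
      map_mul' := fun a b => by
        funext q
        rw [map_mul]
        rfl }
  have hsurj : Function.Surjective χ' := by
    intro y
    obtain ⟨g, hg⟩ := hχ (fun q => if h : (q : ℕ) ∈ B then y ⟨q, h⟩ else 1)
    refine ⟨g, ?_⟩
    funext q
    change χ g ⟨q, hB q.2⟩ = y q
    rw [hg]
    simp
  exact unif χ' hsurj P

end Pool.Agent.Lib.MP_7ab245_nt.SQ
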