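import Mathlib
import Pool.Agent.Lib.MP_7ab245_nt.SQ.Defs
import Pool.Agent.Lib.MP_7ab245_nt.SQ.Core
import Pool.Agent.Lib.MP_7ab245_nt.SQ.BadElt
import Pool.Agent.Lib.MP_7ab245_nt.SQ.Unif

/-! Module SQ-BadStep. The core lemma for the conjugates of `α` and a set `B` of bad primes.

PROOF. Let `z g = ρ (g • α) ^ D`. For `q ∈ B` take `g_q`, `c_q` from `exists_elt` (`choose`; arbitrary
for `q ∉ B`). `μ q = ρ (ζ q) ^ c_q`; `μ q ^ q = 1` (`ζ_prim`), `μ q - 1` is a unit (`isUnit_zeta`).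
 `π q g = g * g_q` (injective). `ρ ((g * g_q) • α) ^ D = ρ (g • (ζ q ^ c * α ^ D)) =
(ρ (ζ q) ^ (χ g q).val) ^ c * z g = μ q ^ (χ g q).val * z g` (`mul_smul`, `smul_pow'`, `smul_mul'`,
`χ_spec`). `s g q = χ g ⟨q, _⟩`; `hs` is `unif_pi`.
 `H₁ = contract D H` (coefficients `H.coeff (n * D)`): `H = expand (ZMod p) D H₁` because all exponents of
`H` are divisible by `D` (cf. `Few.expand_contract_of_dvd` in Few/Count.lean for ℤ[X]), so
`ev (ρ (g • α)) H = ev (z g) H₁`, `H₁.support.card = H.support.card` (or `≤ k`), and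
`classPart (D * q) H = expand D (classPart q H₁)`, hence
`ev (ρ (g • α)) (classPart (D * q) H) = ev (z g) (classPart q H₁)`. Apply `core_lemma` to `H₁`. -/

set_option autoImplicit false

open Polynomial

namespace Pool.Agent.Lib.MP_7ab245_nt.SQ

open Pool.Agent.Lib.MP_7ab245_nt.Few

theorem badStep_classPart_coeff {p : ℕ} (q : ℕ) (H : (ZMod p)[X]) (n : ℕ) :
    (classPart q H).coeff n = if q ∣ n then H.coeff n else 0 := by
  classical
  unfold classPart
  rw [finsetSum_coeff]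
  simp only [coeff_monomial]
  rw [Finset.sum_ite_eq']
  simp only [Finset.mem_filter, mem_support_iff]
  split_ifs with h1 h2 h2
  · rfl
  · exact absurd h1.2 h2
  · by_contra h3
    exact h1 ⟨fun h4 => h3 h4.symm, h2⟩
  · rfl

theorem badStep_expand_contract {p : ℕ} {D : ℕ} (hD : 0 < D) (F : (ZMod p)[X])
    (h : ∀ s ∈ F.support, D ∣ s) : expand (ZMod p) D (contract D F) = F := by
  ext n
  rw [coeff_expand hD]
  split_ifs with hn
  · rw [coeff_contract hD.ne', Nat.div_mul_cancel hn]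
  · by_contra hne
    exact hn (h n (mem_support_iff.mpr (fun h0 => hne h0.symm)))

theorem badStep_ev_expand {A : Type} [CommRing A] (p : ℕ) [CharP A p] (x : A) (D : ℕ)
    (F : (ZMod p)[X]) : ev p x (expand (ZMod p) D F) = ev p (x ^ D) F := by
  unfold ev
  rw [expand_eq_sum, Polynomial.sum, eval₂_finsetSum, eval₂_eq_sum, Polynomial.sum]
  refine Finset.sum_congr rfl fun n _ => ?_
  rw [eval₂_mul, eval₂_C, eval₂_pow, eval₂_pow, eval₂_X]

theorem badStep_classPart_expand {p : ℕ} {D : ℕ} (hD : 0 < D) (q : ℕ) (F : (ZMod p)[X]) :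
    classPart (D * q) F = expand (ZMod p) D (classPart q (contract D F)) := by
  ext n
  rw [badStep_classPart_coeff, coeff_expand hD]
  by_cases hn : D ∣ n
  · rw [if_pos hn, badStep_classPart_coeff, coeff_contract hD.ne', Nat.div_mul_cancel hn]
    obtain ⟨m, rfl⟩ := hn
    rw [Nat.mul_div_cancel_left m hD]
    have : D * q ∣ D * m ↔ q ∣ m := Nat.mul_dvd_mul_iff_left hD
    simp only [this]
  · rw [if_neg hn, if_neg (fun h' => hn ((Dvd.intro q rfl).trans h'))]

theorem badStep_card {p : ℕ} {D : ℕ} (hD : 0 < D) (F : (ZMod p)[X]) :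
    (contract D F).support.card ≤ F.support.card := by
  refine Finset.card_le_card_of_injOn (fun n => n * D) (fun n hn => ?_) ?_
  · have h1 := mem_support_iff.mp hn
    rw [coeff_contract hD.ne'] at h1
    exact mem_support_iff.mpr h1
  · intro a _ b _ hab
    exact Nat.eq_of_mul_eq_mul_right hD hab

theorem bad_step (f : ℤ[X]) (hf : f.Monic) (hirr : Irreducible f) (hf0 : |f.coeff 0| = 1) (p : ℕ)
    [Fact p.Prime] (PP : Finset ℕ) (hPP : ∀ q ∈ PP, q.Prime) (S : Setup f p PP)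
    (H : (ZMod p)[X]) (D : ℕ) (hD : 0 < D) (hDH : ∀ e ∈ H.support, D ∣ e)
    (k : ℕ) (hk2 : 2 ≤ k) (hk : H.support.card ≤ k)
    (η : ℝ) (hη : (Nat.card {g : S.G // ev p (S.ρ (g • S.α)) H ≠ 0} : ℝ) ≤ η * Nat.card S.G)
    (B : Finset ℕ) (hBPP : B ⊆ PP) (hBp : p ∉ B) (hbad : ∀ q ∈ B, BadPrime f D q)
    (m : ℕ) (hm : 4 * k * m ≤ B.card) (hBne : B.Nonempty) :
    ∃ q ∈ B, (Nat.card {g : S.G // ev p (S.ρ (g • S.α)) (classPart (D * q) H) ≠ 0} : ℝ) ≤
      ((B.card + 1) * η + 2 ^ k * (1 - 1 / (2 * (k : ℝ))) ^ m) * Nat.card S.G := by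
  classical
  have hex : ∀ q, q ∈ B → ∃ (g : S.G) (c : ℕ), 0 < c ∧ c < q ∧
      (g • S.α) ^ D = S.ζ q ^ c * S.α ^ D := fun q hq =>
    exists_elt f hf0 p PP hPP S D q (hBPP hq) (hbad q hq)
  haveI : Nonempty S.G := ⟨1⟩
  choose! gq cq hc0 hcq hgq using hex
  set z : S.G → S.A := fun g => S.ρ (g • S.α) ^ D with hz
  set H₁ := contract D H with hH₁
  have hev : ∀ g, ev p (S.ρ (g • S.α)) H = ev p (z g) H₁ := by
    intro g
    have h1 := badStep_ev_expand p (S.ρ (g • S.α)) D H₁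
    rw [hH₁, badStep_expand_contract hD H hDH] at h1
    exact h1
  have hev2 : ∀ (q : ℕ) (g : S.G), ev p (S.ρ (g • S.α)) (classPart (D * q) H) =
      ev p (z g) (classPart q H₁) := by
    intro q g
    rw [badStep_classPart_expand hD q H, badStep_ev_expand]
  have hBprime : ∀ q ∈ B, q.Prime := fun q hq => hPP q (hBPP hq)
  have hfin : ∀ q ∈ PP, Finite (ZMod q)ˣ := by
    intro q hq
    haveI : NeZero q := ⟨(hPP q hq).ne_zero⟩
    infer_instance
  have hη' : (Nat.card {g : S.G // ev p (z g) H₁ ≠ 0} : ℝ) ≤ η * Nat.card S.G := by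
    simpa only [hev] using hη
  obtain ⟨q, hq, hcard⟩ := core_lemma (A := S.A) p (G := S.G) B hBprime hBp
    (fun q => S.ρ (S.ζ q) ^ cq q)
    (fun q hq => by
      rw [← pow_mul, mul_comm, pow_mul, ← map_pow, (S.ζ_prim q (hBPP hq)).pow_eq_one, map_one,
        one_pow])
    (fun q hq => isUnit_zeta f p PP hPP S q (hBPP hq) (fun h => hBp (h ▸ hq)) (cq q) (hc0 q hq)
      (hcq q hq))
    z (fun q g => g * gq q) (fun q _ => mul_left_injective (gq q))
    (fun g q => S.χ g ⟨q, hBPP q.2⟩)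
    (fun P => unif_pi PP B hBPP (fun q => (ZMod q)ˣ) hfin S.χ S.χ_surj P)
    (fun q g => by
      have h1 : S.ρ ((g * gq q) • S.α) ^ D = S.ρ (g • ((gq q • S.α) ^ D)) := by
        rw [mul_smul, smul_pow', map_pow]
      have h2 := S.χ_spec g ⟨q, hBPP q.2⟩
      simp only at h2
      simp only [hz]
      rw [h1, hgq q q.2, smul_mul', smul_pow', smul_pow', h2, map_mul, map_pow, map_pow, map_pow,
        ← pow_mul, ← pow_mul, mul_comm (cq (q : ℕ))])
    H₁ k hk2 ((badStep_card hD H).trans hk) η hη' m hm hBne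
  refine ⟨q, hq, ?_⟩
  simpa only [hev2] using hcard

end Pool.Agent.Lib.MP_7ab245_nt.SQ
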