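import Mathlib
import Pool.Agent.Lib.MP_7ab245_nt.SQ.Defs

/-! Module SQ-Chi. The cyclotomic characters for several primes are jointly surjective.

PROOF. For `g` and `q ∈ PP`, `IsPrimitiveRoot.autToPow` (or `modularCyclotomicCharacter`) gives
`χ_q : (L ≃ₐ[ℚ] L) →* (ZMod q)ˣ` with `g ζ_q = ζ_q ^ (χ_q g).val` (`IsPrimitiveRoot.autToPow_spec`);
`χ = Pi.monoidHom`. Surjective: by `Subgroup.pi_mem_of_mulSingle_mem` (applied to `χ.range`) it suffices
that for `q₀ ∈ PP` and a unit `a` of `ZMod q₀` there is `g` with `χ_{q₀} g = a` and `χ_q g = 1` for the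
other `q ∈ PP`, i.e. `g ζ_{q₀} = ζ_{q₀} ^ a.val`, `g ζ_q = ζ_q`. `Few.exists_galois` (file Few/Bad.lean) gives
such an automorphism `σ` of `QQ = AlgebraicClosure ℚ` for the roots of unity `i (ζ q)`, where
`i : L →ₐ[ℚ] QQ` (`IsAlgClosed.lift`). Restrict it to `L`: with `letI := i.toRingHom.toAlgebra` and the
scalar tower, `AlgEquiv.restrictNormal σ L`, `AlgEquiv.restrictNormal_commutes`. (A root of unity
equality in `ZMod q`: `ζ ^ a = ζ ^ b` iff `a ≡ b mod q`, `IsPrimitiveRoot.pow_inj` for `a, b < q`.) -/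

set_option autoImplicit false

namespace Pool.Agent.Lib.MP_7ab245_nt.SQ

theorem exists_chi (L : Type) [Field L] [NumberField L] [IsGalois ℚ L] (PP : Finset ℕ)
    (hPP : ∀ q ∈ PP, q.Prime) (ζ : ℕ → L) (hζ : ∀ q ∈ PP, IsPrimitiveRoot (ζ q) q) :
    ∃ χ : (L ≃ₐ[ℚ] L) →* (∀ q : PP, (ZMod (q : ℕ))ˣ), Function.Surjective χ ∧
      ∀ g (q : PP), g (ζ q) = ζ q ^ ((χ g q : ZMod (q : ℕ)).val) := by
  classical
  haveI hne : ∀ q : PP, NeZero (q : ℕ) := fun q => ⟨(hPP q q.2).ne_zero⟩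
  let χq : ∀ q : PP, (L ≃ₐ[ℚ] L) →* (ZMod (q : ℕ))ˣ := fun q => (hζ q q.2).autToPow ℚ
  have hχq : ∀ (q : PP) (g : L ≃ₐ[ℚ] L), g (ζ q) = ζ q ^ ((χq q g : ZMod (q : ℕ)).val) :=
    fun q g => ((hζ q q.2).autToPow_spec ℚ g).symm
  let χ : (L ≃ₐ[ℚ] L) →* (∀ q : PP, (ZMod (q : ℕ))ˣ) := MonoidHom.pi χq
  have hχ : ∀ (g : L ≃ₐ[ℚ] L) (q : PP), χ g q = χq q g := fun g q => rfl
  refine ⟨χ, ?_, fun g q => hχq q g⟩
  rw [← MonoidHom.range_eq_top, eq_top_iff]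
  intro x _
  apply Subgroup.pi_mem_of_mulSingle_mem
  intro q₀
  rw [MonoidHom.mem_range]
  -- the automorphism
  let i : L →ₐ[ℚ] AlgebraicClosure ℚ := IsAlgClosed.lift
  letI : Algebra L (AlgebraicClosure ℚ) := i.toRingHom.toAlgebra
  haveI : IsScalarTower ℚ L (AlgebraicClosure ℚ) :=
    IsScalarTower.of_algebraMap_eq (fun y => (i.commutes y).symm)
  have hi : Function.Injective (algebraMap L (AlgebraicClosure ℚ)) :=
    (algebraMap L (AlgebraicClosure ℚ)).injective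
  obtain ⟨σ, hσ1, hσ2⟩ := Few.exists_galois PP hPP (fun q => algebraMap L (AlgebraicClosure ℚ) (ζ q))
    (fun q hq => (hζ q hq).map_of_injective hi) q₀ q₀.2 ((x q₀ : ZMod (q₀ : ℕ)).val)
    (ZMod.val_coe_unit_coprime _)
  refine ⟨σ.restrictNormal L, ?_⟩
  have hg : ∀ y : L, algebraMap L (AlgebraicClosure ℚ) (σ.restrictNormal L y) =
      σ (algebraMap L (AlgebraicClosure ℚ) y) := fun y => AlgEquiv.restrictNormal_commutes σ L y
  funext q
  rw [hχ]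
  apply Units.ext
  apply ZMod.val_injective
  apply (hζ q q.2).pow_inj (ZMod.val_lt _) (ZMod.val_lt _)
  rw [← hχq q]
  apply hi
  rw [hg]
  by_cases h : q = q₀
  · subst h
    rw [Pi.mulSingle_eq_same, map_pow]
    exact hσ2
  · rw [Pi.mulSingle_eq_of_ne h, map_pow]
    have h1 : ((1 : (ZMod (q : ℕ))ˣ) : ZMod (q : ℕ)).val = 1 := by
      haveI : Fact (1 < (q : ℕ)) := ⟨(hPP q q.2).one_lt⟩
      rw [Units.val_one, ZMod.val_one]
    rw [h1, pow_one]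
    exact hσ1 q q.2 (fun h' => h (Subtype.ext h'))

end Pool.Agent.Lib.MP_7ab245_nt.SQ
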