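import Mathlib
import Pool.Agent.Lib.MP_7ab245_nt.Few.Engine

/-! Module SQ-Engine2. The engine of Few/Engine.lean with an abstract `p`-adic gain `γ`.

PROOF. Copy the proof of `Few.engine` (file Few/Engine.lean). The only use of `G`, `hGf`, `hGh` is in
Step 1, `partial_resultant`, giving `p ^ ((V - t) * G.natDegree) ≤ |resultant f Gt n Gt.natDegree|`; use
instead `hgain (V - t) _ Q' Gt hGt' hndvd`: `(V - t) * γ * log p ≤ log |resultant ..|`, together with
`|resultant ..| ≤ l1 Gt ^ n * MM f ^ ω` (`abs_resultant_le_window`), take the logarithm (the resultant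
is nonzero by `resultant_ne_zero'`, or if it were `0` then `log |0| = 0` and the inequality still gives
what is needed because `V - t > 0`... use `resultant_ne_zero'`). Replace `G.natDegree` by `γ` in `H1`.
`γ ≥ 0` is assumed. -/

set_option autoImplicit false

open Polynomial
open scoped Pointwise

namespace Pool.Agent.Lib.MP_7ab245_nt.SQ

open Pool.Agent.Lib.MP_7ab245_nt.Few

theorem engine2 (f : ℤ[X]) (hf : f.Monic) (hirr : Irreducible f) (hf0 : |f.coeff 0| = 1) (α : ℂ)
    (hroot : aeval α f = 0)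
    (hα : α ≠ 0) (hx0 : ∀ x : QQ, aeval x f = 0 → x ≠ 0)
    (hnt : ∀ x : QQ, aeval x f = 0 → ∀ m : ℕ, 0 < m → x ^ m ≠ 1)
    (E : Finset ℕ) (h0 : 0 ∈ E) (d : ℕ) (hd : ∀ s ∈ E, s ≤ d)
    (hnd : f.natDegree ≤ d)
    (D : ℕ) (hD : 0 < D) (hDE : ∀ s ∈ E, D ∣ s)
    (p : ℕ) [hp : Fact p.Prime] (h : ℤ[X]) (hm : h.Monic) (hh : h.support ⊆ E)
    (γ : ℝ) (hγ : 0 ≤ γ)
    (hgain : ∀ (m : ℕ) (A' Q' F : ℤ[X]), F = C ((p ^ m : ℕ) : ℤ) * A' + h ^ m * Q' → ¬ f ∣ F →
      (m : ℝ) * γ * Real.log p ≤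
        Real.log |((resultant f F f.natDegree F.natDegree : ℤ) : ℝ)|)
    (V J T N1 A : ℕ) (hV : 1 ≤ V) (hJ1 : 1 ≤ J) (hN1 : (SS E (J * V)).card ≤ N1)
    (hbig : N1 * (2 * V - 1) ^ J ≤ (2 * V) ^ J) (hTV : T ≤ V) (hA : 1 ≤ A)
    (hspan : ∀ L, V ≤ L → L ≤ J * V →
      (fun s : SS E L => ((s : ℕ) : ℝ)) ∈ Submodule.span ℝ (smallHoms E L A))
    (ω : ℕ) (hω : 2 * V * (V * d) ≤ ω)
    (P : Finset ℕ) (hP : ∀ q ∈ P, q.Prime) (κ : ℕ)
    (hfib : ∀ q ∈ P, ∀ x : QQ, aeval x f = 0 → ∀ S : Finset QQ,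
      (∀ z ∈ S, (∃ y : QQ, aeval y f = 0 ∧ z = y ^ D) ∧ z ^ q = (x ^ D) ^ q) → S.card ≤ κ)
    (H1 : f.natDegree * (T * Real.log A + Real.log N1 + Real.log p) + ω * Real.log (MM f) <
      ((V - T : ℕ) : ℝ) * γ * Real.log p)
    (H2 : ∀ q ∈ P, f.natDegree * (Real.log N1 + Real.log p) +
        q * ω * Real.log (MM f) < f.natDegree * T * Real.log q)
    (H3 : κ * ω < P.card * f.natDegree) : False := by
  classical
  set n := f.natDegree with hn
  have hfne : f ≠ 0 := hf.ne_zero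
  have hn1 : 1 ≤ n := by
    rcases Nat.eq_zero_or_pos n with h1 | h1
    · exfalso
      have := hf.natDegree_eq_zero.mp (hn ▸ h1)
      rw [this] at hirr
      exact not_irreducible_one hirr
    · exact h1
  have hd1 : 1 ≤ d := hn1.trans hnd
  have hω1 : 1 ≤ ω := by
    refine le_trans ?_ hω
    have : 0 < 2 * V * (V * d) := by positivity
    omega
  have hMM1 : 1 ≤ MM f := MM_one_le hfne
  have hMMpos : 0 < MM f := by linarith
  have hμ0 : 0 ≤ Real.log (MM f) := Real.log_nonneg hMM1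
  have hp2 : 2 ≤ p := hp.out.two_le
  have hpR : (0 : ℝ) < p := by exact_mod_cast hp.out.pos
  have hlogp : 0 < Real.log p := Real.log_pos (by exact_mod_cast hp.out.one_lt)
  have hAR : (1 : ℝ) ≤ A := by exact_mod_cast hA
  have hlogA : 0 ≤ Real.log A := Real.log_nonneg hAR
  obtain ⟨L, hL1, hL2, x, F, hF0, hFS, hFwin, hFl1, A', Q, hA', hQ, hFAQ⟩ :=
    exists_aux' E h0 d hd V J N1 hV hJ1 hN1 hbig ω hω hω1 p hp2 h hm hh
  set a := F.natTrailingDegree with ha
  have hamem : a ∈ F.support := natTrailingDegree_mem_support_of_nonzero hF0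
  have hwin : ∀ i ∈ F.support, a ≤ i ∧ i ≤ a + ω := by
    intro i hi
    have h1 := hFwin i hi
    have h2 := hFwin a hamem
    exact ⟨natTrailingDegree_le_of_mem_supp i hi, by omega⟩
  have hl1F : 0 < l1 F := l1_pos hF0
  have hN1pos : (0 : ℝ) < N1 := by
    by_contra hneg
    push Not at hneg
    have : (N1 : ℝ) = 0 := le_antisymm hneg (by positivity)
    rw [this, zero_mul] at hFl1
    linarith
  have hlogl1 : Real.log (l1 F) ≤ Real.log N1 + Real.log p := by
    have h1 := Real.log_le_log hl1F hFl1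
    rwa [Real.log_mul (by positivity) (by positivity)] at h1
  have hrep : Rep E L ((p ^ V : ℕ) : ℤ) h V F := ⟨A', Q, hA', hQ, hFAQ⟩
  -- Step 1
  have hstep1 : ∀ l : List (ℕ → ℤ), (∀ z ∈ l, IsHom E L z ∧
      ∀ s ∈ SS E L, |z s| ≤ ((A : ℕ) : ℤ)) → l.length < T →
      aeval α (Dw l.prod F) = 0 := by
    intro l hl hlen
    by_contra hne
    obtain ⟨⟨A'', Q', hA'', hQ', hG'⟩, hl1', hsupp'⟩ :=
      Rep.prod hh A hL1 hFS hrep l hl (by omega)
    set t := l.length with ht
    set Gt := Dw l.prod F with hGt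
    have hndvd : ¬ f ∣ Gt := by
      rintro ⟨c, hc⟩
      apply hne
      rw [hc, map_mul, hroot, zero_mul]
    have hGt0 : Gt ≠ 0 := by
      intro h0
      apply hndvd
      rw [h0]; exact dvd_zero _
    have hGt' : Gt = C ((p ^ (V - t) : ℕ) : ℤ) * (C ((p ^ t : ℕ) : ℤ) * A'') + h ^ (V - t) * Q' := by
      rw [hG', ← mul_assoc, ← C_mul]
      congr 3
      rw [← Nat.cast_mul, ← pow_add]
      congr 2
      omega
    have hwinG : ∀ i ∈ Gt.support, a ≤ i ∧ i ≤ a + ω := fun i hi =>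
      hwin i (support_Dw _ F hi)
    have hlow := hgain (V - t) _ Q' Gt hGt' hndvd
    have hresne : (0 : ℝ) < |((resultant f Gt f.natDegree Gt.natDegree : ℤ) : ℝ)| := by
      rw [abs_pos]
      exact_mod_cast resultant_ne_zero' f Gt hf hirr hndvd Gt.natDegree le_rfl
    have hup := abs_resultant_le_window f Gt hf hf0 Gt.natDegree le_rfl a ω hwinG
    have hl1pos : 0 < l1 Gt := l1_pos hGt0
    have h1 := hlow.trans (Real.log_le_log hresne hup)
    rw [Real.log_mul (by positivity) (by positivity), Real.log_pow, Real.log_pow] at h1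
    have h2 : Real.log (l1 Gt) ≤ T * Real.log A + (Real.log N1 + Real.log p) := by
      have h3 := Real.log_le_log hl1pos hl1'
      rw [Real.log_mul (by positivity) (by positivity), Real.log_pow] at h3
      have h7 : (t : ℝ) ≤ T := by exact_mod_cast hlen.le
      have h8 : (t : ℝ) * Real.log A ≤ T * Real.log A := by gcongr
      linarith
    have h9 : ((V - T : ℕ) : ℝ) * γ * Real.log p ≤ ((V - t : ℕ) : ℝ) * γ * Real.log p := by
      apply mul_le_mul_of_nonneg_right _ hlogp.le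
      have : V - T ≤ V - t := by omega
      have : ((V - T : ℕ) : ℝ) ≤ ((V - t : ℕ) : ℝ) := by exact_mod_cast this
      gcongr
    have h10 : (n : ℝ) * Real.log (l1 Gt) ≤ n * (T * Real.log A + (Real.log N1 + Real.log p)) := by
      gcongr
    linarith
  -- Step 2
  have hstep2 := vanish_of_small E L A (hspan L hL1 hL2) F hFS α T hstep1
  have hfT : f ^ T ∣ F := pow_dvd_of_vanish f F hf hirr α hroot hα T hF0 hstep2
  -- Step 3
  have hstep3 : ∀ q ∈ P, f ∣ expand ℤ q F := by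
    intro q hq
    by_contra hndvd
    have hqp := hP q hq
    have : Fact q.Prime := ⟨hqp⟩
    obtain ⟨c, hc⟩ := hfT
    obtain ⟨W, hW⟩ := expand_sub_pow q f
    have hpow : ∃ R : ℤ[X], (expand ℤ q f) ^ T = C ((q ^ T : ℕ) : ℤ) * W ^ T + f * R := by
      have h1 : f ∣ (expand ℤ q f) ^ T - (C (q : ℤ) * W) ^ T := by
        have h2 : expand ℤ q f - C (q : ℤ) * W = f ^ q := by rw [hW]; ring
        refine (dvd_pow_self f hqp.ne_zero).trans ?_
        rw [← h2]
        exact sub_dvd_pow_sub_pow _ _ _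
      obtain ⟨R, hR⟩ := h1
      refine ⟨R, ?_⟩
      rw [mul_pow, ← C_pow] at hR
      push_cast
      rw [← hR]; ring
    obtain ⟨R, hR⟩ := hpow
    have hF' : expand ℤ q F = C ((q ^ T : ℕ) : ℤ) * (W ^ T * expand ℤ q c) +
        f * (R * expand ℤ q c) := by
      rw [hc, map_mul, map_pow, hR]; ring
    set E' := (expand ℤ q F).natDegree + n with hE'
    have hdv := pow_dvd_resultant f (expand ℤ q F) _ _ hf _ hF' E' (by omega) (by omega)
    have hne := resultant_ne_zero' f (expand ℤ q F) hf hirr hndvd E' (by omega)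
    have hwinq : ∀ i ∈ (expand ℤ q F).support, a * q ≤ i ∧ i ≤ a * q + ω * q := by
      intro i hi
      obtain ⟨j, hj, rfl⟩ := mem_support_expand hqp.pos hi
      obtain ⟨h1, h2⟩ := hwin j hj
      exact ⟨Nat.mul_le_mul_right q h1, by
        rw [← add_mul]; exact Nat.mul_le_mul_right q h2⟩
    have hup := abs_resultant_le_window f (expand ℤ q F) hf hf0 E' (by omega) (a * q) (ω * q) hwinq
    rw [l1_expand hqp.pos] at hup
    have hlow : ((q ^ T : ℕ) : ℝ) ^ n ≤ |((resultant f (expand ℤ q F) n E' : ℤ) : ℝ)| := by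
      have h4 : (((q ^ T : ℕ) : ℤ) ^ n) ≤ |resultant f (expand ℤ q F) n E'| :=
        Int.le_of_dvd (abs_pos.mpr hne) ((dvd_abs _ _).mpr hdv)
      have h5 : (((((q ^ T : ℕ) : ℤ) ^ n : ℤ)) : ℝ) ≤
          ((|resultant f (expand ℤ q F) n E'| : ℤ) : ℝ) := by exact_mod_cast h4
      push_cast at h5 ⊢
      exact h5
    have hmain := hlow.trans hup
    have hqT : (0 : ℝ) < ((q ^ T : ℕ) : ℝ) := by exact_mod_cast pow_pos hqp.pos T
    have h1 := Real.log_le_log (pow_pos hqT _) hmain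
    rw [Real.log_mul (by positivity) (by positivity), Real.log_pow, Real.log_pow,
      Real.log_pow] at h1
    push_cast at h1
    rw [Real.log_pow] at h1
    have h2 := H2 q hq
    have h3 : (n : ℝ) * Real.log (l1 F) ≤ n * (Real.log N1 + Real.log p) := by
      gcongr
    have h4 : (ω : ℝ) * q * Real.log (MM f) = q * ω * Real.log (MM f) := by ring
    linarith
  -- Step 4
  have hcount := count_window f F hf hirr α hroot hα hx0 hnt hF0 D hD
    (fun s hs => dvd_of_mem_SS hDE L s (hFS hs)) x ω hFwin P hstep3 κ hfib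
  exact absurd H3 (not_lt.mpr hcount)

end Pool.Agent.Lib.MP_7ab245_nt.SQ
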