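import Mathlib

/-! Module SQ-RingA. The local ring of characteristic `p` attached to a prime above `p`. -/

set_option autoImplicit false

open NumberField

namespace Pool.Agent.Lib.MP_7ab245_nt.SQ

theorem exists_ring (L : Type) [Field L] [NumberField L] (p : ℕ) [Fact p.Prime] :
    ∃ (A : Type) (_ : CommRing A) (_ : IsLocalRing A) (_ : CharP A p) (ρ : 𝓞 L →+* A),
      ∀ x : 𝓞 L, ρ x = 0 → ∃ s y : 𝓞 L, IsUnit (ρ s) ∧ s * x = (p : 𝓞 L) * y := by
  have hp : p.Prime := Fact.out
  have hnu : ¬ IsUnit (p : 𝓞 L) := by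
    intro hu
    obtain ⟨y, hy⟩ := hu.exists_right_inv
    have hp0 : (p : ℚ) ≠ 0 := by exact_mod_cast hp.ne_zero
    have h1 : (y : L) = algebraMap ℚ L (1 / (p : ℚ)) := by
      have h2 : (p : L) * (y : L) = 1 := by
        have := congrArg (algebraMap (𝓞 L) L) hy
        simpa using this
      have hpL : (p : L) ≠ 0 := by exact_mod_cast hp.ne_zero
      rw [map_div₀, map_one, map_natCast]
      field_simp
      rw [mul_comm]; exact h2
    have h3 : IsIntegral ℤ (algebraMap ℚ L (1 / (p : ℚ))) := by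
      rw [← h1]
      exact NumberField.RingOfIntegers.isIntegral_coe y
    have h4 : IsIntegral ℤ (1 / (p : ℚ)) :=
      (isIntegral_algebraMap_iff (algebraMap ℚ L).injective).1 h3
    obtain ⟨z, hz⟩ := IsIntegrallyClosed.isIntegral_iff.1 h4
    have h5 : (z : ℚ) * (p : ℚ) = 1 := by
      have : (z : ℚ) = 1 / (p : ℚ) := hz
      rw [this]
      field_simp
    have h6 : z * (p : ℤ) = 1 := by exact_mod_cast h5
    have h7 : IsUnit (p : ℤ) := isUnit_iff_exists_inv'.2 ⟨z, h6⟩
    exact hp.one_lt.ne' (by simpa using Int.isUnit_iff_natAbs_eq.1 h7)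
  have hne : Ideal.span {(p : 𝓞 L)} ≠ ⊤ := fun h => hnu (Ideal.span_singleton_eq_top.1 h)
  obtain ⟨M, hM, hle⟩ := Ideal.exists_le_maximal _ hne
  have hMp : M.IsPrime := hM.isPrime
  have hpM : (p : 𝓞 L) ∈ M := hle (Ideal.mem_span_singleton_self _)
  let S := Localization.AtPrime M
  have hcast : algebraMap (𝓞 L) S (p : 𝓞 L) = (p : S) := map_natCast _ _
  have hS : ¬ IsUnit (p : S) := by
    rw [← hcast, IsLocalization.AtPrime.isUnit_to_map_iff S M]
    exact fun h => h hpM
  have hSne : Ideal.span {(p : S)} ≠ ⊤ := fun h => hS (Ideal.span_singleton_eq_top.1 h)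
  have hnt : Nontrivial (S ⧸ Ideal.span {(p : S)}) := Ideal.Quotient.nontrivial_iff.2 hSne
  have hloc : IsLocalRing (S ⧸ Ideal.span {(p : S)}) :=
    IsLocalRing.of_surjective' (Ideal.Quotient.mk _) Ideal.Quotient.mk_surjective
  have hpz : (p : S ⧸ Ideal.span {(p : S)}) = 0 := by
    have : (Ideal.Quotient.mk (Ideal.span {(p : S)})) (p : S) = 0 :=
      Ideal.Quotient.eq_zero_iff_mem.2 (Ideal.mem_span_singleton_self _)
    rwa [map_natCast] at this
  have hchar : CharP (S ⧸ Ideal.span {(p : S)}) p := (CharP.charP_iff_prime_eq_zero hp).2 hpz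
  refine ⟨S ⧸ Ideal.span {(p : S)}, inferInstance, hloc, hchar,
    (Ideal.Quotient.mk _).comp (algebraMap (𝓞 L) S), fun x hx => ?_⟩
  rw [RingHom.comp_apply, Ideal.Quotient.eq_zero_iff_mem, Ideal.mem_span_singleton] at hx
  obtain ⟨c, hc⟩ := hx
  obtain ⟨y, s, rfl⟩ := IsLocalization.exists_mk'_eq M.primeCompl c
  have h1 : algebraMap (𝓞 L) S (s * x) = algebraMap (𝓞 L) S (p * y) := by
    rw [map_mul, map_mul, hc, hcast]
    have := IsLocalization.mk'_spec' S y s
    calc algebraMap (𝓞 L) S s * ((p : S) * IsLocalization.mk' S y s)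
        = (p : S) * (algebraMap (𝓞 L) S s * IsLocalization.mk' S y s) := by ring
      _ = _ := by rw [this]
  obtain ⟨t, ht⟩ := (IsLocalization.eq_iff_exists M.primeCompl S).1 h1
  refine ⟨t * s, t * y, ?_, ?_⟩
  · have hu : IsUnit (algebraMap (𝓞 L) S ((t * s : M.primeCompl) : 𝓞 L)) :=
      IsLocalization.map_units S (t * s)
    exact hu.map (Ideal.Quotient.mk (Ideal.span {(p : S)}))
  · calc (t : 𝓞 L) * s * x = t * (s * x) := by ring
      _ = t * (p * y) := ht
      _ = p * (t * y) := by ring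

end Pool.Agent.Lib.MP_7ab245_nt.SQ
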