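import Mathlib
import Pool.Agent.Lib.MP_7ab245_nt.SQ.Defs
import Pool.Agent.Lib.MP_7ab245_nt.SQ.RingA
import Pool.Agent.Lib.MP_7ab245_nt.SQ.Chi

/-! Module SQ-ExSetup. The arithmetic data exist.

PROOF. Let `N = ∏ q ∈ PP, q`, `P = f.map (algebraMap ℤ ℚ) * (X ^ N - 1)`, `L = P.SplittingField`: a
number field (`CharZero`, `FiniteDimensional ℚ`), normal over `ℚ` (`Polynomial.SplittingField.instNormal`),
hence Galois (char 0). `R = 𝓞 L`. `G = L ≃ₐ[ℚ] L`, finite; it acts on `𝓞 L` (there is an instance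
`MulSemiringAction (L ≃ₐ[ℚ] L) (𝓞 L)`, or transport: `galRestrict ℤ ℚ L (𝓞 L) : (L ≃ₐ[ℚ] L) ≃*
(𝓞 L ≃ₐ[ℤ] 𝓞 L)`; one may also take `G = 𝓞 L ≃ₐ[ℤ] 𝓞 L` with its tautological action, finite because of
this equivalence). `j : 𝓞 L → L → QQ`, the second map `IsAlgClosed.lift` (`L →ₐ[ℚ] QQ`), injective.
`A`, `ρ`, `ρ_ker` from `exists_ring`.
 `ζ q`: `X ^ q - 1` splits in `L` (divides `X ^ N - 1`) and is separable, so it has `q` roots and `L`
contains a primitive `q`-th root of unity (`q` prime: any root `≠ 1`); it is integral. For `q ∉ PP` put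
`ζ q = 1`.
 `α`: `f` is monic of positive degree (irreducible) and splits in `L`; take a root, integral over `ℤ`.
`α_trans`: a root `x ∈ QQ` of `f` is the image of a root of `f` in `L` (`f` splits in `L`), which is
conjugate to `α` (`f` is irreducible over `ℚ`, `f = minpoly`; `isConjRoot_iff_exists_algEquiv` for the
normal extension `L`).
 `χ`: `exists_chi` applied to `ζ` (as elements of `L`). -/

set_option autoImplicit false

open Polynomial NumberField

namespace Pool.Agent.Lib.MP_7ab245_nt.SQ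

theorem exists_setup (f : ℤ[X]) (hf : f.Monic) (hirr : Irreducible f) (p : ℕ) [Fact p.Prime]
    (PP : Finset ℕ) (hPP : ∀ q ∈ PP, q.Prime) : Nonempty (Setup f p PP) := by
  classical
  set N : ℕ := ∏ q ∈ PP, q with hN
  have hNpos : 0 < N := Finset.prod_pos (fun q hq => (hPP q hq).pos)
  set f0 : ℚ[X] := f.map (algebraMap ℤ ℚ) with hf0
  have hf0m : f0.Monic := hf.map _
  have hf0irr : Irreducible f0 := (hf.irreducible_iff_irreducible_map_fraction_map (K := ℚ)).1 hirr
  let P : ℚ[X] := f0 * (X ^ N - 1)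
  have hXN : ((X : ℚ[X]) ^ N - 1) ≠ 0 := (Polynomial.monic_X_pow_sub_C (1 : ℚ) hNpos.ne').ne_zero
  have hP0 : P ≠ 0 := mul_ne_zero hf0m.ne_zero hXN
  let L : Type := P.SplittingField
  let : Field L := inferInstanceAs (Field P.SplittingField)
  let : Algebra ℚ L := inferInstanceAs (Algebra ℚ P.SplittingField)
  have : Normal ℚ L := Polynomial.SplittingField.instNormal P
  have : FiniteDimensional ℚ L := inferInstanceAs (FiniteDimensional ℚ P.SplittingField)
  have : CharZero L := algebraRat.charZero L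
  have : NumberField L := { to_charZero := inferInstance, to_finiteDimensional := inferInstance }
  have : IsGalois ℚ L := { }
  have hsplit : (P.map (algebraMap ℚ L)).Splits := Polynomial.SplittingField.splits P
  have hPL0 : P.map (algebraMap ℚ L) ≠ 0 := (Polynomial.map_ne_zero_iff (algebraMap ℚ L).injective).2 hP0
  have hfs : (f0.map (algebraMap ℚ L)).Splits :=
    hsplit.of_dvd hPL0 (Polynomial.map_dvd _ (Dvd.intro _ rfl))
  have hqs : ∀ q ∈ PP, ((X : L[X]) ^ q - 1).Splits := by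
    intro q hq
    refine hsplit.of_dvd hPL0 ?_
    have h1 : ((X : ℚ[X]) ^ q - 1) ∣ (X ^ N - 1) := by
      obtain ⟨c, hc⟩ := Finset.dvd_prod_of_mem (fun q => q) hq
      rw [hN, hc, pow_mul]
      have := sub_dvd_pow_sub_pow ((X : ℚ[X]) ^ q) 1 c
      rwa [one_pow] at this
    have h2 := Polynomial.map_dvd (algebraMap ℚ L) (h1.trans (Dvd.intro_left f0 rfl : (X ^ N - 1) ∣ P))
    simpa using h2
  let i : L →ₐ[ℚ] Few.QQ := IsAlgClosed.lift
  have hi : Function.Injective i := i.toRingHom.injective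
  have hprim : ∀ q ∈ PP, ∃ z : L, IsPrimitiveRoot z q := by
    intro q hq
    have : NeZero q := ⟨(hPP q hq).ne_zero⟩
    obtain ⟨w, hw⟩ := HasEnoughRootsOfUnity.exists_primitiveRoot Few.QQ q
    have hne : ((X : L[X]) ^ q - 1) ≠ 0 :=
      (Polynomial.monic_X_pow_sub_C (1 : L) (hPP q hq).ne_zero).ne_zero
    have hroot : (((X : L[X]) ^ q - 1).map (i : L →+* Few.QQ)).IsRoot w := by
      simp [Polynomial.IsRoot, hw.pow_eq_one]
    obtain ⟨z, hz⟩ := (hqs q hq).mem_range_of_isRoot hne hroot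
    refine ⟨z, ?_⟩
    have : IsPrimitiveRoot (i z) q := by
      have h3 : i z = w := hz
      rw [h3]; exact hw
    exact this.of_map_of_injective hi
  choose! z hz using hprim
  obtain ⟨χ, hχs, hχ⟩ := exists_chi L PP hPP z hz
  obtain ⟨A, iA, ilA, ichA, ρ, hρ⟩ := exists_ring L p
  have hint : ∀ q ∈ PP, IsIntegral ℤ (z q) := fun q hq => (hz q hq).isIntegral (hPP q hq).pos
  -- the root of `f`
  have hdeg : (f0.map (algebraMap ℚ L)).degree ≠ 0 := by
    rw [Polynomial.degree_map]
    exact hf0irr.degree_pos.ne'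
  obtain ⟨a, ha⟩ := hfs.exists_eval_eq_zero hdeg
  have hfL : ∀ x : L, aeval x f = eval x (f0.map (algebraMap ℚ L)) := by
    intro x
    rw [hf0, Polynomial.map_map, Polynomial.eval_map, Polynomial.aeval_def]
    congr 1
  have ha0 : aeval a f = 0 := by rw [hfL]; exact ha
  have haint : IsIntegral ℤ a := ⟨f, hf, ha0⟩
  have hminp : ∀ x : L, aeval x f = 0 → f0 = minpoly ℚ x := by
    intro x hx
    refine minpoly.eq_of_irreducible_of_monic hf0irr ?_ hf0m
    rw [hf0, Polynomial.aeval_map_algebraMap]; exact hx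
  obtain ⟨Z, hZ⟩ : ∃ Z : ℕ → 𝓞 L, ∀ q ∈ PP, algebraMap (𝓞 L) L (Z q) = z q := by
    have : ∀ q, ∃ w : 𝓞 L, q ∈ PP → algebraMap (𝓞 L) L w = z q := by
      intro q
      by_cases h : q ∈ PP
      · exact ⟨⟨z q, hint q h⟩, fun _ => rfl⟩
      · exact ⟨1, fun h' => absurd h' h⟩
    choose Z hZ using this
    exact ⟨Z, hZ⟩
  obtain ⟨α, hα⟩ : ∃ α : 𝓞 L, algebraMap (𝓞 L) L α = a := ⟨⟨a, haint⟩, rfl⟩
  refine ⟨{
    R := 𝓞 L
    G := L ≃ₐ[ℚ] L
    A := A
    cA := iA
    lA := ilA
    chA := ichA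
    j := (i : L →+* Few.QQ).comp (algebraMap (𝓞 L) L)
    j_inj := hi.comp NumberField.RingOfIntegers.coe_injective
    ρ := ρ
    ρ_ker := hρ
    ζ := Z
    ζ_prim := ?_
    χ := χ
    χ_surj := hχs
    χ_spec := ?_
    α := α
    α_root := ?_
    α_trans := ?_ }⟩
  · intro q hq
    refine IsPrimitiveRoot.of_map_of_injective (f := algebraMap (𝓞 L) L) ?_
      NumberField.RingOfIntegers.coe_injective
    rw [hZ q hq]
    exact hz q hq
  · intro g q
    apply NumberField.RingOfIntegers.coe_injective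
    rw [map_pow, hZ q q.2]
    have h1 : algebraMap (𝓞 L) L (g • Z q) = g (algebraMap (𝓞 L) L (Z q)) := rfl
    rw [h1, hZ q q.2]
    exact hχ g q
  · apply NumberField.RingOfIntegers.coe_injective
    rw [map_zero, ← Polynomial.aeval_algebraMap_apply, hα]
    exact ha0
  · intro x hx
    have hroot : ((f0.map (algebraMap ℚ L)).map (i : L →+* Few.QQ)).IsRoot x := by
      rw [Polynomial.IsRoot, hf0, Polynomial.map_map, Polynomial.map_map, Polynomial.eval_map]
      rw [Polynomial.aeval_def] at hx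
      have hc : (((i : L →+* Few.QQ).comp (algebraMap ℚ L)).comp (algebraMap ℤ ℚ)) =
          algebraMap ℤ Few.QQ := Subsingleton.elim _ _
      rw [hc]; exact hx
    have hne : f0.map (algebraMap ℚ L) ≠ 0 := (hf0m.map _).ne_zero
    obtain ⟨y, hy⟩ := hfs.mem_range_of_isRoot hne hroot
    have hy' : i y = x := hy
    have hy0 : aeval y f = 0 := by
      apply hi
      rw [map_zero]
      have : i (aeval y f) = aeval (i y) f := by
        have := Polynomial.aeval_algHom_apply (i.restrictScalars ℤ) y f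
        simpa using this.symm
      rw [this, hy']; exact hx
    have hconj : IsConjRoot ℚ y a := by
      rw [isConjRoot_def, ← hminp y hy0, ← hminp a ha0]
    obtain ⟨σ, hσ⟩ := isConjRoot_iff_exists_algEquiv.1 hconj
    refine ⟨σ, ?_⟩
    change i (σ (algebraMap (𝓞 L) L α)) = x
    rw [hα, hσ]; exact hy'

end Pool.Agent.Lib.MP_7ab245_nt.SQ
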