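import Mathlib
import Pool.Agent.Lib.MP_7ab245_nt.SQ.Defs

/-! Module SQ-HalfRoots. If a condition on the conjugates of `α` holds for half of the `g ∈ G`, then it
holds for half of the roots.

PROOF. `G` acts on `R`; the orbit of `α` is mapped by `j` bijectively onto the set `RR f` of the roots of
`f` in `QQ` (`Few.mem_RR`, `Few.card_RR`: `n` elements; `j (g • α)` is a root because `g • α` is:
`aeval (g • α) f = g • aeval α f = 0`, `f` has integer coefficients; conversely `α_trans`). For
`x ∈ RR f` the fibre `{g | j (g • α) = x}` is a coset of the stabiliser of `α`, so all the fibres have the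
same cardinality `c > 0` and `card G = n * c`. Let `I` be the set of `x ∈ RR f` such that `x = j r` with
`Pr r` for some `r ∈ R`. As `j` is injective, for `g` in the fibre of `x`: `x ∈ I ↔ Pr (g • α)`. So
`card {g // Pr (g • α)} = c * |I|`, and `n * c ≤ 2 * c * |I|`. -/

set_option autoImplicit false

open Polynomial

namespace Pool.Agent.Lib.MP_7ab245_nt.SQ

open Pool.Agent.Lib.MP_7ab245_nt.Few

private theorem aeval_smul (f : ℤ[X]) (p : ℕ) [Fact p.Prime] (PP : Finset ℕ) (S : Setup f p PP)
    (g : S.G) : aeval (S.j (g • S.α)) f = 0 := by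
  have h1 : aeval (g • S.α) f = 0 := by
    have h2 : aeval ((MulSemiringAction.toRingHom S.G S.R g).toIntAlgHom S.α) f =
        (MulSemiringAction.toRingHom S.G S.R g).toIntAlgHom (aeval S.α f) :=
      aeval_algHom_apply _ _ _
    rw [S.α_root, map_zero] at h2
    exact h2
  have h3 : aeval (S.j.toIntAlgHom (g • S.α)) f = S.j.toIntAlgHom (aeval (g • S.α) f) :=
    aeval_algHom_apply _ _ _
  rw [h1, map_zero] at h3
  exact h3

theorem half_roots (f : ℤ[X]) (hf : f.Monic) (hirr : Irreducible f) (p : ℕ)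
    [Fact p.Prime] (PP : Finset ℕ) (S : Setup f p PP) (Pr : S.R → Prop)
    (hhalf : Nat.card S.G ≤ 2 * Nat.card {g : S.G // Pr (g • S.α)}) :
    ∃ I : Finset QQ, I ⊆ RR f ∧ f.natDegree ≤ 2 * I.card ∧ ∀ x ∈ I, ∃ r : S.R, S.j r = x ∧ Pr r := by
  classical
  let F : S.G → QQ := fun g => S.j (g • S.α)
  have hF : ∀ g, F g ∈ RR f := fun g => (mem_RR hf).2 (aeval_smul f p PP S g)
  set c : ℕ := (Finset.univ.filter (fun g : S.G => g • S.α = S.α)).card with hc
  have hc0 : 0 < c := by
    refine Finset.card_pos.2 ⟨1, ?_⟩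
    rw [Finset.mem_filter]
    exact ⟨Finset.mem_univ _, one_smul _ _⟩
  have hfib : ∀ x ∈ RR f, (Finset.univ.filter (fun g : S.G => F g = x)).card = c := by
    intro x hx
    obtain ⟨g₀, hg₀⟩ := S.α_trans x ((mem_RR hf).1 hx)
    refine Finset.card_nbij' (fun g => g₀⁻¹ * g) (fun g => g₀ * g) ?_ ?_ ?_ ?_
    · intro g hg
      simp only [Finset.coe_filter, Finset.mem_univ, true_and, Set.mem_ofPred_eq] at hg ⊢
      have h1 : g • S.α = g₀ • S.α := S.j_inj (by rw [hg₀]; exact hg)
      rw [mul_smul, h1, inv_smul_smul]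
    · intro g hg
      simp only [Finset.coe_filter, Finset.mem_univ, true_and, Set.mem_ofPred_eq] at hg ⊢
      change S.j ((g₀ * g) • S.α) = x
      rw [mul_smul, hg, hg₀]
    · intro g _
      simp
    · intro g _
      simp
  have hG : Fintype.card S.G = f.natDegree * c := by
    rw [← Finset.card_univ, Finset.card_eq_sum_card_fiberwise (f := F) (t := RR f)
      (fun g _ => hF g), Finset.sum_congr rfl hfib, Finset.sum_const, card_RR hf hirr, smul_eq_mul]
  let I : Finset QQ := (RR f).filter (fun x => ∃ r : S.R, S.j r = x ∧ Pr r)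
  refine ⟨I, Finset.filter_subset _ _, ?_, fun x hx => (Finset.mem_filter.1 hx).2⟩
  have hP : (Finset.univ.filter (fun g : S.G => Pr (g • S.α))).card ≤ I.card * c := by
    have h1 : ∀ g ∈ Finset.univ.filter (fun g : S.G => Pr (g • S.α)), F g ∈ I := by
      intro g hg
      rw [Finset.mem_filter] at hg
      exact Finset.mem_filter.2 ⟨hF g, g • S.α, rfl, hg.2⟩
    rw [Finset.card_eq_sum_card_fiberwise (f := F) (t := I) h1]
    calc ∑ x ∈ I, ((Finset.univ.filter (fun g : S.G => Pr (g • S.α))).filter (fun g => F g = x)).card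
        ≤ ∑ _x ∈ I, c := by
          refine Finset.sum_le_sum (fun x hx => ?_)
          rw [← hfib x (Finset.mem_filter.1 hx).1]
          refine Finset.card_le_card (fun g hg => ?_)
          rw [Finset.mem_filter] at hg ⊢
          exact ⟨Finset.mem_univ _, hg.2⟩
      _ = I.card * c := by rw [Finset.sum_const, smul_eq_mul]
  rw [Nat.card_eq_fintype_card, Nat.card_eq_fintype_card, Fintype.card_subtype, hG] at hhalf
  have h2 : f.natDegree * c ≤ (2 * I.card) * c := by
    calc f.natDegree * c ≤ 2 * (Finset.univ.filter (fun g : S.G => Pr (g • S.α))).card := hhalf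
      _ ≤ 2 * (I.card * c) := Nat.mul_le_mul_left _ hP
      _ = (2 * I.card) * c := by ring
  exact Nat.le_of_mul_le_mul_right h2 hc0

theorem lift_root (f : ℤ[X]) (hf : f.Monic) (hirr : Irreducible f) (p : ℕ)
    [Fact p.Prime] (PP : Finset ℕ) (S : Setup f p PP) (x : QQ) (hx : x ∈ RR f) :
    ∃ r : S.R, S.j r = x := by
  obtain ⟨g, hg⟩ := S.α_trans x ((mem_RR hf).1 hx)
  exact ⟨g • S.α, hg⟩

end Pool.Agent.Lib.MP_7ab245_nt.SQ
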