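import Mathlib
import Pool.Agent.Lib.MP_7ab245_nt.Res
import Pool.Agent.Lib.MP_7ab245_nt.SQ.Defs
import Pool.Agent.Lib.MP_7ab245_nt.SQ.HalfRoots

/-! Module SQ-Gain. The `p`-adic gain: if `h` vanishes modulo `p` (in `A`) at half of the conjugates of
`α`, then `resultant f F` is divisible by `p ^ (m n / 2)` for `F ∈ (p, h) ^ m`-type polynomials.

PROOF. `n = natDegree f`. `half_roots` with `Pr r := ρ (aeval r h) = 0` gives `I ⊆ RR f`, `n ≤ 2 |I|`.
For `x ∈ RR f` choose `r_x ∈ R` with `j r_x = x` (`lift_root`; for `x ∈ I` the one of `half_roots`), put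
`y_x = aeval r_x F`. `j (∏ y_x) = ∏_{x ∈ RR f} F(x) = j N`, `N = resultant f F n (natDegree F)`
(`resultant_eq_prod_eval`, as in `abs_resultant_le` in Res.lean; `f` is monic and its roots in `QQ` are
simple, `RR f` is the `toFinset` of the roots); so `∏ y_x = N` in `R`. `N ≠ 0` since `f` is
irreducible and does not divide `F` (`resultant_ne_zero'` in Res.lean).
 For `x ∈ I`, `ρ_ker` gives `s_x, t_x` with `ρ s_x` a unit and `s_x * aeval r_x h = p * t_x`; from
`hF`, `s_x ^ m * y_x = p ^ m * (..)`. Multiply: `(∏_{x ∈ I} s_x ^ m) * N = p ^ (m |I|) * w`.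
 Write `N = p ^ a * u` with `p ∤ u` (ints). If `a < m |I|`, cancel `p ^ a` in the domain `R` (it embeds
in `QQ`): `(∏ s_x ^ m) * u = p * w'`; apply `ρ`: a unit times `(u : A)` is `0`; but `u` is prime to `p`
and `A` has characteristic `p` and is nontrivial, so `(u : A)` is a unit: contradiction. Hence
`a ≥ m |I|`, `|N| ≥ p ^ (m |I|)` and `log |N| ≥ m |I| log p ≥ m (n / 2) log p`. -/

set_option autoImplicit false

open Polynomial

namespace Pool.Agent.Lib.MP_7ab245_nt.SQ

open Pool.Agent.Lib.MP_7ab245_nt.Few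

private theorem gain_aux (f : ℤ[X]) (p : ℕ) [Fact p.Prime] (PP : Finset ℕ) (S : Setup f p PP)
    (σ : S.R) (hσ : IsUnit (S.ρ σ)) : ∀ (k : ℕ) (N : ℤ) (w : S.R),
    σ * (N : S.R) = (p : S.R) ^ k * w → (p : ℤ) ^ k ∣ N := by
  intro k
  induction k with
  | zero => intro N w _; simp
  | succ k ih =>
    intro N w h
    have hp : p.Prime := Fact.out
    have h1 : S.ρ σ * (N : S.A) = 0 := by
      have h2 := congrArg S.ρ h
      rw [map_mul, map_mul, map_intCast, map_pow, map_natCast, CharP.cast_eq_zero,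
        zero_pow (Nat.succ_ne_zero k), zero_mul] at h2
      exact h2
    have h3 : (N : S.A) = 0 := (hσ.mul_right_eq_zero).1 h1
    obtain ⟨N', hN'⟩ := (CharP.intCast_eq_zero_iff S.A p N).1 h3
    have h4 : σ * (N' : S.R) = (p : S.R) ^ k * w := by
      apply S.j_inj
      have h5 := congrArg S.j h
      rw [hN'] at h5
      simp only [map_mul, map_pow, map_natCast, map_intCast, Int.cast_mul, Int.cast_natCast]
        at h5 ⊢
      have hp0 : (p : QQ) ≠ 0 := by exact_mod_cast hp.ne_zero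
      apply mul_left_cancel₀ hp0
      rw [pow_succ] at h5
      linear_combination h5
    obtain ⟨c, hc⟩ := ih N' w h4
    exact ⟨c, by rw [hN', hc, pow_succ]; ring⟩

private theorem gain_prod (f : ℤ[X]) (hf : f.Monic) (hirr : Irreducible f) (F : ℤ[X]) :
    ∏ x ∈ RR f, aeval x F = ((resultant f F f.natDegree F.natDegree : ℤ) : QQ) := by
  classical
  set φ : ℤ →+* QQ := algebraMap ℤ QQ with hφ
  have hdeg : (f.map φ).natDegree = f.natDegree := hf.natDegree_map φ
  have hFdeg : (F.map φ).natDegree ≤ F.natDegree := natDegree_map_le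
  have hs : (f.map φ).Splits := IsAlgClosed.splits _
  have key := resultant_eq_prod_eval (f.map φ) (F.map φ) F.natDegree hFdeg hs
  rw [hdeg, resultant_map_map] at key
  have hlc : (f.map φ).leadingCoeff = 1 := (hf.map φ).leadingCoeff
  rw [hlc, one_pow, one_mul] at key
  have hnd : (f.map φ).roots.Nodup := by
    have hirrQ : Irreducible (f.map (algebraMap ℤ ℚ)) :=
      (hf.irreducible_iff_irreducible_map_fraction_map (K := ℚ)).mp hirr
    have hsep := hirrQ.separable.map (f := algebraMap ℚ QQ)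
    rw [Polynomial.map_map] at hsep
    have heq : (algebraMap ℚ QQ).comp (algebraMap ℤ ℚ) = algebraMap ℤ QQ := RingHom.ext_int _ _
    rw [heq] at hsep
    exact nodup_roots hsep
  have h1 : ((resultant f F f.natDegree F.natDegree : ℤ) : QQ) =
      φ (resultant f F f.natDegree F.natDegree) := by simp [hφ]
  rw [h1, key]
  have h2 : (RR f).val = (f.map φ).roots := by
    unfold RR
    rw [Multiset.toFinset_val, Multiset.dedup_eq_self.2 hnd]
  rw [Finset.prod_eq_multiset_prod, h2]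
  congr 1
  refine Multiset.map_congr rfl fun x _ => ?_
  rw [eval_map]
  rfl

private theorem gain_j (f : ℤ[X]) (p : ℕ) [Fact p.Prime] (PP : Finset ℕ) (S : Setup f p PP)
    (r : S.R) (F : ℤ[X]) : S.j (aeval r F) = aeval (S.j r) F := by
  rw [aeval_def, aeval_def, hom_eval₂]
  congr 1
  exact RingHom.ext_int _ _

theorem gain (f : ℤ[X]) (hf : f.Monic) (hirr : Irreducible f) (p : ℕ)
    [Fact p.Prime] (PP : Finset ℕ) (S : Setup f p PP) (h : ℤ[X])
    (hhalf : Nat.card S.G ≤ 2 * Nat.card {g : S.G // S.ρ (aeval (g • S.α) h) = 0})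
    (m : ℕ) (A' Q' F : ℤ[X]) (hF : F = C ((p ^ m : ℕ) : ℤ) * A' + h ^ m * Q') (hnd : ¬ f ∣ F) :
    (m : ℝ) * ((f.natDegree : ℝ) / 2) * Real.log p ≤
      Real.log |((resultant f F f.natDegree F.natDegree : ℤ) : ℝ)| := by
  classical
  have hp : p.Prime := Fact.out
  obtain ⟨I, hI1, hI2, hI3⟩ := half_roots f hf hirr p PP S
    (fun r => S.ρ (aeval r h) = 0) hhalf
  -- lifts of the roots
  have hlift : ∀ x : QQ, ∃ r : S.R, (x ∈ RR f → S.j r = x) ∧ (x ∈ I → S.ρ (aeval r h) = 0) := by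
    intro x
    by_cases hx : x ∈ I
    · obtain ⟨r, hr1, hr2⟩ := hI3 x hx
      exact ⟨r, fun _ => hr1, fun _ => hr2⟩
    · by_cases hx2 : x ∈ RR f
      · obtain ⟨r, hr⟩ := lift_root f hf hirr p PP S x hx2
        exact ⟨r, fun _ => hr, fun h => absurd h hx⟩
      · exact ⟨0, fun h => absurd h hx2, fun h => absurd h hx⟩
  choose r hr1 hr2 using hlift
  have hst : ∀ x : QQ, ∃ s t : S.R, x ∈ I → (IsUnit (S.ρ s) ∧ s * aeval (r x) h = (p : S.R) * t) := by
    intro x
    by_cases hx : x ∈ I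
    · obtain ⟨s, t, h1, h2⟩ := S.ρ_ker _ (hr2 x hx)
      exact ⟨s, t, fun _ => ⟨h1, h2⟩⟩
    · exact ⟨0, 0, fun h => absurd h hx⟩
  choose s t hst using hst
  obtain ⟨N, hN⟩ : ∃ N : ℤ, N = resultant f F f.natDegree F.natDegree := ⟨_, rfl⟩
  have hprod : ∏ x ∈ RR f, aeval (r x) F = (N : S.R) := by
    apply S.j_inj
    rw [map_prod, map_intCast, hN, ← gain_prod f hf hirr F]
    refine Finset.prod_congr rfl fun x hx => ?_
    rw [gain_j, hr1 x hx]
  have hx : ∀ x ∈ I, s x ^ m * aeval (r x) F =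
      (p : S.R) ^ m * (s x ^ m * aeval (r x) A' + t x ^ m * aeval (r x) Q') := by
    intro x hx
    have h1 : aeval (r x) F = (p : S.R) ^ m * aeval (r x) A' +
        (aeval (r x) h) ^ m * aeval (r x) Q' := by
      rw [hF]
      simp
    rw [h1, mul_add, mul_add]
    have h2 : s x ^ m * ((aeval (r x) h) ^ m * aeval (r x) Q') =
        (s x * aeval (r x) h) ^ m * aeval (r x) Q' := by rw [mul_pow]; ring
    rw [h2, (hst x hx).2, mul_pow]
    ring
  have hmain : (∏ x ∈ I, s x ^ m) * (N : S.R) = (p : S.R) ^ (m * I.card) *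
      ((∏ x ∈ I, (s x ^ m * aeval (r x) A' + t x ^ m * aeval (r x) Q')) *
        ∏ x ∈ RR f \ I, aeval (r x) F) := by
    rw [← hprod, ← Finset.prod_sdiff hI1, mul_comm (∏ x ∈ RR f \ I, aeval (r x) F), ← mul_assoc,
      ← Finset.prod_mul_distrib, Finset.prod_congr rfl hx, Finset.prod_mul_distrib,
      Finset.prod_const, ← pow_mul, mul_assoc]
  have hunit : IsUnit (S.ρ (∏ x ∈ I, s x ^ m)) := by
    rw [map_prod]
    refine Finset.prod_induction _ IsUnit (fun a b ha hb => ha.mul hb) isUnit_one ?_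
    intro x hx
    rw [map_pow]
    exact (hst x hx).1.pow m
  have hdvd := gain_aux f p PP S _ hunit _ _ _ hmain
  have hN0 : N ≠ 0 := by
    rw [hN]
    exact resultant_ne_zero' f F hf hirr hnd _ le_rfl
  have hle : (p : ℤ) ^ (m * I.card) ≤ |N| :=
    Int.le_of_dvd (abs_pos.mpr hN0) ((dvd_abs _ _).mpr hdvd)
  have hle2 : (p : ℝ) ^ (m * I.card) ≤ |(N : ℝ)| := by
    have h1 : (((p : ℤ) ^ (m * I.card) : ℤ) : ℝ) ≤ ((|N| : ℤ) : ℝ) := by exact_mod_cast hle
    push_cast at h1
    exact h1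
  rw [← hN]
  have hlog : ((m * I.card : ℕ) : ℝ) * Real.log p ≤ Real.log |(N : ℝ)| := by
    rw [← Real.log_pow]
    apply Real.log_le_log _ hle2
    have : (0 : ℝ) < p := by exact_mod_cast hp.pos
    positivity
  refine le_trans ?_ hlog
  have hlp : 0 ≤ Real.log p := Real.log_natCast_nonneg p
  apply mul_le_mul_of_nonneg_right _ hlp
  push_cast
  apply mul_le_mul_of_nonneg_left _ (Nat.cast_nonneg m)
  have h3 : (f.natDegree : ℝ) ≤ 2 * I.card := by exact_mod_cast hI2
  linarith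

end Pool.Agent.Lib.MP_7ab245_nt.SQ
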