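import Mathlib

/-! Module SQ-MinNum. A numerical inequality.

PROOF. Take logarithms: `log (1 - 1/(2k)) ≤ -1/(2k)`, so the third factor is at most
`exp (-25 k ^ 3 / (2k)) = exp (-12.5 k ^ 2)`. And `(2 * (100 k ^ 4 + 2)) ^ k = exp (k * log (200 k ^ 4 + 4))`,
`200 k ^ 4 + 4 ≤ 256 k ^ 4` and `log (256 k ^ 4) = 8 log 2 + 4 log k ≤ 5.6 + 4 (k - 1)`, so the product is at
most `exp (k * (1.6 + 4 k) - 12.5 k ^ 2) ≤ exp (1.6 k - 8.5 k ^ 2) ≤ exp (-30) ≤ 1 / 4` for `k ≥ 2`. -/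

set_option autoImplicit false

namespace Pool.Agent.Lib.MP_7ab245_nt.SQ

theorem min_num (k : ℕ) (hk : 2 ≤ k) :
    ((100 * (k : ℝ) ^ 4 + 2) ^ k) * (2 ^ k * (1 - 1 / (2 * (k : ℝ))) ^ (25 * k ^ 3)) ≤ 1 / 4 := by
  have hk2 : (2 : ℝ) ≤ k := by exact_mod_cast hk
  have hk0 : (0 : ℝ) < k := by linarith
  have h1 : (1 - 1 / (2 * (k : ℝ))) ^ (25 * k ^ 3) ≤ Real.exp (-(25 / 2 * (k : ℝ) ^ 2)) := by
    have hle : 1 - 1 / (2 * (k : ℝ)) ≤ Real.exp (-(1 / (2 * (k : ℝ)))) := by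
      have := Real.add_one_le_exp (-(1 / (2 * (k : ℝ))))
      linarith
    have hnn : 0 ≤ 1 - 1 / (2 * (k : ℝ)) := by
      have : 1 / (2 * (k : ℝ)) ≤ 1 := by
        rw [div_le_one (by positivity)]
        linarith
      linarith
    calc (1 - 1 / (2 * (k : ℝ))) ^ (25 * k ^ 3)
        ≤ (Real.exp (-(1 / (2 * (k : ℝ))))) ^ (25 * k ^ 3) := pow_le_pow_left₀ hnn hle _
      _ = Real.exp (-(25 / 2 * (k : ℝ) ^ 2)) := by
        rw [← Real.exp_nat_mul]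
        congr 1
        push_cast
        field_simp
  have h2 : (100 * (k : ℝ) ^ 4 + 2) * 2 ≤ Real.exp (1.6 + 4 * k) := by
    have ha : (100 * (k : ℝ) ^ 4 + 2) * 2 ≤ 256 * (k : ℝ) ^ 4 := by
      have : (2 : ℝ) ^ 4 ≤ (k : ℝ) ^ 4 := pow_le_pow_left₀ (by norm_num) hk2 4
      nlinarith
    have hb : (256 : ℝ) ≤ Real.exp 5.6 := by
      have hl : Real.log 256 = 8 * Real.log 2 := by
        rw [show (256 : ℝ) = 2 ^ (8 : ℕ) by norm_num, Real.log_pow]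
        norm_num
      rw [← Real.log_le_iff_le_exp (by norm_num), hl]
      have := Real.log_two_lt_d9
      linarith
    have hc : (k : ℝ) ^ 4 ≤ Real.exp (4 * (k - 1)) := by
      have h0 := Real.add_one_le_exp ((k : ℝ) - 1)
      have h0' : (k : ℝ) ≤ Real.exp ((k : ℝ) - 1) := by linarith
      calc (k : ℝ) ^ 4 ≤ (Real.exp ((k : ℝ) - 1)) ^ 4 := pow_le_pow_left₀ hk0.le h0' 4
        _ = Real.exp (4 * (k - 1)) := by
          rw [← Real.exp_nat_mul]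
          norm_num
    calc (100 * (k : ℝ) ^ 4 + 2) * 2 ≤ 256 * (k : ℝ) ^ 4 := ha
      _ ≤ Real.exp 5.6 * Real.exp (4 * (k - 1)) := by gcongr
      _ = Real.exp (1.6 + 4 * k) := by
        rw [← Real.exp_add]
        congr 1
        ring
  have h3 : ((100 * (k : ℝ) ^ 4 + 2) ^ k) * 2 ^ k ≤ Real.exp (k * (1.6 + 4 * k)) := by
    rw [← mul_pow, Real.exp_nat_mul]
    exact pow_le_pow_left₀ (by positivity) h2 k
  calc ((100 * (k : ℝ) ^ 4 + 2) ^ k) * (2 ^ k * (1 - 1 / (2 * (k : ℝ))) ^ (25 * k ^ 3))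
      = (((100 * (k : ℝ) ^ 4 + 2) ^ k) * 2 ^ k) * (1 - 1 / (2 * (k : ℝ))) ^ (25 * k ^ 3) := by ring
    _ ≤ Real.exp (k * (1.6 + 4 * k)) * Real.exp (-(25 / 2 * (k : ℝ) ^ 2)) := by
      apply mul_le_mul h3 h1 _ (Real.exp_pos _).le
      apply pow_nonneg
      have : 1 / (2 * (k : ℝ)) ≤ 1 := by
        rw [div_le_one (by positivity)]
        linarith
      linarith
    _ = Real.exp (1.6 * k - 17 / 2 * (k : ℝ) ^ 2) := by
      rw [← Real.exp_add]
      congr 1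
      ring
    _ ≤ Real.exp (-2) := by
      apply Real.exp_le_exp.mpr
      nlinarith
    _ ≤ 1 / 4 := by
      rw [Real.exp_neg, one_div]
      apply inv_anti₀ (by norm_num)
      have h := Real.exp_one_gt_d9
      have : Real.exp 2 = Real.exp 1 * Real.exp 1 := by
        rw [← Real.exp_add]; norm_num
      rw [this]
      nlinarith

end Pool.Agent.Lib.MP_7ab245_nt.SQ
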