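import Mathlib
import Pool.Agent.Lib.MP_7ab245_nt.SQ.Defs
import Pool.Agent.Lib.MP_7ab245_nt.SQ.BadStep
import Pool.Agent.Lib.MP_7ab245_nt.SQ.MinNum

/-! Module SQ-Minimal. A polynomial with at most `k` terms, vanishing at half of the conjugates of `α`
modulo `p`, for which there are few bad primes.

PROOF. `ε = 2 ^ k * (1 - 1/(2k)) ^ (25 k ^ 3) > 0`, `b = 100 k ^ 4`, `θ j = (b + 2) ^ (k - j) * ε ≤ 1/4`
(`min_num`). Let `j` be minimal such that there is `H` with `H.coeff 0 ≠ 0`, `H.support.card = j ≤ k`,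
`natDegree H ≤ natDegree H0`, `#{g | ev .. H ≠ 0} ≤ θ j * card G`. (There is one: `H0 = X ^ a * H` with
`H.coeff 0 ≠ 0`, `a = natTrailingDegree`; since `f` divides `H0` mod `p` and `α` is a root of `f`,
`ev (ρ (g • α)) H0 = 0`, and `ρ (g • α)` is a unit: `α` is a unit of `R` because `|f.coeff 0| = 1`
(`α * (..) = ±1`), so `ev .. H = 0` for all `g`, and `0 ≤ θ j`.)
 `0 < natDegree H`: otherwise `H = C c`, `c ≠ 0`, `ev = c` is a unit, so all `g` fail: `1 ≤ θ j ≤ 1/4`
(`card G > 0`), contradiction. `card {g | ev .. H = 0} ≥ (1 - 1/4) card G ≥ card G / 2`.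
 Suppose `B ⊆ PP`, `p ∉ B`, all `q ∈ B` bad for `D = H.support.gcd id`, `B.card ≥ b`; shrink `B` to
`B.card = b`. `D > 0` as `natDegree H ∈ H.support` is positive. `bad_step` with `m = 25 k ^ 3`
(`4 k m = b`), `η = θ j`: some `q ∈ B` with `H' = classPart (D * q) H` failing for at most
`(b + 1) θ j + ε ≤ (b + 2) θ j = θ (j - 1)` (`ε ≤ θ j` since `j ≤ k`; `j ≥ 1`) of the `g`. `H'.coeff 0 =
H.coeff 0 ≠ 0`, `natDegree H' ≤ natDegree H`, `H'.support = {e ∈ H.support | D q ∣ e}` is a proper subset of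
`H.support` (otherwise `D q ∣ D`), so `j' = H'.support.card ≤ j - 1` and `θ (j - 1) ≤ θ j'`:
contradiction with the minimality of `j`. -/

set_option autoImplicit false

open Polynomial

namespace Pool.Agent.Lib.MP_7ab245_nt.SQ

open Pool.Agent.Lib.MP_7ab245_nt.Few

private lemma coeff_classPart {p : ℕ} (q : ℕ) (H : (ZMod p)[X]) (n : ℕ) :
    (classPart q H).coeff n = if q ∣ n then H.coeff n else 0 := by
  classical
  unfold classPart
  rw [finsetSum_coeff]
  simp only [coeff_monomial]
  by_cases hq : q ∣ n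
  · rw [if_pos hq]
    by_cases hn : H.coeff n = 0
    · rw [hn]
      apply Finset.sum_eq_zero
      intro e _
      split_ifs with h
      · rw [h, hn]
      · rfl
    · rw [Finset.sum_eq_single n]
      · rw [if_pos rfl]
      · intro e _ he
        rw [if_neg he]
      · intro hn'
        exact absurd (Finset.mem_filter.mpr ⟨mem_support_iff.mpr hn, hq⟩) hn'
  · rw [if_neg hq]
    apply Finset.sum_eq_zero
    intro e he
    rw [Finset.mem_filter] at he
    rw [if_neg]
    rintro rfl
    exact hq he.2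

private lemma support_classPart {p : ℕ} (q : ℕ) (H : (ZMod p)[X]) :
    (classPart q H).support = H.support.filter (fun e => q ∣ e) := by
  ext n
  rw [mem_support_iff, coeff_classPart, Finset.mem_filter, mem_support_iff]
  by_cases hq : q ∣ n
  · simp [hq]
  · simp [hq]

private lemma natDegree_classPart_le {p : ℕ} (q : ℕ) (H : (ZMod p)[X]) :
    (classPart q H).natDegree ≤ H.natDegree := by
  rw [natDegree_le_iff_coeff_eq_zero]
  intro n hn
  rw [coeff_classPart, coeff_eq_zero_of_natDegree_lt hn, ite_self]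

private lemma aeval_hom {R R' : Type} [CommRing R] [CommRing R'] (φ : R →+* R') (f : ℤ[X]) (x : R) :
    aeval (φ x) f = φ (aeval x f) := by
  rw [aeval_def, aeval_def, hom_eval₂]
  congr 1
  exact RingHom.ext_int _ _

private lemma ev_map {A : Type} [CommRing A] (p : ℕ) [CharP A p] (z : A) (f : ℤ[X]) :
    ev p z (f.map (Int.castRingHom (ZMod p))) = aeval z f := by
  unfold ev
  rw [eval₂_map, aeval_def]
  congr 1
  exact RingHom.ext_int _ _

private lemma ev_mul {A : Type} [CommRing A] (p : ℕ) [CharP A p] (z : A) (F H : (ZMod p)[X]) :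
    ev p z (F * H) = ev p z F * ev p z H := by
  unfold ev
  rw [eval₂_mul]

private lemma isUnit_root {R : Type} [CommRing R] (f : ℤ[X]) (hf0 : |f.coeff 0| = 1) (x : R)
    (hx : aeval x f = 0) : IsUnit x := by
  have h1 : aeval x (f.divX * X + C (f.coeff 0)) = 0 := by
    rw [divX_mul_X_add, hx]
  rw [map_add, map_mul, aeval_X, aeval_C] at h1
  have h2 : aeval x f.divX * x = - (algebraMap ℤ R (f.coeff 0)) := eq_neg_of_add_eq_zero_left h1
  have h3 : IsUnit (aeval x f.divX * x) := by
    rw [h2]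
    apply IsUnit.neg
    have : IsUnit (f.coeff 0) := by
      rcases abs_eq (zero_le_one (α := ℤ)) |>.mp hf0 with h | h
      · rw [h]; exact isUnit_one
      · rw [h]; exact isUnit_one.neg
    exact this.map (algebraMap ℤ R)
  exact isUnit_of_mul_isUnit_right h3

private lemma exists_strip {p : ℕ} [Fact p.Prime] (H0 : (ZMod p)[X]) (hH0 : H0 ≠ 0) :
    ∃ (m : ℕ) (H : (ZMod p)[X]), H0 = X ^ m * H ∧ H.coeff 0 ≠ 0 ∧
      H.support.card ≤ H0.support.card ∧ H.natDegree ≤ H0.natDegree := by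
  obtain ⟨H, h1, h2⟩ := exists_eq_pow_rootMultiplicity_mul_and_not_dvd H0 hH0 0
  rw [C_0, sub_zero] at h1 h2
  refine ⟨_, H, h1, ?_, ?_, ?_⟩
  · intro h
    exact h2 (X_dvd_iff.mpr h)
  · conv_rhs => rw [h1]
    apply Finset.card_le_card_of_injOn (fun e => e + rootMultiplicity 0 H0)
    · intro e he
      have he' : H.coeff e ≠ 0 := mem_support_iff.mp he
      show e + rootMultiplicity 0 H0 ∈ (X ^ rootMultiplicity 0 H0 * H).support
      rw [mem_support_iff, coeff_X_pow_mul]
      exact he'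
    · intro a _ b _ hab
      exact Nat.add_right_cancel hab
  · have hH : H ≠ 0 := by
      rintro rfl
      exact h2 (dvd_zero _)
    conv_rhs => rw [h1]
    rw [natDegree_mul (pow_ne_zero _ X_ne_zero) hH]
    exact Nat.le_add_left _ _

theorem exists_good (f : ℤ[X]) (hf : f.Monic) (hirr : Irreducible f) (hf0 : |f.coeff 0| = 1) (p : ℕ)
    [Fact p.Prime] (PP : Finset ℕ) (hPP : ∀ q ∈ PP, q.Prime) (S : Setup f p PP)
    (k : ℕ) (hk2 : 2 ≤ k) (H0 : (ZMod p)[X]) (hH0 : H0 ≠ 0) (hk : H0.support.card ≤ k)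
    (hfH : f.map (Int.castRingHom (ZMod p)) ∣ H0) :
    ∃ H : (ZMod p)[X], H.coeff 0 ≠ 0 ∧ H.support.card ≤ k ∧ H.natDegree ≤ H0.natDegree ∧
      0 < H.natDegree ∧
      Nat.card S.G ≤ 2 * Nat.card {g : S.G // ev p (S.ρ (g • S.α)) H = 0} ∧
      ∀ B : Finset ℕ, B ⊆ PP → p ∉ B → (∀ q ∈ B, BadPrime f (H.support.gcd id) q) →
        B.card < 100 * k ^ 4 := by
  classical
  have hppos : 0 < p := (Fact.out : p.Prime).pos
  have hkR : (2 : ℝ) ≤ k := by exact_mod_cast hk2
  set N : ℕ := Nat.card S.G with hN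
  have hNpos : 0 < N := by
    rw [hN]; exact Nat.card_pos
  have hNR : (0 : ℝ) < N := by exact_mod_cast hNpos
  set nf : (ZMod p)[X] → ℕ := fun H => Nat.card {g : S.G // ev p (S.ρ (g • S.α)) H ≠ 0} with hnf
  have hsum : ∀ H : (ZMod p)[X], nf H + Nat.card {g : S.G // ev p (S.ρ (g • S.α)) H = 0} = N := by
    intro H
    rw [hnf, hN]
    simp only
    rw [add_comm, ← Nat.card_congr (Equiv.sumCompl (fun g : S.G => ev p (S.ρ (g • S.α)) H = 0)),
      Nat.card_sum]
  obtain ⟨ε, hε⟩ : ∃ ε : ℝ, ε = 2 ^ k * (1 - 1 / (2 * (k : ℝ))) ^ (25 * k ^ 3) := ⟨_, rfl⟩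
  have hε0 : 0 ≤ ε := by
    rw [hε]
    have : (0 : ℝ) ≤ 1 - 1 / (2 * (k : ℝ)) := by
      rw [sub_nonneg, div_le_one (by positivity)]
      linarith
    positivity
  obtain ⟨b, hb⟩ : ∃ b : ℝ, b = 100 * (k : ℝ) ^ 4 + 2 := ⟨_, rfl⟩
  have hb1 : 1 ≤ b := by
    rw [hb]
    have : (0 : ℝ) ≤ 100 * (k : ℝ) ^ 4 := by positivity
    linarith
  have hmin := min_num k hk2
  rw [← hε, ← hb] at hmin
  obtain ⟨θ, hθ⟩ : ∃ θ : ℕ → ℝ, ∀ j, θ j = b ^ (k - j) * ε := ⟨_, fun _ => rfl⟩
  have hθ0 : ∀ j, 0 ≤ θ j := by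
    intro j
    rw [hθ]
    positivity
  have hθε : ∀ j, ε ≤ θ j := by
    intro j
    rw [hθ]
    exact le_mul_of_one_le_left hε0 (one_le_pow₀ hb1)
  have hθ4 : ∀ j, θ j ≤ 1 / 4 := by
    intro j
    rw [hθ]
    refine le_trans ?_ hmin
    exact mul_le_mul_of_nonneg_right (pow_le_pow_right₀ hb1 (Nat.sub_le _ _)) hε0
  -- the predicate
  let Q : (ZMod p)[X] → Prop := fun H => H.coeff 0 ≠ 0 ∧ H.support.card ≤ k ∧
    H.natDegree ≤ H0.natDegree ∧ (nf H : ℝ) ≤ θ H.support.card * N
  have hex : ∃ H, Q H := by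
    obtain ⟨m, H, h1, h2, h3, h4⟩ := exists_strip H0 hH0
    refine ⟨H, h2, h3.trans hk, h4, ?_⟩
    have h5 : nf H = 0 := by
      rw [hnf]
      simp only
      have : IsEmpty {g : S.G // ev p (S.ρ (g • S.α)) H ≠ 0} := by
        refine ⟨fun g => g.2 ?_⟩
        obtain ⟨g, hg⟩ := g
        have ha : aeval (g • S.α) f = 0 := by
          have := aeval_hom (MulSemiringAction.toRingHom S.G S.R g) f S.α
          rw [S.α_root, map_zero] at this
          exact this
        have hz : aeval (S.ρ (g • S.α)) f = 0 := by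
          rw [aeval_hom, ha, map_zero]
        have hu : IsUnit (S.ρ (g • S.α)) := isUnit_root f hf0 _ hz
        obtain ⟨t, ht⟩ := hfH
        have h6 : ev p (S.ρ (g • S.α)) H0 = 0 := by
          rw [ht, ev_mul, ev_map, hz, zero_mul]
        rw [h1, ev_mul] at h6
        have h7 : IsUnit (ev p (S.ρ (g • S.α)) (X ^ m)) := by
          unfold ev
          rw [eval₂_pow, eval₂_X]
          exact hu.pow m
        exact (h7.mul_right_eq_zero).mp h6
      exact Nat.card_of_isEmpty
    rw [h5, Nat.cast_zero]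
    exact mul_nonneg (hθ0 _) hNR.le
  -- minimal support
  obtain ⟨H, hQ, hmini⟩ : ∃ H, Q H ∧ ∀ H', Q H' → H.support.card ≤ H'.support.card := by
    have hex' : ∃ j, ∃ H, Q H ∧ H.support.card = j := by
      obtain ⟨H, hH⟩ := hex
      exact ⟨_, H, hH, rfl⟩
    obtain ⟨H, hH, hj⟩ := Nat.find_spec hex'
    refine ⟨H, hH, fun H' hH' => ?_⟩
    rw [hj]
    exact Nat.find_min' hex' ⟨H', hH', rfl⟩
  obtain ⟨q0, qk, qd, qn⟩ := hQ
  have hnf4 : (nf H : ℝ) ≤ 1 / 4 * N :=
    qn.trans (mul_le_mul_of_nonneg_right (hθ4 _) hNR.le)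
  have hpos : 0 < H.natDegree := by
    rcases Nat.eq_zero_or_pos H.natDegree with h0 | h0
    · exfalso
      rw [natDegree_eq_zero] at h0
      obtain ⟨c, rfl⟩ := h0
      rw [coeff_C_zero] at q0
      have h1 : nf (C c) = N := by
        rw [hnf, hN]
        simp only
        have h2 : ∀ g : S.G, ev p (S.ρ (g • S.α)) (C c) ≠ 0 := by
          intro g
          unfold ev
          rw [eval₂_C]
          intro h3
          exact q0 ((map_eq_zero _).mp h3)
        exact Nat.card_congr (Equiv.subtypeUnivEquiv h2)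
      rw [h1] at hnf4
      linarith
    · exact h0
  refine ⟨H, q0, qk, qd, hpos, ?_, ?_⟩
  · have h1 := hsum H
    have h2 : (nf H : ℝ) + (Nat.card {g : S.G // ev p (S.ρ (g • S.α)) H = 0} : ℝ) = N := by
      exact_mod_cast h1
    have h3 : (N : ℝ) ≤ 2 * (Nat.card {g : S.G // ev p (S.ρ (g • S.α)) H = 0} : ℝ) := by linarith
    exact_mod_cast h3
  · intro B hB hBp hbad
    by_contra hcon
    push Not at hcon
    obtain ⟨B', hB', hcard⟩ := Finset.exists_subset_card_eq hcon
    obtain ⟨D, hD⟩ : ∃ D, D = H.support.gcd id := ⟨_, rfl⟩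
    have hHne : H ≠ 0 := by
      rintro rfl
      simp at hpos
    have hDdvd : ∀ e ∈ H.support, D ∣ e := by
      intro e he
      rw [hD]
      exact Finset.gcd_dvd he
    have hDpos : 0 < D := by
      rcases Nat.eq_zero_or_pos D with h | h
      · exfalso
        have h1 := hDdvd H.natDegree (natDegree_mem_support_of_nonzero hHne)
        rw [h, zero_dvd_iff] at h1
        omega
      · exact h
    have hkpos : 0 < k := by omega
    have hBne : B'.Nonempty := by
      rw [← Finset.card_pos, hcard]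
      positivity
    have hm : 4 * k * (25 * k ^ 3) ≤ B'.card := by
      rw [hcard]
      apply le_of_eq
      ring
    obtain ⟨q, hq, hle⟩ := bad_step f hf hirr hf0 p PP hPP S H D hDpos hDdvd k hk2 qk
      (θ H.support.card) qn B' (hB'.trans hB) (fun h => hBp (hB' h))
      (fun q hq => by rw [hD]; exact hbad q (hB' hq)) (25 * k ^ 3) hm hBne
    rw [← hε] at hle
    have hq2 : 2 ≤ q := (hPP q (hB (hB' hq))).two_le
    have hlt : (classPart (D * q) H).support.card < H.support.card := by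
      rw [support_classPart]
      apply Finset.card_lt_card
      rw [Finset.ssubset_iff_subset_ne]
      refine ⟨Finset.filter_subset _ _, ?_⟩
      intro heq
      rw [Finset.filter_eq_self] at heq
      have h1 : D * q ∣ D := by
        conv_rhs => rw [hD]
        exact Finset.dvd_gcd heq
      have h2 := Nat.le_of_dvd hDpos h1
      nlinarith
    have hQ' : Q (classPart (D * q) H) := by
      refine ⟨?_, hlt.le.trans qk, (natDegree_classPart_le _ _).trans qd, ?_⟩
      · rw [coeff_classPart, if_pos (dvd_zero _)]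
        exact q0
      · refine le_trans hle ?_
        refine mul_le_mul_of_nonneg_right ?_ hNR.le
        have hcR : (B'.card : ℝ) = 100 * (k : ℝ) ^ 4 := by
          rw [hcard]; push_cast; ring
        have h1 : b * θ H.support.card ≤ θ (classPart (D * q) H).support.card := by
          rw [hθ, hθ, ← mul_assoc, ← pow_succ']
          refine mul_le_mul_of_nonneg_right (pow_le_pow_right₀ hb1 ?_) hε0
          omega
        refine le_trans ?_ h1
        rw [hcR, hb]
        have h2 := hθε H.support.card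
        nlinarith
    exact absurd (hmini _ hQ') (not_le.mpr hlt)

end Pool.Agent.Lib.MP_7ab245_nt.SQ
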