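import Mathlib
import Pool.Agent.Lib.MP_7ab245_nt.Few.Core2
import Pool.Agent.Lib.MP_7ab245_nt.SQ.Engine2
import Pool.Agent.Lib.MP_7ab245_nt.SQ.Gain
import Pool.Agent.Lib.MP_7ab245_nt.SQ.Minimal
import Pool.Agent.Lib.MP_7ab245_nt.SQ.ExSetup

/-! The contradiction for small Mahler measure, small primes. -/

set_option autoImplicit false

open Polynomial

namespace Pool.Agent.Lib.MP_7ab245_nt.SQ

open Pool.Agent.Lib.MP_7ab245_nt.Few

lemma ev_lift {A : Type} [CommRing A] (p : ℕ) [Fact p.Prime] [CharP A p] (x : A) (h : ℤ[X]) :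
    ev p x (h.map (Int.castRingHom (ZMod p))) = aeval x h := by
  unfold ev
  rw [eval₂_map, aeval_def]
  congr 1
  exact RingHom.ext_int _ _

lemma gain_hyp (f : ℤ[X]) (p : ℕ) [Fact p.Prime] (PP : Finset ℕ) (S : Setup f p PP)
    (H : (ZMod p)[X]) (h : ℤ[X]) (c : ZMod p) (hh : h.map (Int.castRingHom (ZMod p)) = C c * H)
    (hhalf : Nat.card S.G ≤ 2 * Nat.card {g : S.G // ev p (S.ρ (g • S.α)) H = 0}) :
    Nat.card S.G ≤ 2 * Nat.card {g : S.G // S.ρ (aeval (g • S.α) h) = 0} := by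
  refine hhalf.trans (Nat.mul_le_mul_left 2 ?_)
  have hkey : ∀ g : S.G, ev p (S.ρ (g • S.α)) H = 0 → S.ρ (aeval (g • S.α) h) = 0 := by
    intro g hg
    have h1 : S.ρ (aeval (g • S.α) h) = aeval (S.ρ (g • S.α)) h := by
      rw [aeval_def, aeval_def, hom_eval₂]
      congr 1
      exact RingHom.ext_int _ _
    rw [h1, ← ev_lift p, hh]
    unfold ev at hg ⊢
    rw [eval₂_mul, hg, mul_zero]
  exact Nat.card_le_card_of_injective
    (fun g : {g : S.G // ev p (S.ρ (g • S.α)) H = 0} => (⟨g.1, hkey g.1 g.2⟩ :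
      {g : S.G // S.ρ (aeval (g • S.α) h) = 0}))
    (fun a b hab => by
      have h2 := congrArg Subtype.val hab
      exact Subtype.ext h2)

set_option maxHeartbeats 1000000 in
/-- The contradiction for small Mahler measure. -/
theorem core_s (f : ℤ[X]) (hf : f.Monic) (hirr : Irreducible f) (hf0 : |f.coeff 0| = 1)
    (α : ℂ) (hroot : aeval α f = 0) (hα : α ≠ 0) (hx0 : ∀ x : QQ, aeval x f = 0 → x ≠ 0)
    (hnt : ∀ x : QQ, aeval x f = 0 → ∀ m : ℕ, 0 < m → x ^ m ≠ 1)
    (p : ℕ) [Fact p.Prime] (k : ℕ) (hk2 : 2 ≤ k) (H0 : (ZMod p)[X]) (hH0 : H0 ≠ 0)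
    (hcard : H0.support.card ≤ k) (hfH : f.map (Int.castRingHom (ZMod p)) ∣ H0)
    (hp : Real.log p ≤ 2 * k * Real.log k)
    (V : ℕ) (hV1 : 400 * (k : ℝ) + 120 ≤ V) (hV2 : 20000 * (k : ℝ) ^ 2 ≤ V)
    (hV3 : 2 * ((20 * (k : ℝ) + 1) * sg k 1 V + 2) < ((V : ℝ) - 20 * k - 2) * Real.log 2)
    (hμ : Real.log (MM f) * (2 * (V : ℝ) ^ 2 * H0.natDegree) ^ 2 ≤ 2 * k * (f.natDegree : ℝ) ^ 2) :
    False := by
  classical
  set n := f.natDegree with hn
  set d := H0.natDegree with hd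
  have hn1 : 1 ≤ n := by
    rcases Nat.eq_zero_or_pos n with h1 | h1
    · exfalso
      have := hf.natDegree_eq_zero.mp (hn ▸ h1)
      rw [this] at hirr
      exact not_irreducible_one hirr
    · exact h1
  have hnd : n ≤ d := by
    have h1 := natDegree_le_of_dvd hfH hH0
    rwa [hf.natDegree_map] at h1
  have hnR : (1 : ℝ) ≤ n := by exact_mod_cast hn1
  have hndR : (n : ℝ) ≤ d := by exact_mod_cast hnd
  have hkR : (2 : ℝ) ≤ k := by exact_mod_cast hk2
  have hfne : f ≠ 0 := hf.ne_zero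
  have hμ0 : 0 ≤ Real.log (MM f) := Real.log_nonneg (MM_one_le hfne)
  set μ := Real.log (MM f) with hμdef
  have hV120 : (120 : ℝ) ≤ V := by linarith
  have hV120' : 120 ≤ V := by exact_mod_cast hV120
  have hL := log_V_ge V hV120
  have hL4 := log_four_V V hV120
  have hlog2 := Real.log_two_gt_d9
  have hlog2' := Real.log_two_lt_d9
  obtain ⟨σ, hσ⟩ : ∃ σ, σ = sg k 1 V := ⟨_, rfl⟩
  rw [← hσ] at hV3
  have hσle : σ ≤ 8.6 * (k * Real.log V) := by
    rw [hσ]
    unfold sg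
    rw [Real.log_one, add_zero]
    have h1 : (k : ℝ) + 2 ≤ 2 * k := by linarith
    have h0 : 0 ≤ Real.log (4 * (V : ℝ) ^ 4 + 2) := Real.log_nonneg (by
      have : 0 ≤ (V : ℝ) ^ 4 := by positivity
      linarith)
    calc ((k : ℝ) + 2) * Real.log (4 * (V : ℝ) ^ 4 + 2) ≤ (2 * k) * (4.3 * Real.log V) := by
          gcongr
      _ = 8.6 * (k * Real.log V) := by ring
  have hσ0 : 0 ≤ σ := by
    rw [hσ]
    unfold sg
    have h0 : 0 ≤ Real.log (4 * (V : ℝ) ^ 4 + 2) := Real.log_nonneg (by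
      have : 0 ≤ (V : ℝ) ^ 4 := by positivity
      linarith)
    rw [Real.log_one, add_zero]
    positivity
  -- sizes
  obtain ⟨N1, hN1⟩ : ∃ N1, N1 = (V ^ 4 + 1) ^ k * (V ^ 4 * 1 + 1) := ⟨_, rfl⟩
  obtain ⟨A, hA⟩ : ∃ A, A = (4 * V ^ 4 + 2) ^ (k + 2) * 1 := ⟨_, rfl⟩
  have hlogN1 : Real.log N1 ≤ σ := by
    rw [hN1, hσ]; simpa using log_N1_le k 1 V le_rfl
  have hlogA : Real.log A ≤ σ := by
    rw [hA, hσ]; simpa using log_A_le k 1 V le_rfl
  have hN1pos : 1 ≤ N1 := by rw [hN1]; exact Nat.one_le_iff_ne_zero.mpr (by positivity)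
  have hApos : 1 ≤ A := by
    rw [hA]
    exact Nat.one_le_iff_ne_zero.mpr (by positivity)
  have hJV : V ^ 3 * V = V ^ 4 := by ring
  -- the window
  obtain ⟨ω, hω⟩ : ∃ ω : ℕ, ω = 2 * V * (V * d) := ⟨_, rfl⟩
  have hωR : (ω : ℝ) = 2 * (V : ℝ) ^ 2 * d := by rw [hω]; push_cast; ring
  obtain ⟨Y, hY⟩ : ∃ Y : ℝ, Y = ω / n := ⟨_, rfl⟩
  have hYn : (ω : ℝ) = Y * n := by rw [hY]; field_simp
  have hYge : 2 * (V : ℝ) ^ 2 ≤ Y := by
    rw [hY, le_div_iff₀ (by linarith), hωR]
    gcongr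
  have hVV : (120 : ℝ) * V ≤ (V : ℝ) ^ 2 := by rw [sq]; gcongr
  have hY28 : 28800 ≤ Y := by linarith
  have hYpos : 0 < Y := by linarith
  -- the range of primes
  obtain ⟨R, hR6, hR1, hR2⟩ := exists_R (1.1 * Y) (by linarith)
  have hR6R : (40000 : ℝ) ≤ R := by exact_mod_cast hR6
  have hmany := primes_many R hR6
  obtain ⟨l16, hl16⟩ : ∃ l : ℝ, l = Real.log (16 * R) := ⟨_, rfl⟩
  rw [← hl16] at hR1 hR2 hmany
  have hl16ge : 13 ≤ l16 := by
    have h3 : ((2 : ℝ) ^ 19) ≤ 16 * R := by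
      have : (2 : ℝ) ^ 19 = 524288 := by norm_num
      rw [this]; linarith
    have h4 := Real.log_le_log (by norm_num) h3
    rw [Real.log_pow, ← hl16] at h4
    push_cast at h4
    linarith
  have hYR : Y ≤ R := by
    have h1 : 1.1 * Y * 13 ≤ 1.1 * Y * l16 := by gcongr
    linarith
  have hcardPP : 1.1 * Y < (PP R).card := by
    by_contra hlt
    push Not at hlt
    have : ((PP R).card : ℝ) * l16 ≤ (1.1 * Y) * l16 := by gcongr
    linarith
  -- the arithmetic data
  have hPPp : ∀ q ∈ PP R, q.Prime := fun q hq => (mem_PP.mp hq).2.1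
  obtain ⟨S⟩ := exists_setup f hf hirr p (PP R) hPPp
  obtain ⟨H, hHc0, hHcard, hHdeg, hHpos, hhalf, hfew⟩ :=
    exists_good f hf hirr hf0 p (PP R) hPPp S k hk2 H0 hH0 hcard hfH
  have hHne : H ≠ 0 := by rintro rfl; simp at hHc0
  have hE0 : 0 ∈ H.support := mem_support_iff.mpr hHc0
  have hEblk : H.support ⊆ Blk H.support 1 := fun e he => mem_Blk.mpr ⟨e, he, le_rfl, by omega⟩
  have hcardN1 : (SS H.support (V ^ 3 * V)).card ≤ N1 := by
    rw [hJV, hN1]
    calc (SS H.support (V ^ 4)).card ≤ (SS (Blk H.support 1) (V ^ 4)).card :=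
          Finset.card_le_card (SS_subset hEblk _)
      _ ≤ (V ^ 4 + 1) ^ H.support.card * (V ^ 4 * 1 + 1) := card_SS_Blk H.support 1 _
      _ ≤ (V ^ 4 + 1) ^ k * (V ^ 4 * 1 + 1) :=
          Nat.mul_le_mul_right _ (Nat.pow_le_pow_right (by omega) hHcard)
  have hσV : σ ≤ V := by
    have h1 : (V - 20 * (k : ℝ) - 2) * Real.log 2 ≤ V := by
      have h2 : (V - 20 * (k : ℝ) - 2) * Real.log 2 ≤ (V - 20 * (k : ℝ) - 2) * 1 := by
        apply mul_le_mul_of_nonneg_left _ (by linarith)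
        linarith
      linarith
    nlinarith
  have hgrow : N1 * (2 * V - 1) ^ (V ^ 3) ≤ (2 * V) ^ (V ^ 3) := by
    apply growth_ok N1 V (by omega) hN1pos
    calc Real.log N1 ≤ σ := hlogN1
      _ ≤ V := hσV
      _ ≤ (V : ℝ) ^ 2 / 2 := by linarith
  -- the monic lift
  obtain ⟨h, hhm, hhs, -, hhmap⟩ := exists_lift p H hHne
  have hhE : h.support ⊆ H.support := by rw [hhs]
  -- gcd of exponents
  obtain ⟨D, hD⟩ : ∃ D : ℕ, D = H.support.gcd id := ⟨_, rfl⟩
  have hdmem : H.natDegree ∈ H.support := natDegree_mem_support_of_nonzero hHne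
  have hDpos : 0 < D := by
    rcases Nat.eq_zero_or_pos D with h0 | h0
    · exfalso
      rw [hD, Finset.gcd_eq_zero_iff] at h0
      have := h0 _ hdmem
      simp only [id] at this
      omega
    · exact h0
  rw [← hD] at hfew
  obtain ⟨B, hB⟩ : ∃ B, B = (PP R).filter (fun q => q ≠ p ∧ BadPrime f D q) := ⟨_, rfl⟩
  obtain ⟨P, hP⟩ : ∃ P, P = (PP R).filter (fun q => q ≠ p ∧ ¬ BadPrime f D q) := ⟨_, rfl⟩
  have hBcard : (B.card : ℝ) ≤ 100 * (k : ℝ) ^ 4 := by
    have h1 := hfew B (by rw [hB]; exact Finset.filter_subset _ _)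
      (by rw [hB, Finset.mem_filter]; rintro ⟨_, h2, _⟩; exact h2 rfl)
      (fun q hq => by rw [hB] at hq; exact (Finset.mem_filter.mp hq).2.2)
    exact_mod_cast h1.le
  have hPB : (PP R).card ≤ P.card + B.card + 1 := by
    have h1 : PP R ⊆ insert p (P ∪ B) := by
      intro q hq
      rw [Finset.mem_insert, Finset.mem_union, hP, hB, Finset.mem_filter, Finset.mem_filter]
      by_cases h2 : q = p
      · exact Or.inl h2
      · by_cases h3 : BadPrime f D q
        · exact Or.inr (Or.inr ⟨hq, h2, h3⟩)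
        · exact Or.inr (Or.inl ⟨hq, h2, h3⟩)
    calc (PP R).card ≤ (insert p (P ∪ B)).card := Finset.card_le_card h1
      _ ≤ (P ∪ B).card + 1 := Finset.card_insert_le _ _
      _ ≤ P.card + B.card + 1 := by
          have := Finset.card_union_le P B
          omega
  have hk4 : (1 : ℝ) ≤ (k : ℝ) ^ 4 := one_le_pow₀ (by linarith)
  have hYk : 800000000 * (k : ℝ) ^ 4 ≤ Y := by
    calc 800000000 * (k : ℝ) ^ 4 = 2 * (20000 * (k : ℝ) ^ 2) ^ 2 := by ring
      _ ≤ 2 * (V : ℝ) ^ 2 := by gcongr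
      _ ≤ Y := hYge
  have hPcard : Y < P.card := by
    have h1 : ((PP R).card : ℝ) ≤ P.card + B.card + 1 := by exact_mod_cast hPB
    linarith
  -- consequences of the hypothesis
  have hμ1 : μ * Y ^ 2 ≤ 2 * k := by
    have h1 : μ * (2 * (V : ℝ) ^ 2 * d) ^ 2 = (μ * Y ^ 2) * (n : ℝ) ^ 2 := by
      rw [← hωR, hYn]; ring
    rw [h1] at hμ
    exact le_of_mul_le_mul_right hμ (by positivity)
  have hkY : 2 * (k : ℝ) ≤ Y := by
    have h1 : (k : ℝ) ≤ (k : ℝ) ^ 4 := le_self_pow₀ (by linarith) (by norm_num)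
    linarith
  have hμY : Y * μ ≤ 1 := by
    have h1 : (Y * μ) * Y ≤ 1 * Y := by
      calc (Y * μ) * Y = μ * Y ^ 2 := by ring
        _ ≤ 2 * k := hμ1
        _ ≤ 1 * Y := by linarith
    exact le_of_mul_le_mul_right h1 hYpos
  have hmemP : ∀ q ∈ P, q ≤ 16 * R ∧ q.Prime ∧ R < q := by
    intro q hq
    rw [hP] at hq
    exact mem_PP.mp (Finset.mem_filter.mp hq).1
  have hfib : ∀ q ∈ P, ¬ BadPrime f D q := by
    intro q hq
    rw [hP] at hq
    exact (Finset.mem_filter.mp hq).2.2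
  clear hP hB hPB hBcard hfew
  have hlogp : Real.log 2 ≤ Real.log p :=
    Real.log_le_log (by norm_num) (by exact_mod_cast (Fact.out : p.Prime).two_le)
  refine engine2 f hf hirr hf0 α hroot hα hx0 hnt H.support hE0 d
    (fun s hs => (le_natDegree_of_mem_supp s hs).trans hHdeg) hnd D hDpos
    (fun s hs => by rw [hD]; exact Finset.gcd_dvd (f := id) hs) p h hhm hhE
    ((n : ℝ) / 2) (by positivity)
    (fun m A' Q' F hF hnF => gain f hf hirr p (PP R) S h
      (gain_hyp f p (PP R) S H h _ hhmap hhalf) m A' Q' F hF hnF)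
    V (V ^ 3) (20 * k) N1 A (by omega)
    (Nat.one_le_pow _ _ (by omega)) hcardN1 hgrow ?_ hApos ?_ ω hω.ge P
    (fun q hq => (hmemP q hq).2.1) 1 ?_ ?_ ?_ ?_
  · -- T ≤ V
    have h1 : ((20 * k : ℕ) : ℝ) ≤ (V : ℝ) := by push_cast; linarith
    exact_mod_cast h1
  · -- span
    intro L hL1 hL2
    rw [hJV] at hL2
    rw [hA]
    exact span_ok H.support hE0 1 k L (V ^ 4) le_rfl (by omega) hL2 hHcard H.support hEblk
  · -- fibres
    intro q hq x hx S' hS'
    have hnb := hfib q hq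
    rw [Finset.card_le_one]
    intro a ha b hb
    obtain ⟨⟨y, hy, rfl⟩, ha2⟩ := hS' a ha
    obtain ⟨⟨y', hy', rfl⟩, hb2⟩ := hS' b hb
    by_contra hne
    exact hnb ⟨y, y', hy, hy', hne, ha2.trans hb2.symm⟩
  · -- H1
    have hle : 20 * k ≤ V := by
      have h1 : ((20 * k : ℕ) : ℝ) ≤ (V : ℝ) := by push_cast; linarith
      exact_mod_cast h1
    rw [Nat.cast_sub hle]
    push_cast
    rw [hYn]
    have h1 : (20 * (k : ℝ)) * Real.log A ≤ (20 * (k : ℝ)) * σ := by gcongr
    have h2 : ((V : ℝ) - 20 * k - 2) * Real.log 2 ≤ ((V : ℝ) - 20 * k - 2) * Real.log p := by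
      apply mul_le_mul_of_nonneg_left hlogp; linarith
    have h3 : (20 * (k : ℝ)) * Real.log A + Real.log N1 + Real.log p + Y * μ <
        ((V : ℝ) - 20 * k) * (1 / 2) * Real.log p := by
      linarith
    calc (n : ℝ) * ((20 * (k : ℝ)) * Real.log A + Real.log N1 + Real.log p) + Y * n * μ
        = n * ((20 * (k : ℝ)) * Real.log A + Real.log N1 + Real.log p + Y * μ) := by ring
      _ < n * (((V : ℝ) - 20 * k) * (1 / 2) * Real.log p) :=
          mul_lt_mul_of_pos_left h3 (by linarith)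
      _ = ((V : ℝ) - 20 * k) * (n / 2) * Real.log p := by ring
  · -- H2
    intro q hq
    have hq' := hmemP q hq
    have hqR : (R : ℝ) < q := by exact_mod_cast hq'.2.2
    have hq16 : (q : ℝ) ≤ 16 * R := by exact_mod_cast hq'.1
    have hlogqR : Real.log R ≤ Real.log q := Real.log_le_log (by linarith) hqR.le
    have hlq : 2 * Real.log V ≤ Real.log q := by
      have h1 : (V : ℝ) ^ 2 ≤ q := by linarith
      have h2 := Real.log_le_log (by positivity) h1
      rw [Real.log_pow] at h2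
      push_cast at h2
      exact h2
    have hqle : (q : ℝ) ≤ 1.96 * Y * l16 := by
      have h1 : (28800 : ℝ) * 13 ≤ Y * l16 := by gcongr
      linarith
    have h16 : l16 ≤ 1.27 * Real.log q := by
      have h1 : l16 = Real.log 16 + Real.log R := by
        rw [hl16, Real.log_mul (by norm_num) (by linarith)]
      have h2 : Real.log 16 = 4 * Real.log 2 := by
        have : (16 : ℝ) = 2 ^ 4 := by norm_num
        rw [this, Real.log_pow]; push_cast; ring
      have h3 : 15 * Real.log 2 ≤ Real.log R := by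
        have h4 : ((2 : ℝ) ^ 15) ≤ R := by
          have : (2 : ℝ) ^ 15 = 32768 := by norm_num
          rw [this]; linarith
        have h5 := Real.log_le_log (by norm_num) h4
        rw [Real.log_pow] at h5
        push_cast at h5
        exact h5
      linarith
    have hlq0 : 0 ≤ Real.log q := by linarith
    have hlogk : 2 * Real.log k ≤ Real.log V := by
      have h1 : (k : ℝ) ^ 2 ≤ V := by
        have : (0 : ℝ) ≤ (k : ℝ) ^ 2 := by positivity
        linarith
      have h2 := Real.log_le_log (by positivity) h1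
      rw [Real.log_pow] at h2
      push_cast at h2
      exact h2
    have e1 : (k : ℝ) * Real.log V ≤ k * (Real.log q / 2) := by gcongr; linarith
    have e2 : 2 * (k : ℝ) * Real.log k ≤ k * Real.log V := by
      calc 2 * (k : ℝ) * Real.log k = k * (2 * Real.log k) := by ring
        _ ≤ k * Real.log V := by gcongr
    have hYμ : 0 ≤ Y * μ := by positivity
    have e3 : (q : ℝ) * (Y * μ) ≤ 4.9784 * (k * Real.log q) := by
      calc (q : ℝ) * (Y * μ) ≤ (1.96 * Y * l16) * (Y * μ) := by gcongr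
        _ ≤ (1.96 * Y * (1.27 * Real.log q)) * (Y * μ) := by gcongr
        _ = 2.4892 * Real.log q * (μ * Y ^ 2) := by ring
        _ ≤ 2.4892 * Real.log q * (2 * k) := by gcongr
        _ = 4.9784 * (k * Real.log q) := by ring
    have hkq : 0 < (k : ℝ) * Real.log q := by
      have : 0 < Real.log q := by linarith
      positivity
    rw [hYn]
    push_cast
    have h3 : Real.log N1 + Real.log p + q * (Y * μ) < 20 * k * Real.log q := by
      linarith
    calc (n : ℝ) * (Real.log N1 + Real.log p) + q * (Y * n) * μ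
        = n * (Real.log N1 + Real.log p + q * (Y * μ)) := by ring
      _ < n * (20 * k * Real.log q) := mul_lt_mul_of_pos_left h3 (by linarith)
      _ = n * (20 * k) * Real.log q := by ring
  · -- H3
    rw [one_mul]
    have h1 : (ω : ℝ) < ((P.card * n : ℕ) : ℝ) := by
      push_cast
      rw [hYn]
      apply mul_lt_mul_of_pos_right hPcard; linarith
    exact_mod_cast h1

end Pool.Agent.Lib.MP_7ab245_nt.SQ
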