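import Mathlib

/-! Module SQ-SmallMult. A multiple of `H` modulo `p` with small coefficients (Dirichlet).

PROOF. `H` has `j ≤ k` nonzero coefficients `h_e ∈ ZMod p` (`e ∈ H.support`). To
`c ∈ {0, .., p - 1}` attach the vector of the integers `⌊Q * (c h_e).val / p⌋ ∈ {0, .., Q - 1}`: `p` values
of `c`, at most `Q ^ j ≤ Q ^ k < p` vectors, so two different `c₁, c₂` have the same vector. Put
`c = c₁ - c₂ ≠ 0` in `ZMod p`, `a_e = (c₁ h_e).val - (c₂ h_e).val ∈ ℤ`, `|a_e| < p / Q`,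
`F = ∑ e ∈ H.support, monomial e a_e`. Then `F.map = C c * H ≠ 0`, so `F ≠ 0`;
`F.support ⊆ H.support`. -/

set_option autoImplicit false

open Polynomial

namespace Pool.Agent.Lib.MP_7ab245_nt.SQ

theorem small_multiple (k p Q : ℕ) [Fact p.Prime] (hQ1 : 1 ≤ Q) (hQ : Q ^ k < p) (H : (ZMod p)[X])
    (hcard : H.support.card ≤ k) :
    ∃ (F : ℤ[X]) (c : ZMod p), c ≠ 0 ∧ F.map (Int.castRingHom (ZMod p)) = C c * H ∧
      F.support ⊆ H.support ∧ ∀ e, |(F.coeff e : ℝ)| ≤ (p : ℝ) / Q := by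
  classical
  have hp : 0 < p := (Fact.out : p.Prime).pos
  have hv : ∀ (c : ZMod p) (e : ℕ), Q * (c * H.coeff e).val / p < Q := by
    intro c e
    rw [Nat.div_lt_iff_lt_mul hp]
    exact Nat.mul_lt_mul_of_pos_left (ZMod.val_lt _) hQ1
  -- the vector attached to `c`
  let v : ZMod p → (H.support → Fin Q) := fun c e => ⟨Q * (c * H.coeff e).val / p, hv c e⟩
  have hlt : Fintype.card (H.support → Fin Q) < Fintype.card (ZMod p) := by
    rw [Fintype.card_fun, Fintype.card_fin, Fintype.card_coe, ZMod.card]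
    exact lt_of_le_of_lt (Nat.pow_le_pow_right hQ1 hcard) hQ
  obtain ⟨c₁, c₂, hne, he⟩ := Fintype.exists_ne_map_eq_of_card_lt v hlt
  have hfl : ∀ e ∈ H.support, Q * (c₁ * H.coeff e).val / p = Q * (c₂ * H.coeff e).val / p := by
    intro e hem
    have h1 := congrFun he ⟨e, hem⟩
    exact congrArg Fin.val h1
  let a : ℕ → ℤ := fun e => ((c₁ * H.coeff e).val : ℤ) - ((c₂ * H.coeff e).val : ℤ)
  let F : ℤ[X] := ∑ e ∈ H.support, monomial e (a e)
  have hF : ∀ e, F.coeff e = if e ∈ H.support then a e else 0 := by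
    intro e
    simp only [F, finsetSum_coeff, coeff_monomial]
    rw [Finset.sum_ite_eq' H.support e a]
  have hQr : (0 : ℝ) < Q := by exact_mod_cast hQ1
  have hpr : (0 : ℝ) < p := by exact_mod_cast hp
  refine ⟨F, c₁ - c₂, sub_ne_zero.2 hne, ?_, ?_, ?_⟩
  · ext e
    rw [coeff_map, hF e, coeff_C_mul]
    by_cases hem : e ∈ H.support
    · rw [if_pos hem]
      simp only [a]
      rw [map_sub, map_natCast, map_natCast, ZMod.natCast_val, ZMod.natCast_val, ZMod.cast_id,
        ZMod.cast_id]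
      ring
    · rw [if_neg hem, map_zero, notMem_support_iff.1 hem, mul_zero]
  · intro e he2
    by_contra hem
    rw [mem_support_iff, hF e, if_neg hem] at he2
    exact he2 rfl
  · intro e
    rw [hF e]
    by_cases hem : e ∈ H.support
    · rw [if_pos hem]
      have h1 := hfl e hem
      set x : ℕ := (c₁ * H.coeff e).val with hx
      set y : ℕ := (c₂ * H.coeff e).val with hy
      have ha : a e = (x : ℤ) - (y : ℤ) := rfl
      rw [ha, le_div_iff₀ hQr]
      have hxd := Nat.div_add_mod (Q * x) p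
      have hyd := Nat.div_add_mod (Q * y) p
      have hxm := Nat.mod_lt (Q * x) hp
      have hym := Nat.mod_lt (Q * y) hp
      rw [h1] at hxd
      have e1 : ((Q : ℝ) * x) = (p : ℝ) * ((Q * y / p : ℕ) : ℝ) + ((Q * x % p : ℕ) : ℝ) := by
        exact_mod_cast hxd.symm
      have e2 : ((Q : ℝ) * y) = (p : ℝ) * ((Q * y / p : ℕ) : ℝ) + ((Q * y % p : ℕ) : ℝ) := by
        exact_mod_cast hyd.symm
      have e3 : ((Q * x % p : ℕ) : ℝ) < p := by exact_mod_cast hxm
      have e4 : ((Q * y % p : ℕ) : ℝ) < p := by exact_mod_cast hym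
      have e5 : (0 : ℝ) ≤ ((Q * x % p : ℕ) : ℝ) := Nat.cast_nonneg _
      have e6 : (0 : ℝ) ≤ ((Q * y % p : ℕ) : ℝ) := Nat.cast_nonneg _
      have e7 : |(((x : ℤ) - (y : ℤ) : ℤ) : ℝ)| * Q = |(Q : ℝ) * x - (Q : ℝ) * y| := by
        push_cast
        rw [← mul_sub, abs_mul, abs_of_pos hQr, mul_comm]
      rw [e7, abs_le]
      constructor <;> linarith
    · rw [if_neg hem, Int.cast_zero, abs_zero]
      positivity

end Pool.Agent.Lib.MP_7ab245_nt.SQ
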