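import Mathlib
import Pool.Agent.Lib.MP_7ab245_nt.Few.Main
import Pool.Agent.Lib.MP_7ab245_nt.SQ.SmallMult

/-! Module SQ-LargeP. The case of a large prime: `k log k * 2 ≤ log p`.

PROOF. Take `Q ≥ 1` with `Q ^ k < p ≤ (Q + 1) ^ k` (`Nat.find`/`Nat.findGreatest`), so
`Q + 1 ≥ p ^ (1/k) ≥ k ^ 2 ≥ 4` and `Q ≥ (3/4) p ^ (1/k)`, `log Q ≥ log (3/4) + (1/k) log p`.
 `F`, `c` from `small_multiple`: `F ≠ 0` (mod `p` it is `c H ≠ 0`), `l1 F ≤ k p / Q`,
`natDegree F ≤ d = natDegree H`, and `f` divides `F` modulo `p`, i.e. `F = C p * A' + f * Q'`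
with `A', Q' ∈ ℤ[X]` (`f` monic: division with remainder `%ₘ`, the remainder is `0` mod `p`).
 Case `¬ f ∣ F`: `p ^ n ≤ |resultant f F n d|` (`pow_dvd_resultant`, `resultant_ne_zero'`, or
`main_resultant` in Res.lean) `≤ l1 F ^ n * MM f ^ d` (`abs_resultant_le`). So
`d log M(f) ≥ n (log Q - log k) ≥ n ((1/k) log p + log (3/4) - log k) ≥ n (log k + log (3/4)) ≥ 0.4 n`
(`(1/k) log p ≥ 2 log k`, `k ≥ 2`), and `log M(f) ≥ 0.4 n/d ≥ (n/d)^2 / (3 * 10^8 k^3)` as `n ≤ d`
(`d ≥ 1` since `n ≥ 1`; `f.map` divides `H ≠ 0`).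
 Case `f ∣ F`: `Few.few_main k 0 H.support` applied to `f`, `F`:
`log M(f) ≥ (n / natDegree F) ^ 2 / (3 * 10^6 (k + log 16 / log log 16) ^ 3)`, `natDegree F ≤ d`, and
`log 16 / log (log 16) ≤ 3`, `k + 3 ≤ 4k` (k ≥ 1), so this is at least
`(n / d) ^ 2 / (3 * 10^6 * 64 k ^ 3) ≥ (n / d) ^ 2 / (3 * 10 ^ 8 k ^ 3)`. -/

set_option autoImplicit false

open Polynomial

namespace Pool.Agent.Lib.MP_7ab245_nt.SQ

open Pool.Agent.Lib.MP_7ab245_nt.Few

private lemma loglog_aux : Real.log 16 / Real.log (Real.log 16) ≤ 3 := by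
  have h2 := Real.log_two_gt_d9
  have h2' := Real.log_two_lt_d9
  have h16 : Real.log 16 = 4 * Real.log 2 := by
    rw [show (16 : ℝ) = 2 ^ 4 by norm_num, Real.log_pow]; norm_num
  have he := Real.exp_one_lt_d9
  have h1 : 1 ≤ Real.log (Real.log 16) := by
    rw [Real.le_log_iff_exp_le (by rw [h16]; linarith)]
    rw [h16]; linarith
  rw [div_le_iff₀ (by linarith)]
  rw [h16] at *
  nlinarith

private lemma exists_Q (k p : ℕ) (hk : 2 ≤ k) (hp1 : 1 < p)
    (hp : 2 * k * Real.log k ≤ Real.log p) :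
    ∃ Q : ℕ, 1 ≤ Q ∧ Q ^ k < p ∧ Real.log (3 / 4) + 2 * Real.log k ≤ Real.log Q := by
  classical
  have hk0 : (0 : ℝ) < k := by exact_mod_cast (by omega : 0 < k)
  obtain ⟨Q, hQ1, hQ2⟩ : ∃ Q : ℕ, Q ^ k < p ∧ p ≤ (Q + 1) ^ k := by
    have hex : ∃ n : ℕ, p ≤ (n + 1) ^ k := by
      refine ⟨p, ?_⟩
      calc p ≤ p + 1 := by omega
        _ = (p + 1) ^ 1 := by ring
        _ ≤ (p + 1) ^ k := Nat.pow_le_pow_right (by omega) (by omega)
    refine ⟨Nat.find hex, ?_, Nat.find_spec hex⟩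
    rcases Nat.eq_zero_or_pos (Nat.find hex) with h0 | h0
    · rw [h0, zero_pow (by omega)]; omega
    · have := Nat.find_min hex (m := Nat.find hex - 1) (by omega)
      rw [Nat.sub_add_cancel h0] at this
      omega
  have hp0 : (0 : ℝ) < p := by exact_mod_cast (by omega : 0 < p)
  have h1 : Real.log p ≤ k * Real.log ((Q : ℝ) + 1) := by
    rw [← Real.log_pow]
    apply Real.log_le_log hp0
    exact_mod_cast hQ2
  have h2 : 2 * Real.log k ≤ Real.log ((Q : ℝ) + 1) := by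
    have : (k : ℝ) * (2 * Real.log k) ≤ k * Real.log ((Q : ℝ) + 1) := by linarith
    exact le_of_mul_le_mul_left this hk0
  have h3 : (k : ℝ) ^ 2 ≤ (Q : ℝ) + 1 := by
    have h4 : Real.log ((k : ℝ) ^ 2) ≤ Real.log ((Q : ℝ) + 1) := by
      rw [Real.log_pow]; exact_mod_cast h2
    exact (Real.log_le_log_iff (by positivity) (by positivity)).mp h4
  have hk2 : (2 : ℝ) ≤ k := by exact_mod_cast hk
  have h5 : (3 : ℝ) ≤ Q := by nlinarith
  have hQ3 : 3 ≤ Q := by exact_mod_cast h5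
  refine ⟨Q, by omega, hQ1, ?_⟩
  have h6 : Real.log (3 / 4 * ((Q : ℝ) + 1)) ≤ Real.log Q := by
    apply Real.log_le_log (by positivity)
    linarith
  rw [Real.log_mul (by norm_num) (by positivity)] at h6
  linarith

private lemma dvd_mod (f F : ℤ[X]) (p : ℕ) [Fact p.Prime] (hf : f.Monic)
    (h : f.map (Int.castRingHom (ZMod p)) ∣ F.map (Int.castRingHom (ZMod p))) :
    ∃ A Q : ℤ[X], F = C (p : ℤ) * A + f * Q := by
  have h1 : (F %ₘ f).map (Int.castRingHom (ZMod p)) = 0 := by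
    rw [map_modByMonic _ hf, modByMonic_eq_zero_iff_dvd (hf.map _)]
    exact h
  have h2 : C (p : ℤ) ∣ F %ₘ f := by
    rw [C_dvd_iff_dvd_coeff]
    intro i
    have h3 : ((F %ₘ f).map (Int.castRingHom (ZMod p))).coeff i = 0 := by rw [h1]; simp
    rw [coeff_map] at h3
    exact (ZMod.intCast_zmod_eq_zero_iff_dvd _ p).mp h3
  obtain ⟨A, hA⟩ := h2
  refine ⟨A, F /ₘ f, ?_⟩
  rw [← hA]
  exact (modByMonic_add_div F f).symm

private lemma l1_le (k p Q : ℕ) (F : ℤ[X]) (hcard : F.support.card ≤ k)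
    (hc : ∀ e, |(F.coeff e : ℝ)| ≤ (p : ℝ) / Q) : l1 F ≤ k * ((p : ℝ) / Q) := by
  unfold l1
  calc ∑ i ∈ F.support, |(F.coeff i : ℝ)| ≤ ∑ _i ∈ F.support, (p : ℝ) / Q :=
        Finset.sum_le_sum fun i _ => hc i
    _ = F.support.card * ((p : ℝ) / Q) := by rw [Finset.sum_const, nsmul_eq_mul]
    _ ≤ _ := by gcongr

theorem large_p (k : ℕ) (hk : 2 ≤ k) (p : ℕ) [Fact p.Prime] (hp : 2 * k * Real.log k ≤ Real.log p)
    (f : ℤ[X]) (hf : f.Monic) (hirr : Irreducible f) (hM : 1 < MM f) (H : (ZMod p)[X]) (hH : H ≠ 0)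
    (hcard : H.support.card ≤ k) (hfH : f.map (Int.castRingHom (ZMod p)) ∣ H) :
    ((f.natDegree : ℝ) / H.natDegree) ^ 2 / (300000000 * (k : ℝ) ^ 3) ≤ Real.log (MM f) := by
  have hpp : p.Prime := Fact.out
  have hk0 : (0 : ℝ) < k := by exact_mod_cast (by omega : 0 < k)
  have hk2 : (2 : ℝ) ≤ k := by exact_mod_cast hk
  obtain ⟨Q, hQ1, hQk, hQlog⟩ := exists_Q k p hk hpp.one_lt hp
  obtain ⟨F, c, hc0, hFmap, hFsupp, hFc⟩ := small_multiple k p Q hQ1 hQk H hcard
  have hF0 : F ≠ 0 := by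
    intro h0
    rw [h0, Polynomial.map_zero] at hFmap
    exact mul_ne_zero (C_ne_zero.mpr hc0) hH hFmap.symm
  have hFcard : F.support.card ≤ k := (Finset.card_le_card hFsupp).trans hcard
  have hFdeg : F.natDegree ≤ H.natDegree :=
    le_natDegree_of_mem_supp _ (hFsupp (natDegree_mem_support_of_nonzero hF0))
  have hndeg : f.natDegree ≤ H.natDegree := by
    have := natDegree_le_of_dvd hfH hH
    rwa [hf.natDegree_map] at this
  have hn1 : 1 ≤ f.natDegree := by
    rcases Nat.eq_zero_or_pos f.natDegree with h | h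
    · rw [hf.natDegree_eq_zero.mp h] at hirr
      exact absurd hirr not_irreducible_one
    · exact h
  have hd1 : 1 ≤ H.natDegree := hn1.trans hndeg
  have hnR : (1 : ℝ) ≤ f.natDegree := by exact_mod_cast hn1
  have hdR : (1 : ℝ) ≤ H.natDegree := by exact_mod_cast hd1
  have hndR : (f.natDegree : ℝ) ≤ H.natDegree := by exact_mod_cast hndeg
  have hlogM : 0 < Real.log (MM f) := Real.log_pos hM
  by_cases hdvd : f ∣ F
  · have h1 := few_main k 0 H.support hcard f F hirr hF0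
      (fun e he => ⟨e, hFsupp he, le_rfl, by omega⟩) hdvd hM
    refine le_trans ?_ h1
    have hFn : 1 ≤ F.natDegree := hn1.trans (natDegree_le_of_dvd hdvd hF0)
    have hFnR : (1 : ℝ) ≤ F.natDegree := by exact_mod_cast hFn
    have hFdR : (F.natDegree : ℝ) ≤ H.natDegree := by exact_mod_cast hFdeg
    have hl : Real.log (((0 : ℕ) : ℝ) + 16) / Real.log (Real.log (((0 : ℕ) : ℝ) + 16)) ≤ 3 := by
      simpa using loglog_aux
    have hl0 : 0 ≤ Real.log (((0 : ℕ) : ℝ) + 16) / Real.log (Real.log (((0 : ℕ) : ℝ) + 16)) := by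
      have h2 := Real.log_two_gt_d9
      have h16 : Real.log 16 = 4 * Real.log 2 := by
        rw [show (16 : ℝ) = 2 ^ 4 by norm_num, Real.log_pow]; norm_num
      have h3 : (1 : ℝ) ≤ Real.log 16 := by rw [h16]; linarith
      have : 0 ≤ Real.log (Real.log 16) := Real.log_nonneg h3
      simp only [Nat.cast_zero, zero_add]
      positivity
    set W := (k : ℝ) + Real.log (((0 : ℕ) : ℝ) + 16) / Real.log (Real.log (((0 : ℕ) : ℝ) + 16)) with hW
    have hW0 : 0 < W := by rw [hW]; linarith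
    have hW4 : W ≤ 4 * k := by rw [hW]; linarith
    have hW3 : 3000000 * W ^ 3 ≤ 300000000 * (k : ℝ) ^ 3 := by
      have : W ^ 3 ≤ (4 * (k : ℝ)) ^ 3 := by gcongr
      nlinarith [pow_pos hk0 3]
    have h5 : (f.natDegree : ℝ) / H.natDegree ≤ (f.natDegree : ℝ) / F.natDegree := by
      gcongr
    calc ((f.natDegree : ℝ) / H.natDegree) ^ 2 / (300000000 * (k : ℝ) ^ 3)
        ≤ ((f.natDegree : ℝ) / F.natDegree) ^ 2 / (300000000 * (k : ℝ) ^ 3) := by gcongr
      _ ≤ ((f.natDegree : ℝ) / F.natDegree) ^ 2 / (3000000 * W ^ 3) := by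
          apply div_le_div_of_nonneg_left (by positivity) (by positivity) hW3
  · obtain ⟨A, Q', hFA⟩ := dvd_mod f F p hf (by rw [hFmap]; exact hfH.mul_left _)
    have h1 := main_resultant f F A Q' hf hirr p hFA hdvd H.natDegree hFdeg hndeg
    have hQ0 : (0 : ℝ) < Q := by exact_mod_cast hQ1
    have hp0 : (0 : ℝ) < p := by exact_mod_cast hpp.pos
    have hMpos : 0 < MM f := by linarith
    have h2 : (p : ℝ) ^ f.natDegree ≤ (k * ((p : ℝ) / Q)) ^ f.natDegree * MM f ^ H.natDegree := by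
      refine h1.trans ?_
      have h3 := l1_le k p Q F hFcard hFc
      have h4 := l1_nonneg F
      gcongr
    have h3 := Real.log_le_log (by positivity) h2
    rw [Real.log_mul (by positivity) (by positivity), Real.log_pow, Real.log_pow, Real.log_pow,
      Real.log_mul (by positivity) (by positivity), Real.log_div (by positivity) (by positivity)] at h3
    have h4 : Real.log 2 ≤ Real.log k := Real.log_le_log (by norm_num) hk2
    have h5 : (1 / 3 : ℝ) ≤ Real.log (3 / 4) + Real.log 2 := by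
      rw [← Real.log_mul (by norm_num) (by norm_num)]
      have := Real.one_sub_inv_le_log_of_pos (show (0 : ℝ) < 3 / 4 * 2 by norm_num)
      norm_num at this ⊢
      linarith
    have h6 : (f.natDegree : ℝ) * (1 / 3) ≤ H.natDegree * Real.log (MM f) := by
      have h7 : (f.natDegree : ℝ) * (1 / 3) ≤ f.natDegree * (Real.log Q - Real.log k) := by
        apply mul_le_mul_of_nonneg_left _ (by linarith)
        linarith
      nlinarith
    have h8 : (f.natDegree : ℝ) / H.natDegree * (1 / 3) ≤ Real.log (MM f) := by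
      rw [div_mul_eq_mul_div, div_le_iff₀ (by linarith)]
      linarith
    have h9 : (f.natDegree : ℝ) / H.natDegree ≤ 1 := by
      rw [div_le_one (by linarith)]; exact hndR
    have h10 : 0 ≤ (f.natDegree : ℝ) / H.natDegree := by positivity
    refine le_trans ?_ h8
    rw [div_le_iff₀ (by positivity)]
    have hk3 : (1 : ℝ) ≤ (k : ℝ) ^ 3 := one_le_pow₀ (by linarith)
    have h11 : ((f.natDegree : ℝ) / H.natDegree) ^ 2 ≤ (f.natDegree : ℝ) / H.natDegree := by
      nlinarith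
    calc ((f.natDegree : ℝ) / H.natDegree) ^ 2 ≤ (f.natDegree : ℝ) / H.natDegree := h11
      _ = (f.natDegree : ℝ) / H.natDegree * (1 / 3) * (3 * 1) := by ring
      _ ≤ (f.natDegree : ℝ) / H.natDegree * (1 / 3) * (300000000 * (k : ℝ) ^ 3) := by
          apply mul_le_mul_of_nonneg_left _ (by positivity)
          nlinarith

end Pool.Agent.Lib.MP_7ab245_nt.SQ
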