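import Mathlib
import Pool.Agent.Lib.MP_7ab245_nt.Few.Params

/-! Module SQ-Params2. Choice of the parameter `V` for small primes. `Few.sg k 1 V` is
`(k + 2) * log (4 V ^ 4 + 2) + log 1` (file Few/Params.lean).

PROOF. `V = ⌈20000 k ^ 2 log (k + 1)⌉₊`, `L = log (k + 1) ≥ log 3 ≥ 1.0986`, `20000 k ^ 2 L ≤ V ≤
20001 k ^ 2 L` (`k ^ 2 L ≥ 1`). `log V ≤ log 20001 + 2 log k + log L ≤ 9.91 + 2 L + (L - 1) ≤ 9 + 3 L`-ish
(`log L ≤ L - 1`; `log 20001 ≤ 9.904`: e.g. `20001 ≤ 2 ^ 15`, `log ≤ 15 log 2 ≤ 10.4`, this is good enough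
too). `Few.log_four_V`: `log (4 V ^ 4 + 2) ≤ 4.3 log V` for `V ≥ 120`. So
`sg k 1 V ≤ 2 k * 4.3 * (10.4 + 3 L) ≤ 8.6 k * 12.5 L = 107.5 k L` (`10.4 ≤ 9.47 L`), and
`2 * ((20 k + 1) * sg + 2) ≤ 2 * (20.5 k * 107.5 k L + 2) ≤ 4410 k ^ 2 L + 4`, while
`(V - 20 k - 2) * log 2 ≥ (20000 k ^ 2 L - 11 k ^ 2) * 0.69 ≥ 13700 k ^ 2 L - 8 k ^ 2 ≥ 13600 k ^ 2 L`.
The other bounds are weaker. -/

set_option autoImplicit false

namespace Pool.Agent.Lib.MP_7ab245_nt.SQ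

open Pool.Agent.Lib.MP_7ab245_nt.Few

private lemma log_three_ge : (1.097 : ℝ) ≤ Real.log 3 := by
  have h1 : Real.log ((2 : ℝ) ^ 19) ≤ Real.log ((3 : ℝ) ^ 12) :=
    Real.log_le_log (by positivity) (by norm_num)
  rw [Real.log_pow, Real.log_pow] at h1
  push_cast at h1
  have := Real.log_two_gt_d9
  linarith

theorem exists_V2 (k : ℕ) (hk : 2 ≤ k) : ∃ V : ℕ, 400 * (k : ℝ) + 120 ≤ V ∧
    20000 * (k : ℝ) ^ 2 ≤ V ∧
    2 * ((20 * (k : ℝ) + 1) * sg k 1 V + 2) < ((V : ℝ) - 20 * k - 2) * Real.log 2 ∧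
    (V : ℝ) ≤ 20001 * (k : ℝ) ^ 2 * Real.log (k + 1) := by
  have hk2 : (2 : ℝ) ≤ k := by exact_mod_cast hk
  obtain ⟨r, hr⟩ : ∃ r : ℝ, r = (k : ℝ) := ⟨_, rfl⟩
  obtain ⟨L, hL⟩ : ∃ L : ℝ, L = Real.log ((k : ℝ) + 1) := ⟨_, rfl⟩
  have hL1 : (1.097 : ℝ) ≤ L := by
    refine log_three_ge.trans ?_
    rw [hL]
    exact Real.log_le_log (by norm_num) (by linarith)
  have hsq : 2 * (k : ℝ) ≤ (k : ℝ) ^ 2 := by nlinarith
  obtain ⟨y, hy⟩ : ∃ y : ℝ, y = (k : ℝ) ^ 2 * L := ⟨_, rfl⟩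
  have hky : (k : ℝ) ^ 2 * 1.097 ≤ y := by
    rw [hy]
    exact mul_le_mul_of_nonneg_left hL1 (by positivity)
  have hV1 : 20000 * y ≤ (⌈20000 * y⌉₊ : ℝ) := Nat.le_ceil _
  have hy0 : 0 ≤ 20000 * y := by nlinarith
  have hV2 : (⌈20000 * y⌉₊ : ℝ) < 20000 * y + 1 := Nat.ceil_lt_add_one hy0
  have hy4 : 4 ≤ y := by nlinarith
  refine ⟨⌈20000 * y⌉₊, ?_, ?_, ?_, ?_⟩
  · nlinarith
  · nlinarith
  · obtain ⟨V, hVdef⟩ : ∃ V : ℝ, V = (⌈20000 * y⌉₊ : ℝ) := ⟨_, rfl⟩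
    rw [← hVdef] at hV1 hV2 ⊢
    have hV120 : 120 ≤ V := by linarith
    have hV0 : 0 < V := by linarith
    -- the logarithm of V
    have hlogV : Real.log V ≤ 9.4 + 3 * L := by
      have h1 : V ≤ (2 : ℝ) ^ 15 * ((k : ℝ) ^ 2 * L) := by
        rw [← hy]
        norm_num
        linarith
      have h2 := Real.log_le_log hV0 h1
      have hL0 : 0 < L := by linarith
      rw [Real.log_mul (by positivity) (by positivity), Real.log_mul (by positivity) hL0.ne',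
        Real.log_pow, Real.log_pow] at h2
      push_cast at h2
      have h3 : Real.log (k : ℝ) ≤ L := by
        rw [hL]
        exact Real.log_le_log (by linarith) (by linarith)
      have h4 : Real.log L ≤ L - 1 := Real.log_le_sub_one_of_pos hL0
      have h5 := Real.log_two_lt_d9
      linarith
    have hlog4 := log_four_V V hV120
    have hlog0 : 0 ≤ Real.log (4 * V ^ 4 + 2) := Real.log_nonneg (by
      have : 0 ≤ V ^ 4 := by positivity
      linarith)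
    have hsg : sg k 1 V ≤ 100 * ((k : ℝ) * L) := by
      unfold sg
      rw [Real.log_one, add_zero]
      have h1 : Real.log (4 * V ^ 4 + 2) ≤ 50 * L := by linarith
      have h2 : ((k : ℝ) + 2) * Real.log (4 * V ^ 4 + 2) ≤ (2 * k) * (50 * L) :=
        mul_le_mul (by linarith) h1 hlog0 (by linarith)
      linarith
    have hsg0 : 0 ≤ sg k 1 V := by
      unfold sg
      rw [Real.log_one, add_zero]
      exact mul_nonneg (by linarith) hlog0
    have hprod : (20 * (k : ℝ) + 1) * sg k 1 V ≤ 2050 * y := by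
      have h1 : (20 * (k : ℝ) + 1) * sg k 1 V ≤ (20.5 * k) * (100 * ((k : ℝ) * L)) :=
        mul_le_mul (by linarith) hsg hsg0 (by linarith)
      have h2 : (20.5 * (k : ℝ)) * (100 * ((k : ℝ) * L)) = 2050 * y := by
        rw [hy]
        ring
      linarith
    have hk3 : 20 * (k : ℝ) ≤ 10 * y := by linarith
    have hlog2 := Real.log_two_gt_d9
    have h6 : (19990 * y - 2) * 0.69 ≤ (V - 20 * k - 2) * Real.log 2 :=
      mul_le_mul (by linarith) (by linarith) (by norm_num) (by linarith)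
    linarith
  · have h1 : 20001 * (k : ℝ) ^ 2 * Real.log (k + 1) = 20001 * y := by
      rw [hy, hL]
      ring
    rw [h1]
    linarith

end Pool.Agent.Lib.MP_7ab245_nt.SQ
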