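import Mathlib
import Pool.Agent.Lib.MP_7ab245_nt.Few.Main
import Pool.Agent.Lib.MP_7ab245_nt.SQ.CoreS
import Pool.Agent.Lib.MP_7ab245_nt.SQ.LargeP
import Pool.Agent.Lib.MP_7ab245_nt.SQ.Params2

/-! The main theorem. -/

set_option autoImplicit false

open Polynomial

namespace Pool.Agent.Lib.MP_7ab245_nt.SQ

open Pool.Agent.Lib.MP_7ab245_nt.Few

/-- The monic case, for small primes and Mahler measure less than two. -/
theorem sq_monic (k : ℕ) (hk : 2 ≤ k) (p : ℕ) [Fact p.Prime]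
    (hp : Real.log p ≤ 2 * k * Real.log k) (f : ℤ[X]) (hf : f.Monic) (hirr : Irreducible f)
    (hM : 1 < MM f) (hM2 : MM f < 2) (H : (ZMod p)[X]) (hH : H ≠ 0)
    (hcard : H.support.card ≤ k) (hfH : f.map (Int.castRingHom (ZMod p)) ∣ H) :
    (1 / 10 ^ 18) * ((f.natDegree : ℝ) / H.natDegree) ^ 2 / ((k : ℝ) ^ 7 * Real.log (k + 1) ^ 4) ≤
      Real.log (MM f) := by
  classical
  have hfne : f ≠ 0 := hf.ne_zero
  have hn1 : 1 ≤ f.natDegree := by
    rcases Nat.eq_zero_or_pos f.natDegree with h1 | h1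
    · exfalso
      have := hf.natDegree_eq_zero.mp h1
      rw [this] at hirr
      exact not_irreducible_one hirr
    · exact h1
  have hf00 : f.coeff 0 ≠ 0 := by
    intro h0
    have h1 : X ∣ f := X_dvd_iff.mpr h0
    obtain ⟨c, hc⟩ := h1
    rcases hirr.isUnit_or_isUnit hc with hu | hu
    · exact not_isUnit_X hu
    · obtain ⟨u, hu, hcu⟩ := Polynomial.isUnit_iff.mp hu
      have : MM f = 1 := by
        rw [hc, MM_mul, MM_X, one_mul, ← hcu, MM_C]
        rcases Int.isUnit_iff.mp hu with h4 | h4 <;> rw [h4] <;> simp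
      linarith
  have hf0 : |f.coeff 0| = 1 := by
    have h1 := norm_coeff_le_choose_mul_mahlerMeasure 0 (f.map (Int.castRingHom ℂ))
    rw [Nat.choose_zero_right, Nat.cast_one, one_mul, coeff_map] at h1
    have h2 : ‖(Int.castRingHom ℂ) (f.coeff 0)‖ = ((|f.coeff 0| : ℤ) : ℝ) := by simp
    rw [h2] at h1
    have h3 : ((|f.coeff 0| : ℤ) : ℝ) < ((2 : ℤ) : ℝ) := by
      push_cast
      push_cast at h1
      linarith
    have h4 : |f.coeff 0| < 2 := by exact_mod_cast h3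
    have h5 := abs_pos.mpr hf00
    exact le_antisymm (Int.lt_add_one_iff.mp h4) h5
  -- a complex root
  obtain ⟨α, hα⟩ : ∃ α : ℂ, aeval α f = 0 := by
    have h1 : (f.map (Int.castRingHom ℂ)).degree ≠ 0 := by
      rw [degree_map_eq_of_injective (Int.castRingHom ℂ).injective_int]
      intro h0
      exact absurd (natDegree_eq_zero_iff_degree_le_zero.mpr h0.le) (by omega)
    obtain ⟨z, hz⟩ := IsAlgClosed.exists_root _ h1
    rw [IsRoot.def, eval_map] at hz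
    exact ⟨z, hz⟩
  have hα0 : α ≠ 0 := by
    rintro rfl
    apply hf00
    have h1 : aeval (0 : ℂ) f = ((f.coeff 0 : ℤ) : ℂ) := by
      rw [← coeff_zero_eq_aeval_zero' ]; rfl
    rw [h1] at hα
    exact_mod_cast hα
  have hx0 : ∀ x : QQ, aeval x f = 0 → x ≠ 0 := by
    rintro x hx rfl
    apply hf00
    have h1 : aeval (0 : QQ) f = ((f.coeff 0 : ℤ) : QQ) := by
      rw [← coeff_zero_eq_aeval_zero' ]; rfl
    rw [h1] at hx
    exact_mod_cast hx
  have hnt : ∀ x : QQ, aeval x f = 0 → ∀ m : ℕ, 0 < m → x ^ m ≠ 1 := by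
    intro x hx m hm hxm
    have h1 : f ∣ X ^ m - 1 := by
      apply dvd_of_root' f hf hirr x hx
      rw [map_sub, map_pow, aeval_X, map_one, hxm, sub_self]
    obtain ⟨c, hc⟩ := h1
    have hne : (X ^ m - 1 : ℤ[X]) ≠ 0 := (monic_X_pow_sub_C (1 : ℤ) hm.ne').ne_zero
    have hcne : c ≠ 0 := by
      rintro rfl
      rw [mul_zero] at hc
      exact hne hc
    have h2 := MM_X_pow_sub_one m hm
    rw [hc, MM_mul] at h2
    have h3 := MM_one_le hcne
    nlinarith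
  have hnd : f.natDegree ≤ H.natDegree := by
    have h1 := natDegree_le_of_dvd hfH hH
    rwa [hf.natDegree_map] at h1
  obtain ⟨V, hV1, hV2, hV3, hV4⟩ := exists_V2 k hk
  by_contra hcon
  push Not at hcon
  refine core_s f hf hirr hf0 α hα hα0 hx0 hnt p k hk H hH hcard hfH hp V hV1 hV2 hV3 ?_
  have hkR : (2 : ℝ) ≤ k := by exact_mod_cast hk
  obtain ⟨L, hL⟩ : ∃ L : ℝ, L = Real.log (k + 1) := ⟨_, rfl⟩
  rw [← hL] at hV4 hcon
  have hLpos : 0 < L := by
    rw [hL]; exact Real.log_pos (by linarith)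
  obtain ⟨n, hn⟩ : ∃ n : ℝ, n = f.natDegree := ⟨_, rfl⟩
  obtain ⟨d, hd⟩ : ∃ d : ℝ, d = H.natDegree := ⟨_, rfl⟩
  obtain ⟨μ, hμ⟩ : ∃ μ : ℝ, μ = Real.log (MM f) := ⟨_, rfl⟩
  have hn1R : (1 : ℝ) ≤ n := by rw [hn]; exact_mod_cast hn1
  have hd1R : (1 : ℝ) ≤ d := by rw [hd]; exact_mod_cast hn1.trans hnd
  have hμ0 : 0 ≤ μ := by rw [hμ]; exact Real.log_nonneg hM.le
  rw [← hn, ← hd, ← hμ] at hcon
  rw [← hn, ← hd, ← hμ]
  rw [lt_div_iff₀ (by positivity)] at hcon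
  have h2 : μ * ((k : ℝ) ^ 7 * L ^ 4) * d ^ 2 ≤ (1 / 10 ^ 18) * n ^ 2 := by
    have h3 : μ * ((k : ℝ) ^ 7 * L ^ 4) * d ^ 2 ≤ (1 / 10 ^ 18 * (n / d) ^ 2) * d ^ 2 := by gcongr
    have h4 : (1 / 10 ^ 18 * (n / d) ^ 2) * d ^ 2 = (1 / 10 ^ 18) * n ^ 2 := by
      field_simp
    rwa [h4] at h3
  have hV0 : (0 : ℝ) ≤ V := by positivity
  have hV44 : (V : ℝ) ^ 4 ≤ (20001 * (k : ℝ) ^ 2 * L) ^ 4 := by gcongr
  calc μ * (2 * (V : ℝ) ^ 2 * d) ^ 2 = 4 * (V : ℝ) ^ 4 * (μ * d ^ 2) := by ring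
    _ ≤ 4 * (20001 * (k : ℝ) ^ 2 * L) ^ 4 * (μ * d ^ 2) := by gcongr
    _ = (4 * 20001 ^ 4 * k) * (μ * ((k : ℝ) ^ 7 * L ^ 4) * d ^ 2) := by ring
    _ ≤ (4 * 20001 ^ 4 * k) * ((1 / 10 ^ 18) * n ^ 2) := by gcongr
    _ ≤ 2 * k * n ^ 2 := by
        have h5 : 0 ≤ k * n ^ 2 := by positivity
        nlinarith

/-- The monic case. -/
theorem sq_monic' (k : ℕ) (hk : 2 ≤ k) (p : ℕ) [Fact p.Prime]
    (f : ℤ[X]) (hf : f.Monic) (hirr : Irreducible f)
    (hM : 1 < MM f) (hM2 : MM f < 2) (H : (ZMod p)[X]) (hH : H ≠ 0)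
    (hcard : H.support.card ≤ k) (hfH : f.map (Int.castRingHom (ZMod p)) ∣ H) :
    (1 / 10 ^ 18) * ((f.natDegree : ℝ) / H.natDegree) ^ 2 / ((k : ℝ) ^ 7 * Real.log (k + 1) ^ 4) ≤
      Real.log (MM f) := by
  rcases le_total (Real.log p) (2 * k * Real.log k) with hp | hp
  · exact sq_monic k hk p hp f hf hirr hM hM2 H hH hcard hfH
  · refine le_trans ?_ (large_p k hk p hp f hf hirr hM H hH hcard hfH)
    have hkR : (2 : ℝ) ≤ k := by exact_mod_cast hk
    have hlog3 : (1 : ℝ) ≤ Real.log (k + 1) := by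
      rw [Real.le_log_iff_exp_le (by linarith)]
      have := Real.exp_one_lt_d9
      linarith
    obtain ⟨r, hr⟩ : ∃ r : ℝ, r = ((f.natDegree : ℝ) / H.natDegree) ^ 2 := ⟨_, rfl⟩
    have hr0 : 0 ≤ r := by rw [hr]; positivity
    rw [← hr]
    rw [div_le_div_iff₀ (by positivity) (by positivity)]
    have h1 : (1 : ℝ) ≤ Real.log (k + 1) ^ 4 := one_le_pow₀ hlog3
    have h2 : (k : ℝ) ^ 3 ≤ (k : ℝ) ^ 7 := pow_le_pow_right₀ (by linarith) (by norm_num)
    have h3 : (k : ℝ) ^ 3 ≤ (k : ℝ) ^ 7 * Real.log (k + 1) ^ 4 := by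
      calc (k : ℝ) ^ 3 = (k : ℝ) ^ 3 * 1 := by ring
        _ ≤ (k : ℝ) ^ 7 * Real.log (k + 1) ^ 4 := by gcongr
    calc (1 / 10 ^ 18) * r * (300000000 * (k : ℝ) ^ 3)
        = (300000000 / 10 ^ 18) * (r * (k : ℝ) ^ 3) := by ring
      _ ≤ 1 * (r * ((k : ℝ) ^ 7 * Real.log (k + 1) ^ 4)) := by
          apply mul_le_mul _ _ (by positivity) (by norm_num)
          · norm_num
          · gcongr
      _ = _ := by ring

/-- The case `2 ≤ k`. -/
theorem sq_two (k : ℕ) (hk : 2 ≤ k) (p : ℕ) [Fact p.Prime]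
    (f : ℤ[X]) (hirr : Irreducible f)
    (hM : 1 < MM f) (H : (ZMod p)[X]) (hH : H ≠ 0)
    (hcard : H.support.card ≤ k) (hfH : f.map (Int.castRingHom (ZMod p)) ∣ H)
    (hnd : f.natDegree ≤ H.natDegree) :
    (1 / 10 ^ 18) * ((f.natDegree : ℝ) / H.natDegree) ^ 2 / ((k : ℝ) ^ 7 * Real.log (k + 1) ^ 4) ≤
      Real.log (MM f) := by
  classical
  have hfne : f ≠ 0 := hirr.ne_zero
  by_cases hM2 : MM f < 2
  · -- the leading coefficient
    have hlc : |f.leadingCoeff| = 1 := by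
      have h2 := leadingCoeff_le_mahlerMeasure (f.map (Int.castRingHom ℂ))
      rw [leadingCoeff_map_of_injective (Int.castRingHom ℂ).injective_int] at h2
      have h3 : ‖(Int.castRingHom ℂ) f.leadingCoeff‖ = ((|f.leadingCoeff| : ℤ) : ℝ) := by
        simp
      rw [h3] at h2
      have h4 : ((|f.leadingCoeff| : ℤ) : ℝ) < ((2 : ℤ) : ℝ) := by
        push_cast
        push_cast at h2
        linarith
      have h5 : |f.leadingCoeff| < 2 := by exact_mod_cast h4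
      have h6 := abs_pos.mpr (leadingCoeff_ne_zero.mpr hfne)
      omega
    rcases (abs_eq (by norm_num : (0:ℤ) ≤ 1)).mp hlc with h1 | h1
    · exact sq_monic' k hk p f h1 hirr hM hM2 H hH hcard hfH
    · have h2 : (-f).Monic := by rw [Monic, leadingCoeff_neg, h1]; norm_num
      have h3 : Irreducible (-f) := by
        have := (Associated.refl f).neg_left
        exact this.irreducible_iff.mpr hirr
      have h4 := sq_monic' k hk p (-f) h2 h3 (by rw [MM_neg]; exact hM)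
        (by rw [MM_neg]; exact hM2) H hH hcard
        (by rw [Polynomial.map_neg]; exact hfH.neg_left)
      rwa [MM_neg, natDegree_neg] at h4
  · push Not at hM2
    have hkR : (2 : ℝ) ≤ k := by exact_mod_cast hk
    have hlog3 : (1 : ℝ) ≤ Real.log (k + 1) := by
      rw [Real.le_log_iff_exp_le (by linarith)]
      have := Real.exp_one_lt_d9
      linarith
    have hlog2 := Real.log_two_gt_d9
    have h1 : Real.log 2 ≤ Real.log (MM f) := Real.log_le_log (by norm_num) hM2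
    have hndR : (f.natDegree : ℝ) ≤ H.natDegree := by exact_mod_cast hnd
    have h2 : (f.natDegree : ℝ) / H.natDegree ≤ 1 := div_le_one_of_le₀ hndR (by positivity)
    have h3 : ((f.natDegree : ℝ) / H.natDegree) ^ 2 ≤ 1 := pow_le_one₀ (by positivity) h2
    have h4 : (1 : ℝ) ≤ (k : ℝ) ^ 7 * Real.log (k + 1) ^ 4 := by
      have h5 : (1 : ℝ) ≤ (k : ℝ) ^ 7 := one_le_pow₀ (by linarith)
      have h6 : (1 : ℝ) ≤ Real.log (k + 1) ^ 4 := one_le_pow₀ hlog3
      calc (1 : ℝ) = 1 * 1 := by ring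
        _ ≤ _ := by gcongr
    refine le_trans ?_ h1
    rw [div_le_iff₀ (by linarith)]
    nlinarith

/-- The general case. -/
theorem sq_all (k : ℕ) (hk : 1 ≤ k) (p : ℕ) [Fact p.Prime]
    (f : ℤ[X]) (hirr : Irreducible f)
    (hM : 1 < MM f) (H : (ZMod p)[X]) (hH : H ≠ 0)
    (hcard : H.support.card ≤ k) (hfH : f.map (Int.castRingHom (ZMod p)) ∣ H)
    (hnd : f.natDegree ≤ H.natDegree) :
    (1 / 10 ^ 21) * ((f.natDegree : ℝ) / H.natDegree) ^ 2 / ((k : ℝ) ^ 7 * Real.log (k + 1) ^ 4) ≤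
      Real.log (MM f) := by
  obtain ⟨r, hr⟩ : ∃ r : ℝ, r = ((f.natDegree : ℝ) / H.natDegree) ^ 2 := ⟨_, rfl⟩
  have hr0 : 0 ≤ r := by rw [hr]; positivity
  have hlog2 := Real.log_two_gt_d9
  have hlog2' := Real.log_two_lt_d9
  rcases Nat.lt_or_ge k 2 with h | h
  · have h1 : k = 1 := by omega
    subst h1
    have h2 := sq_two 2 le_rfl p f hirr hM H hH (by omega) hfH hnd
    refine le_trans ?_ h2
    rw [← hr]
    have h3 : Real.log (((1 : ℕ) : ℝ) + 1) = Real.log 2 := by norm_num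
    have h4 : Real.log (((2 : ℕ) : ℝ) + 1) ≤ 1.137 := by
      have h5 : (((2 : ℕ) : ℝ) + 1) = 3 := by norm_num
      rw [h5]
      have h6 : Real.log 3 ≤ Real.log 4 - (1 - 3 / 4) := by
        have h7 := Real.log_le_sub_one_of_pos (x := (3 : ℝ) / 4) (by norm_num)
        rw [Real.log_div (by norm_num) (by norm_num)] at h7
        linarith
      have h8 : Real.log 4 = 2 * Real.log 2 := by
        have : (4 : ℝ) = 2 ^ 2 := by norm_num
        rw [this, Real.log_pow]; push_cast; ring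
      linarith
    have h5 : (0 : ℝ) < Real.log (((2 : ℕ) : ℝ) + 1) := Real.log_pos (by norm_num)
    rw [h3]
    rw [div_le_div_iff₀ (by positivity) (by positivity)]
    have h6 : Real.log (((2 : ℕ) : ℝ) + 1) ^ 4 ≤ 1.137 ^ 4 := by gcongr
    have h7 : (0.69 : ℝ) ^ 4 ≤ Real.log 2 ^ 4 := by gcongr; linarith
    have h8 : (((2 : ℕ) : ℝ)) ^ 7 = 128 := by norm_num
    rw [h8]
    calc 1 / 10 ^ 21 * r * (128 * Real.log (((2 : ℕ) : ℝ) + 1) ^ 4)
        ≤ 1 / 10 ^ 21 * r * (128 * 1.137 ^ 4) := by gcongr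
      _ ≤ 1 / 10 ^ 18 * r * ((((1 : ℕ) : ℝ)) ^ 7 * 0.69 ^ 4) := by
          norm_num
          nlinarith
      _ ≤ 1 / 10 ^ 18 * r * ((((1 : ℕ) : ℝ)) ^ 7 * Real.log 2 ^ 4) := by gcongr
  · refine le_trans ?_ (sq_two k h p f hirr hM H hH hcard hfH hnd)
    have hkR : (2 : ℝ) ≤ k := by exact_mod_cast h
    have hLpos : 0 < Real.log ((k : ℝ) + 1) := Real.log_pos (by linarith)
    rw [← hr]
    apply div_le_div_of_nonneg_right _ (by positivity)
    apply mul_le_mul_of_nonneg_right _ hr0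
    norm_num

/-- The main theorem. -/
theorem sq_final (k p d : ℕ) (hp : p.Prime) (f : ℤ[X]) (H : (ZMod p)[X]) (hirr : Irreducible f)
    (hM : 1 < MM f) (hH : H ≠ 0) (hcard : H.support.card ≤ k)
    (hfH : f.map (Int.castRingHom (ZMod p)) ∣ H) (hfd : f.natDegree ≤ d) (hHd : H.natDegree ≤ d) :
    (1 / 10 ^ 21) * ((f.natDegree : ℝ) / d) ^ 2 / ((k : ℝ) ^ 7 * Real.log (k + 1) ^ 4) ≤
      Real.log (MM f) := by
  have : Fact p.Prime := ⟨hp⟩
  have hk : 1 ≤ k := (Finset.card_pos.mpr (support_nonempty.mpr hH)).trans_le hcard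
  have hkR : (1 : ℝ) ≤ k := by exact_mod_cast hk
  have hlog2 := Real.log_two_gt_d9
  have hlogk : Real.log 2 ≤ Real.log ((k : ℝ) + 1) := Real.log_le_log (by norm_num) (by linarith)
  have hfne : f ≠ 0 := hirr.ne_zero
  have hfdR : (f.natDegree : ℝ) ≤ d := by exact_mod_cast hfd
  by_cases hlc : (p : ℤ) ∣ f.leadingCoeff
  · have h2 : (2 : ℝ) ≤ MM f := by
      have h3 := leadingCoeff_le_mahlerMeasure (f.map (Int.castRingHom ℂ))
      refine le_trans ?_ h3
      rw [leadingCoeff_map_of_injective (Int.castRingHom ℂ).injective_int]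
      have h4 : ‖(Int.castRingHom ℂ) f.leadingCoeff‖ = ((|f.leadingCoeff| : ℤ) : ℝ) := by
        simp
      rw [h4]
      have h5 : (p : ℤ) ≤ |f.leadingCoeff| :=
        Int.le_of_dvd (abs_pos.mpr (leadingCoeff_ne_zero.mpr hfne)) ((dvd_abs _ _).mpr hlc)
      have h6 : (2 : ℤ) ≤ p := by exact_mod_cast hp.two_le
      exact_mod_cast h6.trans h5
    have h1 : Real.log 2 ≤ Real.log (MM f) := Real.log_le_log (by norm_num) h2
    refine le_trans ?_ h1
    have h5 : (1 : ℝ) ≤ (k : ℝ) ^ 7 := one_le_pow₀ hkR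
    have h7 : (0.69 : ℝ) ^ 4 ≤ Real.log ((k : ℝ) + 1) ^ 4 := by gcongr; linarith
    have h8 : ((f.natDegree : ℝ) / d) ^ 2 ≤ 1 :=
      pow_le_one₀ (by positivity) (div_le_one_of_le₀ hfdR (by positivity))
    rw [div_le_iff₀ (by positivity)]
    calc (1 : ℝ) / 10 ^ 21 * ((f.natDegree : ℝ) / d) ^ 2 ≤ 1 / 10 ^ 21 * 1 := by gcongr
      _ ≤ 0.69 * (1 * 0.69 ^ 4) := by norm_num
      _ ≤ Real.log 2 * ((k : ℝ) ^ 7 * Real.log ((k : ℝ) + 1) ^ 4) := by gcongr; linarith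
  · have hlc' : (Int.castRingHom (ZMod p)) f.leadingCoeff ≠ 0 := by
      rw [eq_intCast, Ne, ZMod.intCast_zmod_eq_zero_iff_dvd]
      exact hlc
    have hdeg : (f.map (Int.castRingHom (ZMod p))).natDegree = f.natDegree :=
      natDegree_map_of_leadingCoeff_ne_zero _ hlc'
    have hnd : f.natDegree ≤ H.natDegree := by
      rw [← hdeg]; exact natDegree_le_of_dvd hfH hH
    refine le_trans ?_ (sq_all k hk p f hirr hM H hH hcard hfH hnd)
    have hLpos : 0 < Real.log ((k : ℝ) + 1) := Real.log_pos (by linarith)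
    have hHdR : (H.natDegree : ℝ) ≤ d := by exact_mod_cast hHd
    rcases Nat.eq_zero_or_pos f.natDegree with h0 | h0
    · rw [h0]; simp
    · have hHpos : (0 : ℝ) < H.natDegree := by exact_mod_cast h0.trans_le hnd
      gcongr

end Pool.Agent.Lib.MP_7ab245_nt.SQ
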